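import Pool.Agent.R904.Voi.Alt

/-!
# Alternating sums over symmetric pairs
-/

set_option autoImplicit false

open Equiv

namespace Run7.h220.Comb

variable {M : Type*} [AddCommGroup M] [Module ℚ M] {n : ℕ}

/-- The permutation `(i, b) ↦ (σ (i), ε_i (b))`. -/
def pr (σ : Perm (Fin n)) (ε : Fin n → Perm Bool) : Perm (Fin n × Bool) :=
  (Equiv.prodCongrLeft fun _ => σ) * (Equiv.prodCongrRight ε)

@[simp] lemma pr_apply (σ : Perm (Fin n)) (ε : Fin n → Perm Bool) (i : Fin n) (b : Bool) :
    pr σ ε (i, b) = (σ i, ε i b) := rfl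

lemma sign_pr (σ : Perm (Fin n)) (ε : Fin n → Perm Bool) :
    Perm.sign (pr σ ε) = ∏ i, Perm.sign (ε i) := by
  unfold pr
  rw [Perm.sign_mul, Perm.sign_prodCongrRight, Perm.sign_prodCongrLeft]
  simp

/-- If the symmetrizations of `z π` over more than `g` positions are zero, and `z` is invariant
under the exchange of the two members of a pair, and `n > g (g - 1) / 2`, then the alternating sum
over the permutations of the pairs is zero. -/
theorem alt_sym {g : ℕ} (hg : g.choose 2 < n) (z : Perm (Fin n × Bool) → M)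
    (h1 : ∀ A : Finset (Fin n × Bool), A.card = g + 1 → ∀ π : Perm (Fin n × Bool),
      ∑ ρ : Perm A, z (π * Perm.ofSubtype ρ) = 0)
    (h2 : ∀ (σ : Perm (Fin n)) (ε : Fin n → Perm Bool), z (pr σ ε) = z (pr σ 1)) :
    ∑ σ : Perm (Fin n), ((Perm.sign σ : ℤ) : ℚ) • z (pr σ 1) = 0 := by
  classical
  let F : Perm (Fin n × Bool) → ℚ := fun π =>
    ∑ σ : Perm (Fin n), ∑ ε : Fin n → Perm Bool,
      if pr σ ε = π then ((Perm.sign σ : ℤ) : ℚ) * ∏ i, ((Perm.sign (ε i) : ℤ) : ℚ) else 0
  have key := Pool.Agent.R904.Voi.alt_sum (κ := Fin n × Bool) (Q := Unit) (Γ := Fin g) (M := M)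
    (fun _ => ()) (fun _ => ()) F (fun _ _ _ => rfl) ?_ z ?_
  · have e1 : ∑ π : Perm (Fin n × Bool), (((Perm.sign π : ℤ) : ℚ) * F π) • z π =
        ∑ σ : Perm (Fin n), ∑ ε : Fin n → Perm Bool, ((Perm.sign σ : ℤ) : ℚ) • z (pr σ 1) := by
      have e2 : ∀ π : Perm (Fin n × Bool), (((Perm.sign π : ℤ) : ℚ) * F π) • z π =
          ∑ σ : Perm (Fin n), ∑ ε : Fin n → Perm Bool,
            if pr σ ε = π then ((Perm.sign σ : ℤ) : ℚ) • z (pr σ 1) else 0 := by
        intro π
        simp only [F]
        rw [Finset.mul_sum, Finset.sum_smul]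
        refine Finset.sum_congr rfl fun σ _ => ?_
        rw [Finset.mul_sum, Finset.sum_smul]
        refine Finset.sum_congr rfl fun ε _ => ?_
        split_ifs with h
        · subst h
          rw [h2 σ ε, sign_pr]
          congr 1
          have e3 : ∀ i, (((Perm.sign (ε i) : ℤ) : ℚ)) * ((Perm.sign (ε i) : ℤ) : ℚ) = 1 := by
            intro i
            rw [← Int.cast_mul, Int.units_coe_mul_self, Int.cast_one]
          have e4 : (((∏ i, Perm.sign (ε i) : ℤˣ) : ℤ) : ℚ) = ∏ i, ((Perm.sign (ε i) : ℤ) : ℚ) := by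
            push_cast
            rfl
          rw [e4]
          calc (∏ i, ((Perm.sign (ε i) : ℤ) : ℚ)) * (((Perm.sign σ : ℤ) : ℚ) *
                ∏ i, ((Perm.sign (ε i) : ℤ) : ℚ)) =
                ((Perm.sign σ : ℤ) : ℚ) * ∏ i, (((Perm.sign (ε i) : ℤ) : ℚ) *
                  ((Perm.sign (ε i) : ℤ) : ℚ)) := by
                rw [Finset.prod_mul_distrib]; ring
            _ = _ := by rw [Finset.prod_congr rfl fun i _ => e3 i, Finset.prod_const_one, mul_one]
        · rw [mul_zero, zero_smul]
      rw [Finset.sum_congr rfl fun π _ => e2 π, Finset.sum_comm]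
      refine Finset.sum_congr rfl fun σ _ => ?_
      rw [Finset.sum_comm]
      refine Finset.sum_congr rfl fun ε _ => ?_
      rw [Finset.sum_ite_eq, if_pos (Finset.mem_univ _)]
    rw [e1] at key
    have e5 : ∑ σ : Perm (Fin n), ∑ _ε : Fin n → Perm Bool, ((Perm.sign σ : ℤ) : ℚ) • z (pr σ 1) =
        (Fintype.card (Fin n → Perm Bool) : ℚ) •
          ∑ σ : Perm (Fin n), ((Perm.sign σ : ℤ) : ℚ) • z (pr σ 1) := by
      rw [Finset.smul_sum]
      refine Finset.sum_congr rfl fun σ _ => ?_
      rw [Finset.sum_const, Finset.card_univ, ← Nat.cast_smul_eq_nsmul ℚ]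
    rw [e5] at key
    exact (smul_eq_zero.1 key).resolve_left (Nat.cast_ne_zero.2 Fintype.card_ne_zero)
  · intro c _ Y
    let M' : Fin n → Fin n → ℚ := fun j i =>
      (Matrix.of fun b' b : Bool => Y (c (i, b)) (j, b')).det
    have e1 : ∑ π : Perm (Fin n × Bool), F π * ∏ k, Y (c k) (π k) =
        (Matrix.of fun j i : Fin n => M' j i).det := by
      have e2 : ∀ π : Perm (Fin n × Bool), F π * ∏ k, Y (c k) (π k) =
          ∑ σ : Perm (Fin n), ∑ ε : Fin n → Perm Bool,
            if pr σ ε = π then ((Perm.sign σ : ℤ) : ℚ) *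
              ∏ i, (((Perm.sign (ε i) : ℤ) : ℚ) * ∏ b, Y (c (i, b)) (σ i, ε i b)) else 0 := by
        intro π
        simp only [F]
        rw [Finset.sum_mul]
        refine Finset.sum_congr rfl fun σ _ => ?_
        rw [Finset.sum_mul]
        refine Finset.sum_congr rfl fun ε _ => ?_
        split_ifs with h
        · subst h
          rw [Fintype.prod_prod_type, mul_assoc, ← Finset.prod_mul_distrib]
          rfl
        · rw [zero_mul]
      rw [Finset.sum_congr rfl fun π _ => e2 π, Finset.sum_comm, Matrix.det_apply]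
      refine Finset.sum_congr rfl fun σ _ => ?_
      rw [Finset.sum_comm]
      have e3 : ∀ ε : Fin n → Perm Bool, (∑ π : Perm (Fin n × Bool), if pr σ ε = π then
          ((Perm.sign σ : ℤ) : ℚ) * ∏ i, (((Perm.sign (ε i) : ℤ) : ℚ) *
            ∏ b, Y (c (i, b)) (σ i, ε i b)) else 0) = ((Perm.sign σ : ℤ) : ℚ) *
          ∏ i, (((Perm.sign (ε i) : ℤ) : ℚ) * ∏ b, Y (c (i, b)) (σ i, ε i b)) := by
        intro ε
        rw [Finset.sum_ite_eq, if_pos (Finset.mem_univ _)]
      rw [Finset.sum_congr rfl fun ε _ => e3 ε, ← Finset.mul_sum, Units.smul_def, zsmul_eq_mul]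
      congr 1
      rw [← Fintype.piFinset_univ, ← Finset.prod_univ_sum (fun _ : Fin n => (Finset.univ : Finset (Perm Bool)))
        (fun i τ => ((Perm.sign τ : ℤ) : ℚ) * ∏ b, Y (c (i, b)) (σ i, τ b))]
      refine Finset.prod_congr rfl fun i _ => ?_
      simp only [Matrix.of_apply, M']
      rw [Matrix.det_apply]
      refine Finset.sum_congr rfl fun τ _ => ?_
      rw [Units.smul_def, zsmul_eq_mul]
      rfl
    rw [e1]
    by_cases hc : ∃ i, c (i, false) = c (i, true)
    · obtain ⟨i, hi⟩ := hc
      refine Matrix.det_eq_zero_of_column_eq_zero i fun j => ?_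
      simp only [Matrix.of_apply, M']
      refine Matrix.det_zero_of_column_eq (i := false) (j := true) (by simp) fun b' => ?_
      simp only [Matrix.of_apply, hi]
    · push Not at hc
      -- two columns belong to the same pair
      have hcard : Fintype.card {s : Finset (Fin g) // s.card = 2} < Fintype.card (Fin n) := by
        rw [Fintype.card_finset_len, Fintype.card_fin, Fintype.card_fin]
        exact hg
      obtain ⟨i, i', hne, heq⟩ := Fintype.exists_ne_map_eq_of_card_lt
        (fun i : Fin n => (⟨{c (i, false), c (i, true)}, Finset.card_pair (hc i)⟩ :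
          {s : Finset (Fin g) // s.card = 2})) hcard
      have heq' : ({c (i, false), c (i, true)} : Finset (Fin g)) = {c (i', false), c (i', true)} :=
        congrArg Subtype.val heq
      have hpair : (c (i, false) = c (i', false) ∧ c (i, true) = c (i', true)) ∨
          (c (i, false) = c (i', true) ∧ c (i, true) = c (i', false)) := by
        have h3 : c (i, false) ∈ ({c (i', false), c (i', true)} : Finset (Fin g)) := by
          rw [← heq']; simp
        have h4 : c (i, true) ∈ ({c (i', false), c (i', true)} : Finset (Fin g)) := by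
          rw [← heq']; simp
        rw [Finset.mem_insert, Finset.mem_singleton] at h3 h4
        rcases h3 with h3 | h3 <;> rcases h4 with h4 | h4
        · exact absurd (h3.trans h4.symm) (hc i)
        · exact Or.inl ⟨h3, h4⟩
        · exact Or.inr ⟨h3, h4⟩
        · exact absurd (h3.trans h4.symm) (hc i)
      have hdet : ∀ j i, M' j i = Y (c (i, false)) (j, false) * Y (c (i, true)) (j, true) -
          Y (c (i, true)) (j, false) * Y (c (i, false)) (j, true) := by
        intro j i
        simp only [M']
        rw [Matrix.det_apply', Fintype.sum_eq_add (1 : Perm Bool) (swap false true)]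
        · simp
          ring
        · decide
        · rintro τ ⟨h3, h4⟩
          exfalso
          revert h3 h4
          revert τ
          decide
      rcases hpair with ⟨h3, h4⟩ | ⟨h3, h4⟩
      · refine Matrix.det_zero_of_column_eq hne fun j => ?_
        simp only [Matrix.of_apply, hdet, h3, h4]
      · rw [← Matrix.det_updateCol_add_smul_self (Matrix.of fun j i : Fin n => M' j i) hne 1]
        refine Matrix.det_eq_zero_of_column_eq_zero i fun j => ?_
        simp [hdet, h3, h4]
  · intro _ A hA _ π _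
    exact h1 A (by rw [hA]; simp) π

end Run7.h220.Comb
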