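import Mathlib

/-!
# Symmetrized products of differences of points

`P` is the set of points of a curve, `L` the space of its principal divisors (with rational
coefficients). A multilinear function `F` of zero-cycles on the curve with values in a vector space
`V` is compatible with `L` if it is zero on `L` in each variable, also after the identification of
variables: this holds for the class of the image of a point under a morphism `C^m → X`.
-/

set_option autoImplicit false

open Finset

namespace Run7.h220.Comb

variable {P V : Type*} [AddCommGroup V] [Module ℚ V]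

section mext

variable {ι : Type*} [Finite ι] {κ : ι → Type*}

/-- The multilinear extension of a function on tuples of points to zero-cycles. -/
noncomputable def mext (f : (∀ i, κ i) → V) : MultilinearMap ℚ (fun i => κ i →₀ ℚ) V :=
  ((Basis.piTensorProduct fun i => (Finsupp.basisSingleOne (R := ℚ) (ι := κ i))).constr ℚ
    f).compMultilinearMap (PiTensorProduct.tprod ℚ)

@[simp] lemma mext_single (f : (∀ i, κ i) → V) (s : ∀ i, κ i) :
    mext f (fun i => Finsupp.single (s i) 1) = f s := by
  unfold mext
  rw [LinearMap.compMultilinearMap_apply]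
  have h := Basis.piTensorProduct_apply (R := ℚ)
    (fun i => (Finsupp.basisSingleOne (R := ℚ) (ι := κ i))) s
  simp only [Finsupp.coe_basisSingleOne] at h
  rw [← h, Module.Basis.constr_basis]

lemma mext_unique {F G : MultilinearMap ℚ (fun i => κ i →₀ ℚ) V}
    (h : ∀ s : ∀ i, κ i, F (fun i => Finsupp.single (s i) 1) =
      G (fun i => Finsupp.single (s i) 1)) : F = G := by
  refine Module.Basis.ext_multilinear
    (fun i => (Finsupp.basisSingleOne (R := ℚ) (ι := κ i))) fun v => ?_
  simpa using h v

end mext

/-- The divisor `[x] - [o]`. -/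
noncomputable def u (o x : P) : P →₀ ℚ := Finsupp.single x 1 - Finsupp.single o 1

@[simp] lemma u_self (o : P) : u o o = 0 := by simp [u]

/-- The linear extension of a function on points. -/
noncomputable abbrev lin (f : P → V) : (P →₀ ℚ) →ₗ[ℚ] V := Finsupp.linearCombination ℚ f

lemma lin_single (f : P → V) (x : P) : lin f (Finsupp.single x 1) = f x := by
  simp [lin, Finsupp.linearCombination_single]

lemma lin_add (f g : P → V) (D : P →₀ ℚ) : lin (fun x => f x + g x) D = lin f D + lin g D := by
  simp only [lin, Finsupp.linearCombination_apply, smul_add, Finsupp.sum_add]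

lemma lin_smul (c : ℚ) (f : P → V) (D : P →₀ ℚ) : lin (fun x => c • f x) D = c • lin f D := by
  simp only [lin, Finsupp.linearCombination_apply, Finsupp.smul_sum]
  refine Finsupp.sum_congr fun x _ => ?_
  rw [smul_comm]

lemma lin_sub (f g : P → V) (D : P →₀ ℚ) : lin (fun x => f x - g x) D = lin f D - lin g D := by
  simp only [lin, Finsupp.linearCombination_apply, smul_sub, Finsupp.sum_sub]

lemma lin_u (f : P → V) (o x : P) : lin f (u o x) = f x - f o := by
  rw [u, map_sub, lin_single, lin_single]

/-- Compatibility with the space `L` of principal divisors. -/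
def Compat {κ : Type*} (L : Submodule ℚ (P →₀ ℚ)) (F : MultilinearMap ℚ (fun _ : κ => P →₀ ℚ) V) :
    Prop :=
  ∀ h : κ → Option P, ∀ D ∈ L, lin (fun x => F fun i => Finsupp.single ((h i).getD x) 1) D = 0

variable {L : Submodule ℚ (P →₀ ℚ)} {m : ℕ} {o : P}

lemma dup_aux (F : MultilinearMap ℚ (fun _ : Fin (m + 1) => P →₀ ℚ) V) (i j : Fin m) (h : j ≠ i)
    (b : Fin m → (P →₀ ℚ)) (z c : P →₀ ℚ) :
    F (Fin.cons c (Function.update (Function.update b j z) i c)) =
      F (Function.update (Fin.cons c (Function.update b i c) : Fin (m + 1) → (P →₀ ℚ))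
        j.succ z) := by
  rw [← Fin.cons_update, Function.update_comm h]

/-- The multilinear function obtained from `F` by the duplication of the variable `i`. -/
noncomputable def dup (o : P) (F : MultilinearMap ℚ (fun _ : Fin (m + 1) => P →₀ ℚ) V)
    (i : Fin m) : MultilinearMap ℚ (fun _ : Fin m => P →₀ ℚ) V where
  toFun b := lin (fun x => F (Fin.cons (u o x) (Function.update b i (u o x)))) (b i)
  map_update_add' := by
    intro inst b j x y
    obtain rfl : inst = instDecidableEqFin m := Subsingleton.elim _ _
    by_cases h : j = i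
    · subst h
      simp only [Function.update_self, map_add, Function.update_idem]
    · have h' : i ≠ j := fun h1 => h h1.symm
      rw [Function.update_of_ne h', Function.update_of_ne h', Function.update_of_ne h', ← lin_add]
      congr 2
      funext z
      rw [dup_aux F i j h, dup_aux F i j h, dup_aux F i j h, F.map_update_add]
  map_update_smul' := by
    intro inst b j c x
    obtain rfl : inst = instDecidableEqFin m := Subsingleton.elim _ _
    by_cases h : j = i
    · subst h
      simp only [Function.update_self, map_smul, Function.update_idem]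
    · have h' : i ≠ j := fun h1 => h h1.symm
      rw [Function.update_of_ne h', Function.update_of_ne h', ← lin_smul]
      congr 2
      funext z
      rw [dup_aux F i j h, dup_aux F i j h, F.map_update_smul]

lemma dup_apply (F : MultilinearMap ℚ (fun _ : Fin (m + 1) => P →₀ ℚ) V) (i : Fin m)
    (b : Fin m → (P →₀ ℚ)) : dup o F i b =
      lin (fun x => F (Fin.cons (u o x) (Function.update b i (u o x)))) (b i) := rfl

lemma dup_u (F : MultilinearMap ℚ (fun _ : Fin (m + 1) => P →₀ ℚ) V) (i : Fin m) (s : Fin m → P) :
    dup o F i (fun j => u o (s j)) = F (Fin.cons (u o (s i)) fun j => u o (s j)) := by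
  rw [dup_apply, lin_u]
  have h2 : F (Fin.cons (u o o) (Function.update (fun j => u o (s j)) i (u o o))) = 0 :=
    F.map_coord_zero (0 : Fin (m + 1)) (by simp)
  rw [h2, sub_zero]
  congr 2
  exact Function.update_eq_self_iff.2 rfl

/-- Compatibility is inherited. -/
lemma Compat.dup {F : MultilinearMap ℚ (fun _ : Fin (m + 1) => P →₀ ℚ) V} (hF : Compat L F)
    (i : Fin m) : Compat L (dup o F i) := by
  intro h D hD
  have key : ∀ x : P, Comb.dup o F i (fun j => Finsupp.single ((h j).getD x) 1) =
      F (fun k : Fin (m + 1) => Finsupp.single (((Fin.cons (h i) h : Fin (m + 1) → Option P) k).getD x) 1) -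
      F (fun k : Fin (m + 1) => Finsupp.single (((Fin.cons (h i) (Function.update h i (some o)) : Fin (m + 1) → Option P) k).getD x) 1) -
      F (fun k : Fin (m + 1) => Finsupp.single (((Fin.cons (some o) h : Fin (m + 1) → Option P) k).getD x) 1) +
      F (fun k : Fin (m + 1) => Finsupp.single (((Fin.cons (some o) (Function.update h i (some o)) : Fin (m + 1) → Option P) k).getD x) 1) := by
    intro x
    rw [dup_apply, lin_single]
    set b : Fin m → (P →₀ ℚ) := fun j => Finsupp.single ((h j).getD x) 1 with hb
    set a : P →₀ ℚ := Finsupp.single ((h i).getD x) 1 with ha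
    set c : P →₀ ℚ := Finsupp.single o 1 with hc
    have e1 : ∀ (g : Fin m → Option P) (y : Option P) (w : Fin m → (P →₀ ℚ)) (z : P →₀ ℚ),
        (∀ j, w j = Finsupp.single ((g j).getD x) 1) → z = Finsupp.single (y.getD x) 1 →
        (fun k : Fin (m + 1) => (Finsupp.single (((Fin.cons y g : Fin (m + 1) → Option P) k).getD x) 1 : P →₀ ℚ)) =
          Fin.cons z w := by
      intro g y w z hw hz
      funext k
      refine Fin.cases ?_ (fun j => ?_) k
      · simp [hz]
      · simp [hw]
    rw [e1 h (h i) b a (fun j => rfl) rfl,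
      e1 (Function.update h i (some o)) (h i) (Function.update b i c) a (fun j => by
        by_cases hj : j = i
        · subst hj; simp [hc]
        · simp [Function.update_of_ne hj, hb]) rfl,
      e1 h (some o) b c (fun j => rfl) rfl,
      e1 (Function.update h i (some o)) (some o) (Function.update b i c) c (fun j => by
        by_cases hj : j = i
        · subst hj; simp [hc]
        · simp [Function.update_of_ne hj, hb]) rfl]
    have e2 : u o ((h i).getD x) = a - c := rfl
    rw [e2]
    have e3 : ∀ (w : Fin m → (P →₀ ℚ)), F (Fin.cons (a - c) w) = F (Fin.cons a w) - F (Fin.cons c w) := by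
      intro w
      have h1 := F.map_update_sub (Fin.cons a w : Fin (m + 1) → (P →₀ ℚ)) 0 a c
      simpa [Fin.update_cons_zero] using h1
    have e4 : ∀ (y : P →₀ ℚ), F (Fin.cons y (Function.update b i (a - c))) =
        F (Fin.cons y b) - F (Fin.cons y (Function.update b i c)) := by
      intro y
      have h1 := F.map_update_sub (Fin.cons y b : Fin (m + 1) → (P →₀ ℚ)) i.succ a c
      rw [← Fin.cons_update, ← Fin.cons_update, ← Fin.cons_update] at h1
      rw [h1]
      congr 3
      exact Function.update_eq_self_iff.2 rfl
    rw [e3, e4, e4]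
    abel
  rw [show (fun x => Comb.dup o F i fun j => Finsupp.single ((h j).getD x) 1) = _ from funext key,
    lin_add, lin_sub, lin_sub, hF _ D hD, hF _ D hD, hF _ D hD, hF _ D hD]
  simp

/-- The sum of the values of `F` at the differences `[e_j] - [o]`, over all `m`-tuples of different
indices `j`. -/
noncomputable def esum {J : Type*} [Fintype J] [DecidableEq J] (o : P)
    (F : MultilinearMap ℚ (fun _ : Fin m => P →₀ ℚ) V) (e : J → P) : V :=
  ∑ φ : Fin m ↪ J, F fun i => u o (e (φ i))

lemma esum_succ {J : Type*} [Fintype J] [DecidableEq J]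
    (F : MultilinearMap ℚ (fun _ : Fin (m + 1) => P →₀ ℚ) V) (e : J → P) :
    esum o F e = ∑ φ : Fin m ↪ J, F (Fin.cons (∑ j, u o (e j)) fun i => u o (e (φ i))) -
      ∑ i : Fin m, esum o (dup o F i) e := by
  unfold esum
  rw [← Equiv.sum_comp (Equiv.embeddingFinSucc m J).symm, Fintype.sum_sigma]
  simp only [dup_u]
  rw [Finset.sum_comm (s := (univ : Finset (Fin m))), ← Finset.sum_sub_distrib]
  refine Finset.sum_congr rfl fun φ _ => ?_
  have e1 : ∀ j : {j // j ∉ Set.range φ}, F (fun i => u o (e (((Equiv.embeddingFinSucc m J).symm ⟨φ, j⟩) i))) =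
      F (Fin.cons (u o (e j)) fun i => u o (e (φ i))) := by
    intro j
    congr 1
    funext i
    have h1 := congrFun (Equiv.coe_embeddingFinSucc_symm (n := m) (ι := J) ⟨φ, j⟩) i
    rw [h1]
    refine Fin.cases ?_ (fun k => ?_) i
    · simp
    · simp
  rw [Finset.sum_congr rfl fun j _ => e1 j]
  have e2 : F (Fin.cons (∑ j, u o (e j)) fun i => u o (e (φ i))) =
      ∑ j, F (Fin.cons (u o (e j)) fun i => u o (e (φ i))) := by
    have h1 := map_sum F.curryLeft (fun j => u o (e j)) (Finset.univ : Finset J)
    have h2 := congrArg (fun G : MultilinearMap ℚ (fun _ : Fin m => P →₀ ℚ) V =>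
      G fun i => u o (e (φ i))) h1
    rw [_root_.sum_apply] at h2
    exact h2
  have e3 : ∑ j : {j // j ∉ Set.range φ}, F (Fin.cons (u o (e j)) fun i => u o (e (φ i))) =
      ∑ j ∈ univ.filter (fun j => j ∉ Set.range φ), F (Fin.cons (u o (e j)) fun i => u o (e (φ i))) := by
    rw [← Finset.sum_subtype_eq_sum_filter]
    simp
  have e4 : ∑ i : Fin m, F (Fin.cons (u o (e (φ i))) fun i => u o (e (φ i))) =
      ∑ j ∈ univ.filter (fun j => j ∈ Set.range φ), F (Fin.cons (u o (e j)) fun i => u o (e (φ i))) := by
    have h1 : univ.filter (fun j => j ∈ Set.range φ) = univ.map φ := by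
      ext j
      simp
    rw [h1, Finset.sum_map]
  rw [e2, e3, e4, eq_sub_iff_add_eq, add_comm, Finset.sum_filter_add_sum_filter_not]

lemma cons_lin (F : MultilinearMap ℚ (fun _ : Fin (m + 1) => P →₀ ℚ) V) (D : P →₀ ℚ)
    (b : Fin m → (P →₀ ℚ)) :
    F (Fin.cons D b) = lin (fun x => F (Fin.cons (Finsupp.single x 1) b)) D := by
  rw [← MultilinearMap.curryLeft_apply]
  induction D using Finsupp.induction_linear with
  | zero => simp
  | add D D' h h' => rw [map_add, map_add, _root_.add_apply, h, h']
  | single x c =>
    have h1 : (Finsupp.single x c : P →₀ ℚ) = c • Finsupp.single x 1 := by simp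
    rw [h1, map_smul, map_smul, _root_.smul_apply, lin_single,
      MultilinearMap.curryLeft_apply]

lemma cons_zero {F : MultilinearMap ℚ (fun _ : Fin (m + 1) => P →₀ ℚ) V} (hF : Compat L F)
    {D : P →₀ ℚ} (hD : D ∈ L) (b : Fin m → (P →₀ ℚ)) : F (Fin.cons D b) = 0 := by
  have h1 : F.curryLeft D = 0 := by
    refine mext_unique fun s => ?_
    rw [_root_.zero_apply, MultilinearMap.curryLeft_apply, cons_lin]
    refine Eq.trans ?_ (hF (Fin.cons none fun i => some (s i)) D hD)
    congr 2
    funext x
    congr 1
    funext i
    refine Fin.cases ?_ (fun j => ?_) i <;> simp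
  rw [← MultilinearMap.curryLeft_apply, h1, _root_.zero_apply]

/-- The function with a fixed first argument. -/
lemma Compat.curry {F : MultilinearMap ℚ (fun _ : Fin (m + 1) => P →₀ ℚ) V} (hF : Compat L F)
    (c : P →₀ ℚ) : Compat L (F.curryLeft c) := by
  intro h D hD
  induction c using Finsupp.induction_linear with
  | zero =>
    simp only [map_zero, _root_.zero_apply]
    have := lin_smul 0 (fun _ : P => (0 : V)) D
    simpa using this
  | add c c' h1 h2 =>
    simp only [map_add, _root_.add_apply]
    rw [lin_add, h1, h2, add_zero]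
  | single y r =>
    have h1 : (Finsupp.single y r : P →₀ ℚ) = r • Finsupp.single y 1 := by simp
    rw [h1]
    simp only [map_smul, _root_.smul_apply]
    rw [lin_smul]
    have h2 : lin (fun x => (F.curryLeft (Finsupp.single y 1)) fun i =>
        Finsupp.single ((h i).getD x) 1) D = 0 := by
      refine Eq.trans ?_ (hF (Fin.cons (some y) h) D hD)
      congr 2
      funext x
      rw [MultilinearMap.curryLeft_apply]
      congr 1
      funext i
      refine Fin.cases ?_ (fun j => ?_) i <;> simp
    rw [h2, smul_zero]

/-- The sum depends on the class of the divisor `∑ [e_j]` only. -/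
theorem esum_congr {N : ℕ} (e e' : Fin N → P)
    (h : ∑ j, (Finsupp.single (e j) 1 : P →₀ ℚ) - ∑ j, (Finsupp.single (e' j) 1 : P →₀ ℚ) ∈ L) :
    ∀ (m : ℕ) (F : MultilinearMap ℚ (fun _ : Fin m => P →₀ ℚ) V), Compat L F →
      esum o F e = esum o F e' := by
  intro m
  induction m with
  | zero =>
    intro F _
    unfold esum
    refine Finset.sum_congr rfl fun φ _ => ?_
    congr 1
    funext i
    exact i.elim0
  | succ m ih =>
    intro F hF
    rw [esum_succ, esum_succ]
    congr 1
    · have h1 : ∑ j, u o (e j) - ∑ j, u o (e' j) ∈ L := by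
        convert h using 1
        simp only [u, Finset.sum_sub_distrib]
        abel
      have h2 : ∀ b : Fin m → (P →₀ ℚ), F (Fin.cons (∑ j, u o (e j)) b) =
          F (Fin.cons (∑ j, u o (e' j)) b) := by
        intro b
        have h3 := cons_zero hF h1 b
        rw [← MultilinearMap.curryLeft_apply, map_sub, _root_.sub_apply, sub_eq_zero] at h3
        exact h3
      have h4 := ih (F.curryLeft (∑ j, u o (e' j))) (hF.curry _)
      unfold esum at h4
      simp only [MultilinearMap.curryLeft_apply] at h4
      rw [Finset.sum_congr rfl fun φ _ => h2 _]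
      exact h4
    · exact Finset.sum_congr rfl fun i _ => ih _ (hF.dup i)

/-- If the divisor `∑ [s_i]` is equivalent to a divisor `∑ [s'_i]` which contains the point `o`,
then the symmetrized product of the `[s_i] - [o]` is zero. -/
theorem symm_zero {m : ℕ} {F : MultilinearMap ℚ (fun _ : Fin m => P →₀ ℚ) V} (hF : Compat L F)
    (s s' : Fin m → P)
    (h : ∑ j, (Finsupp.single (s j) 1 : P →₀ ℚ) - ∑ j, (Finsupp.single (s' j) 1 : P →₀ ℚ) ∈ L)
    (i : Fin m) (hi : s' i = o) :
    ∑ σ : Equiv.Perm (Fin m), F (fun j => u o (s (σ j))) = 0 := by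
  have h1 := esum_congr (o := o) s s' h m F hF
  have h2 : ∀ t : Fin m → P, esum o F t = ∑ σ : Equiv.Perm (Fin m), F (fun j => u o (t (σ j))) := by
    intro t
    unfold esum
    rw [← Equiv.sum_comp (Equiv.embeddingEquivOfFinite (Fin m)).symm]
    rfl
  rw [← h2, h1, h2]
  refine Finset.sum_eq_zero fun σ _ => ?_
  refine F.map_coord_zero (σ.symm i) ?_
  rw [Equiv.apply_symm_apply, hi, u_self]

end Run7.h220.Comb
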