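import Pool.Agent.Run7.h220.PQLoop
set_option autoImplicit false

/-!
The regulators of the symbols `{X - a_k, Y - b_l}` on a loop with `∏ (X - a_k) = z`,
`∏ (Y - b_l) = t / z`, `|z| = r`.
-/

namespace Run7.h220.PQ

open MeasureTheory Set

open Pool.Agent.TH826.MK (circ norm_circ contDiff_circ hasDerivAt_circ circ_add_one)

open Pool.Agent.TH826.UH (pr NZ pr_mul pr_div pr_prod pr_const nz_circ ld_circ)

open scoped Real

variable {m n : ℕ} {a : Fin m → ℤ} {b : Fin n → ℤ} {i : Fin m} {j : Fin n} {X Y : ℝ → ℂ}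
  {r : ℝ} {t : ℂ}

theorem Lp.nz {U : ℝ → ℂ} (h : Lp a i U X) (hU : ∀ s, U s ≠ 0) (k : Fin m) :
    NZ fun s => X s - a k :=
  ⟨h.smooth.sub contDiff_const, fun s hk => hU s (by
    rw [← h.prod s, Finset.prod_eq_zero (Finset.mem_univ k) hk])⟩

/-- the second coordinate function `t / z` of the circle -/
noncomputable def inv_circ (t : ℂ) (r : ℝ) (s : ℝ) : ℂ := t / circ r s

theorem nz_inv_circ (hr : 0 < r) (ht : t ≠ 0) : NZ (inv_circ t r) :=
  NZ.div ⟨contDiff_const, fun _ => ht⟩ (nz_circ hr)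

theorem hasDerivAt_inv_circ (hr : 0 < r) (s : ℝ) :
    HasDerivAt (inv_circ t r) (-(2 * π * Complex.I) * inv_circ t r s) s := by
  have h1 := (hasDerivAt_circ r s)
  have h0 := (nz_circ hr).ne_zero s
  have h2 : HasDerivAt (fun s => t * (circ r s)⁻¹)
      (t * (-(2 * π * Complex.I * circ r s) / (circ r s) ^ 2)) s := (h1.inv h0).const_mul t
  have e : inv_circ t r = fun s => t * (circ r s)⁻¹ := by
    funext s
    unfold inv_circ
    rw [div_eq_mul_inv]
  rw [e]
  refine h2.congr_deriv ?_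
  field_simp

theorem norm_c : ‖-(2 * (π : ℂ) * Complex.I)‖ = 2 * π := by
  rw [norm_neg, norm_mul, norm_mul, Complex.norm_I, Complex.norm_real, Complex.norm_two,
    Real.norm_of_nonneg Real.pi_pos.le, mul_one]

/-- the regulator of `{X - a_k, Y - b_l}` -/
noncomputable def pp (a : Fin m → ℤ) (b : Fin n → ℤ) (X Y : ℝ → ℂ) (k : Fin m) (l : Fin n) : ℝ :=
  pr (fun s => X s - a k) (fun s => Y s - b l)

variable (hX : Lp a i (circ r) X) (hY : Lp b j (inv_circ t r) Y) (hr : 0 < r) (ht : t ≠ 0)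

include hX hY hr ht

theorem pp_row (k : Fin m) :
    ∑ l, pp a b X Y k l = pr (fun s => X s - a k) (inv_circ t r) := by
  have h1 := pr_prod Finset.univ (hX.nz (nz_circ hr).ne_zero k)
    (H := fun l s => Y s - (b l : ℂ)) (fun l => hY.nz (nz_inv_circ hr ht).ne_zero l)
  unfold pp
  rw [← h1]
  congr 1
  funext s
  rw [hY.prod]

theorem pp_col (l : Fin n) :
    ∑ k, pp a b X Y k l = pr (circ r) (fun s => Y s - b l) := by
  have h1 := pr_prod Finset.univ (hY.nz (nz_inv_circ hr ht).ne_zero l)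
    (H := fun k s => X s - (a k : ℂ)) (fun k => hX.nz (nz_circ hr).ne_zero k)
  unfold pp
  rw [pr_swap, show circ r = fun s => ∏ k, (X s - (a k : ℂ)) from by
    funext s; rw [hX.prod], h1, ← Finset.sum_neg_distrib]
  exact Finset.sum_congr rfl fun k _ => pr_swap _ _

omit hX hY in
theorem pr_circ_inv : pr (circ r) (inv_circ t r) = -(2 * π * Real.log ‖t‖) := by
  have h1 := pr_div (nz_circ hr) (H := fun _ => t) ⟨contDiff_const, fun _ => ht⟩ (nz_circ hr)
  have h2 : (fun s => t / circ r s) = inv_circ t r := rfl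
  rw [h2, pr_self, pr_const hr, sub_zero] at h1
  exact h1

theorem pp_total : ∑ k, ∑ l, pp a b X Y k l = -(2 * π * Real.log ‖t‖) := by
  rw [← pr_circ_inv hr ht]
  simp only [pp_row hX hY hr ht]
  have h1 := pr_prod Finset.univ (nz_inv_circ hr ht)
    (H := fun k s => X s - (a k : ℂ)) (fun k => hX.nz (nz_circ hr).ne_zero k)
  rw [pr_swap, show circ r = fun s => ∏ k, (X s - (a k : ℂ)) from by
    funext s; rw [hX.prod], h1, ← Finset.sum_neg_distrib]
  exact Finset.sum_congr rfl fun k _ => pr_swap _ _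

theorem pp_col_ne (hb : Function.Injective b) {l : Fin n} (hl : l ≠ j) :
    ∑ k, pp a b X Y k l = -(2 * π * Real.log |(b j : ℝ) - b l|) := by
  rw [pp_col hX hY hr ht]
  have h1 := pr_circ_exp hr (hY.ldf hb hl) (sub_int_ne hb hl) (hY.mean l hl)
  rw [norm_sub_int] at h1
  rw [← h1]
  congr 1
  funext s
  exact hY.eq_exp hb hl s

theorem pp_row_ne (ha : Function.Injective a) {k : Fin m} (hk : k ≠ i) :
    ∑ l, pp a b X Y k l = -(2 * π * Real.log |(a i : ℝ) - a k|) := by
  rw [pp_row hX hY hr ht]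
  have h1 := pr_circ_exp hr (hX.ldf ha hk) (sub_int_ne ha hk) (hX.mean k hk)
  rw [norm_sub_int] at h1
  have hG := hX.nz (nz_circ hr).ne_zero k
  have h2 := pr_div hG (H := fun _ => t) ⟨contDiff_const, fun _ => ht⟩ (nz_circ hr)
  have h3 : (fun s => t / circ r s) = inv_circ t r := rfl
  rw [h3] at h2
  have h4 : pr (fun s => X s - a k) (fun _ => t) = 0 := by
    have e : (fun s => X s - (a k : ℂ)) = fun s => ((a i : ℂ) - a k) *
        Complex.exp (lf a i X k s) := by
      funext s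
      exact hX.eq_exp ha hk s
    rw [e]
    have hL := hX.ldf ha hk
    unfold pr
    simp only [hL.ld (sub_int_ne ha hk), deriv_const, zero_div, Complex.zero_im, mul_zero,
      zero_sub]
    rw [intervalIntegral.integral_neg, intervalIntegral.integral_const_mul,
      int_im hL.cont_deriv, hL.integral_deriv]
    simp
  rw [h2, h4, zero_sub, pr_swap, neg_neg, ← h1]
  congr 1
  funext s
  exact hX.eq_exp ha hk s

theorem pp_bound (ha : Function.Injective a) (hb : Function.Injective b) {σ σ' : ℝ}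
    (hσX : ∀ s, sg a i ‖X s - a i‖ ≤ σ) (hσY : ∀ s, sg b j ‖Y s - b j‖ ≤ σ') (hσ' : σ' < 1) :
    ∑ k ∈ Finset.univ.erase i, ∑ l ∈ Finset.univ.erase j, |pp a b X Y k l| ≤
      2 * π * (σ * (σ' / (1 - σ'))) := by
  have hcX : ∀ k ∈ Finset.univ.erase i, Continuous fun s => ‖lf a i X k s‖ := fun k hk =>
    (hX.ldf ha (Finset.ne_of_mem_erase hk)).smooth.continuous.norm
  have hcY : ∀ l ∈ Finset.univ.erase j, Continuous fun s => ‖deriv (lf b j Y l) s‖ := fun l hl =>
    (hY.ldf hb (Finset.ne_of_mem_erase hl)).cont_deriv.norm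
  have h1 : ∀ k ∈ Finset.univ.erase i, ∀ l ∈ Finset.univ.erase j, |pp a b X Y k l| ≤
      ∫ s in (0 : ℝ)..1, ‖lf a i X k s‖ * ‖deriv (lf b j Y l) s‖ := by
    intro k hk l hl
    have hk' := Finset.ne_of_mem_erase hk
    have hl' := Finset.ne_of_mem_erase hl
    have h2 := abs_pr_exp_le (hX.ldf ha hk') (hY.ldf hb hl') (sub_int_ne ha hk')
      (sub_int_ne hb hl')
    have e1 : (fun s => ((a i : ℂ) - a k) * Complex.exp (lf a i X k s)) =
        fun s => X s - (a k : ℂ) := by
      funext s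
      exact (hX.eq_exp ha hk' s).symm
    have e2 : (fun s => ((b j : ℂ) - b l) * Complex.exp (lf b j Y l s)) =
        fun s => Y s - (b l : ℂ) := by
      funext s
      exact (hY.eq_exp hb hl' s).symm
    rw [e1, e2] at h2
    exact h2
  have hcXs : Continuous fun s => ∑ k ∈ Finset.univ.erase i, ‖lf a i X k s‖ :=
    continuous_finsetSum _ hcX
  have hcYs : Continuous fun s => ∑ l ∈ Finset.univ.erase j, ‖deriv (lf b j Y l) s‖ :=
    continuous_finsetSum _ hcY
  calc ∑ k ∈ Finset.univ.erase i, ∑ l ∈ Finset.univ.erase j, |pp a b X Y k l|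
      ≤ ∑ k ∈ Finset.univ.erase i, ∑ l ∈ Finset.univ.erase j,
        ∫ s in (0 : ℝ)..1, ‖lf a i X k s‖ * ‖deriv (lf b j Y l) s‖ :=
        Finset.sum_le_sum fun k hk => Finset.sum_le_sum fun l hl => h1 k hk l hl
    _ = ∫ s in (0 : ℝ)..1, (∑ k ∈ Finset.univ.erase i, ‖lf a i X k s‖) *
        (∑ l ∈ Finset.univ.erase j, ‖deriv (lf b j Y l) s‖) := by
        simp only [Finset.sum_mul_sum]
        have c1 : ∀ k ∈ Finset.univ.erase i, ∀ l ∈ Finset.univ.erase j,
            Continuous fun s => ‖lf a i X k s‖ * ‖deriv (lf b j Y l) s‖ := fun k hk l hl =>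
          (hcX k hk).mul (hcY l hl)
        have c2 : ∀ k ∈ Finset.univ.erase i, Continuous fun s => ∑ l ∈ Finset.univ.erase j,
            ‖lf a i X k s‖ * ‖deriv (lf b j Y l) s‖ := fun k hk =>
          continuous_finsetSum _ (c1 k hk)
        rw [intervalIntegral.integral_finsetSum fun k hk => (c2 k hk).intervalIntegrable _ _]
        refine Finset.sum_congr rfl fun k hk => ?_
        rw [intervalIntegral.integral_finsetSum fun l hl => (c1 k hk l hl).intervalIntegrable _ _]
    _ ≤ ∫ _s in (0 : ℝ)..1, σ * (2 * π * (σ' / (1 - σ'))) := by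
        refine intervalIntegral.integral_mono_on zero_le_one
          ((hcXs.mul hcYs).intervalIntegrable _ _) (continuous_const.intervalIntegrable _ _)
          fun s _ => ?_
        have h3 := (hX.sum_norm_lf_le ha s).trans (hσX s)
        have h4 := hY.sum_norm_deriv_le hb norm_c (fun s => hasDerivAt_inv_circ hr s)
          (nz_inv_circ hr ht).ne_zero hσ' s (hσY s)
        have h5 : 0 ≤ ∑ k ∈ Finset.univ.erase i, ‖lf a i X k s‖ :=
          Finset.sum_nonneg fun k _ => norm_nonneg _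
        have h6 : 0 ≤ ∑ l ∈ Finset.univ.erase j, ‖deriv (lf b j Y l) s‖ :=
          Finset.sum_nonneg fun k _ => norm_nonneg _
        exact mul_le_mul h3 h4 h6 (h5.trans h3)
    _ = 2 * π * (σ * (σ' / (1 - σ'))) := by
        simp
        ring

end Run7.h220.PQ
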