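import Pool.Agent.Run7.h220.PQLoop
import Pool.Agent.Run7.h220.PQPair
import Pool.Agent.TH826.UH.Sep
set_option autoImplicit false

/-!
Existence of the loops: the branches of the inverse function of `∏ (X - e_k)`.
-/

namespace Run7.h220.PQ

open MeasureTheory Set Metric

open Pool.Agent.TH826.MK (circ norm_circ contDiff_circ hasDerivAt_circ circ_add_one circ_eq)

open Pool.Agent.TH826.UH (outer Sepd sepd_fam leadingCoeff_fam nz_circ)

open scoped Real

theorem int_circ_eq (g : ℂ → ℂ) : ∫ s in (0 : ℝ)..1, g (circ 1 s) = Real.circleAverage g 0 1 := by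
  have h1 : ∀ s, g (circ 1 s) = (fun θ => g (circleMap 0 1 θ)) (2 * π * s) := fun s => by
    rw [circ_eq]
  simp only [h1]
  rw [intervalIntegral.integral_comp_mul_left (fun θ => g (circleMap 0 1 θ))
    (by positivity : (2 * π) ≠ 0), mul_zero, mul_one]
  rfl

/-- the two parametrisations of the unit circle -/
structure Cir (E : ℝ → ℂ) : Prop where
  smooth : ContDiff ℝ 2 E
  per : ∀ s, E (s + 1) = E s
  norm : ∀ s, ‖E s‖ = 1
  mean : ∀ g : ℂ → ℂ, ∫ s in (0 : ℝ)..1, g (E s) = Real.circleAverage g 0 1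

theorem cir_circ : Cir (circ 1) where
  smooth := contDiff_circ 1
  per := circ_add_one 1
  norm s := by
    rw [norm_circ zero_le_one]
  mean := int_circ_eq

theorem cir_inv : Cir fun s => (circ 1 s)⁻¹ where
  smooth := (contDiff_circ 1).inv (nz_circ one_pos).ne_zero
  per s := by rw [circ_add_one]
  norm s := by rw [norm_inv, norm_circ zero_le_one, inv_one]
  mean g := by
    rw [int_circ_eq fun z => g z⁻¹]
    exact Real.circleAverage_zero_one_congr_inv

theorem Cir.mean_value {E : ℝ → ℂ} (hE : Cir E) {f : ℂ → ℂ} {ρ : ℝ}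
    (hf : DifferentiableOn ℂ f (ball 0 ρ)) {u : ℂ} (hu : ‖u‖ < ρ) :
    ∫ s in (0 : ℝ)..1, f (u * E s) = f 0 := by
  rw [hE.mean fun z => f (u * z)]
  have h1 : DiffContOnCl ℂ (fun z => f (u * z)) (ball 0 |1|) := by
    refine DifferentiableOn.diffContOnCl ?_
    rw [abs_one, closure_ball (0 : ℂ) one_ne_zero]
    refine hf.comp ((differentiable_id.const_mul u).differentiableOn) ?_
    intro z hz
    rw [mem_closedBall_zero_iff] at hz
    rw [mem_ball_zero_iff]
    show ‖u * z‖ < ρ
    rw [norm_mul]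
    exact (mul_le_of_le_one_right (norm_nonneg _) hz).trans_lt hu
  rw [h1.circleAverage, mul_zero]

/-- Existence of the loops. -/
theorem exists_loop {g : ℕ} {e : Fin (g + 1) → ℤ} (he : Function.Injective e) {B : ℝ}
    (hB : ∀ x ∈ outer (fun k => ((e k : ℤ) : ℂ)) (1 / 2), B ≤ ∏ k, ‖x - ((e k : ℤ) : ℂ)‖)
    {u : ℂ} (hu : ‖u‖ < B) {E : ℝ → ℂ} (hE : Cir E) (i : Fin (g + 1)) :
    ∃ X : ℝ → ℂ, Lp e i (fun s => u * E s) X := by
  obtain ⟨ρ, hρ1, hρ2⟩ := exists_between hu
  have hρ : 0 < ρ := (norm_nonneg u).trans_lt hρ1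
  set lam : ℂ := ((2 / ρ : ℝ) : ℂ) with hlam
  have hlamn : ‖lam‖ = 2 / ρ := by
    rw [hlam, Complex.norm_real, Real.norm_of_nonneg (by positivity)]
  have hlam0 : lam ≠ 0 := by
    rw [← norm_pos_iff, hlamn]
    positivity
  obtain ⟨F, hF⟩ : ∃ F : Polynomial ℂ, F = Polynomial.C 0 + Polynomial.C lam *
    ∏ k, (Polynomial.X - Polynomial.C ((e k : ℤ) : ℂ)) := ⟨_, rfl⟩
  obtain ⟨η, H⟩ := sepd_fam (b := fun k => ((e k : ℤ) : ℂ)) (t := 0) hlam0 hF (ρ := 1 / 2)
    (B := B) (by norm_num) (fun i j hij => by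
      have h1 := dist_ge he (i := i) (k := j) (Ne.symm hij)
      rw [← norm_sub_int] at h1
      linarith) (by rw [norm_zero]; norm_num) hB (by
      rw [norm_zero, add_zero, hlamn, div_mul_eq_mul_div, lt_div_iff₀ hρ]
      linarith)
  obtain ⟨x, han, hdisc, hprod, -⟩ := H.exists_branches
  have hη := H.eta
  -- the polynomial equation
  have hP : ∀ w ∈ ball (0 : ℂ) (2 + η), lam * ∏ k, (x i w - ((e k : ℤ) : ℂ)) = w := by
    intro w hw
    have h1 := congrArg (Polynomial.eval (x i w)) (hprod w hw)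
    have h2 : Polynomial.eval (x i w) (Polynomial.X - Polynomial.C (x i w)) = 0 := by
      rw [Polynomial.eval_sub, Polynomial.eval_X, Polynomial.eval_C, sub_self]
    rw [Polynomial.eval_sub, Polynomial.eval_C, Polynomial.eval_mul, Polynomial.eval_prod,
      Finset.prod_eq_zero (Finset.mem_univ i) h2, mul_zero,
      Pool.Agent.TH826.UH.eval_fam (b := fun k => ((e k : ℤ) : ℂ)) (t := 0) (lam := lam) hF,
      zero_add] at h1
    exact sub_eq_zero.1 h1
  have h00 : (0 : ℂ) ∈ ball (0 : ℂ) (2 + η) := mem_ball_self (by linarith)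
  have hx0 : x i 0 = e i := by
    have h1 := hP 0 h00
    obtain ⟨k, -, hk⟩ := Finset.prod_eq_zero_iff.1 ((mul_eq_zero.1 h1).resolve_left hlam0)
    rw [sub_eq_zero] at hk
    by_cases hki : k = i
    · rw [hki] at hk
      exact hk
    · exfalso
      have h2 := hdisc i 0 h00
      have h3 := dist_ge he hki
      rw [hk, norm_sub_rev, norm_sub_int] at h2
      linarith
  have hw : ∀ s, lam * (u * E s) ∈ ball (0 : ℂ) (2 + η) := by
    intro s
    rw [mem_ball_zero_iff, norm_mul, norm_mul, hE.norm, mul_one, hlamn, div_mul_eq_mul_div,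
      div_lt_iff₀ hρ]
    nlinarith [norm_nonneg u]
  have hUcd : ContDiff ℝ 2 fun s => lam * (u * E s) :=
    contDiff_const.mul (contDiff_const.mul hE.smooth)
  refine ⟨fun s => x i (lam * (u * E s)), ?_, ?_, ?_, ?_, ?_⟩
  · rw [contDiff_iff_contDiffAt]
    intro s
    exact ((han i _ (hw s)).contDiffAt.restrict_scalars ℝ).comp s hUcd.contDiffAt
  · intro s
    simp only [hE.per]
  · exact fun s => hdisc i _ (hw s)
  · intro s
    have h1 := hP _ (hw s)
    exact mul_left_cancel₀ hlam0 h1
  · intro k hk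
    have hd : DifferentiableOn ℂ (fun z => Complex.log (1 + (x i (lam * z) - e i) /
        ((e i : ℂ) - e k))) (ball 0 ρ) := by
      intro z hz
      rw [mem_ball_zero_iff] at hz
      have hz' : lam * z ∈ ball (0 : ℂ) (2 + η) := by
        rw [mem_ball_zero_iff, norm_mul, hlamn, div_mul_eq_mul_div, div_lt_iff₀ hρ]
        nlinarith [norm_nonneg z]
      have h1 : DifferentiableAt ℂ (fun z => 1 + (x i (lam * z) - e i) /
          ((e i : ℂ) - e k)) z := by
        have h2 : DifferentiableAt ℂ (fun z => x i (lam * z)) z :=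
          (han i _ hz').differentiableAt.comp z (differentiableAt_id.const_mul lam)
        exact ((h2.sub_const _).div_const _).const_add 1
      refine (h1.clog ?_).differentiableWithinAt
      refine Complex.mem_slitPlane_iff.2 (Or.inl ?_)
      have h3 : ‖(x i (lam * z) - e i) / ((e i : ℂ) - e k)‖ < 1 / 2 := by
        rw [norm_div, norm_sub_int, div_lt_iff₀ (one_pos.trans_le (dist_ge he hk))]
        have h4 := hdisc i _ hz'
        have h5 := dist_ge he hk
        linarith
      have h6 := Complex.abs_re_le_norm ((x i (lam * z) - e i) / ((e i : ℂ) - e k))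
      have h7 := (abs_le.1 h6).1
      rw [Complex.add_re, Complex.one_re]
      linarith
    have h2 := hE.mean_value hd hρ1
    rw [h2, mul_zero, hx0, sub_self, zero_div, add_zero, Complex.log_one]

end Run7.h220.PQ
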