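import Mathlib
set_option autoImplicit false

/-!
The maximum principle for the regulator matrices, and nonvanishing maximal minors.
-/

namespace Run7.h220.PQ

open scoped Real

section Bonus

variable {M : ℕ} {e : Fin M → ℤ}

theorem card_near (he : Function.Injective e) (i : Fin M) :
    (((Finset.univ.erase i).filter fun k => |e i - e k| = 1).card : ℝ) ≤ 2 := by
  have h1 : (((Finset.univ.erase i).filter fun k => |e i - e k| = 1).image e) ⊆
      {e i - 1, e i + 1} := by
    intro y hy
    obtain ⟨k, hk, rfl⟩ := Finset.mem_image.1 hy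
    have h2 := (Finset.mem_filter.1 hk).2
    rcases (abs_eq (by norm_num : (0 : ℤ) ≤ 1)).1 h2 with h3 | h3
    · simp only [Finset.mem_insert, Finset.mem_singleton]
      left
      omega
    · simp only [Finset.mem_insert, Finset.mem_singleton]
      right
      omega
  have h3 : ((Finset.univ.erase i).filter fun k => |e i - e k| = 1).card ≤ 2 := by
    rw [← Finset.card_image_of_injective _ he]
    exact (Finset.card_le_card h1).trans Finset.card_le_two
  exact_mod_cast h3

theorem log_ge {x y : ℤ} (h : x ≠ y) : 0 ≤ Real.log |(x : ℝ) - y| := by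
  refine Real.log_nonneg ?_
  have h1 : (1 : ℤ) ≤ |x - y| := Int.one_le_abs (sub_ne_zero.2 h)
  exact_mod_cast h1

theorem log_ge_two {x y : ℤ} (h : x ≠ y) (h1 : |x - y| ≠ 1) :
    Real.log 2 ≤ Real.log |(x : ℝ) - y| := by
  refine Real.log_le_log (by norm_num) ?_
  have h2 : (1 : ℤ) ≤ |x - y| := Int.one_le_abs (sub_ne_zero.2 h)
  have h3 : (2 : ℤ) ≤ |x - y| := by omega
  exact_mod_cast h3

variable {f : Fin M → ℝ} {i : Fin M}

theorem energy_nonneg (he : Function.Injective e) (hf : ∀ k, |f k| ≤ f i) :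
    0 ≤ ∑ k ∈ Finset.univ.erase i, (f i - f k) * Real.log |(e i : ℝ) - e k| := by
  refine Finset.sum_nonneg fun k hk => mul_nonneg ?_ ?_
  · have := (abs_le.1 (hf k)).2
    linarith
  · exact log_ge (he.ne (Finset.ne_of_mem_erase hk).symm)

theorem energy_ge (he : Function.Injective e) (hf : ∀ k, |f k| ≤ f i) (h0 : ∑ k, f k = 0) :
    f i * (((M : ℝ) - 4) * Real.log 2) ≤
      ∑ k ∈ Finset.univ.erase i, (f i - f k) * Real.log |(e i : ℝ) - e k| := by
  have hlog : 0 < Real.log 2 := Real.log_pos (by norm_num)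
  have hfi : 0 ≤ f i := (abs_nonneg _).trans (hf i)
  have h1 : ∀ k ∈ Finset.univ.erase i, (f i - f k) * Real.log 2 -
      (if |e i - e k| = 1 then 2 * f i * Real.log 2 else 0) ≤
      (f i - f k) * Real.log |(e i : ℝ) - e k| := by
    intro k hk
    have hne := he.ne (Finset.ne_of_mem_erase hk).symm
    have h2 := abs_le.1 (hf k)
    split_ifs with h
    · have h3 : 0 ≤ (f i - f k) * Real.log |(e i : ℝ) - e k| :=
        mul_nonneg (by linarith) (log_ge hne)
      have h4 : (f i - f k) * Real.log 2 ≤ 2 * f i * Real.log 2 :=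
        mul_le_mul_of_nonneg_right (by linarith) hlog.le
      linarith
    · rw [sub_zero]
      exact mul_le_mul_of_nonneg_left (log_ge_two hne h) (by linarith)
  refine le_trans ?_ (Finset.sum_le_sum h1)
  rw [Finset.sum_sub_distrib, ← Finset.sum_mul, Finset.sum_sub_distrib, Finset.sum_const,
    Finset.card_erase_of_mem (Finset.mem_univ i), Finset.card_univ, Fintype.card_fin,
    ← Finset.sum_filter, Finset.sum_const]
  have h5 : ∑ k ∈ Finset.univ.erase i, f k = -f i := by
    have := Finset.add_sum_erase Finset.univ f (Finset.mem_univ i)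
    rw [h0] at this
    linarith
  rw [h5, nsmul_eq_mul, nsmul_eq_mul]
  have hM : 1 ≤ M := i.pos
  have h6 := card_near he i
  have h7 : (((M - 1 : ℕ)) : ℝ) = M - 1 := by
    rw [Nat.cast_sub hM, Nat.cast_one]
  rw [h7]
  have h8 := mul_le_mul_of_nonneg_right h6 (by positivity : 0 ≤ 2 * f i * Real.log 2)
  nlinarith

end Bonus

section Max

variable {M N : ℕ} {a : Fin M → ℤ} {b : Fin N → ℤ}

theorem sum_split {M N : ℕ} (c p : Fin M → Fin N → ℝ) (i : Fin M) (j : Fin N) :
    ∑ k, ∑ l, c k l * p k l = c i j * (∑ k, ∑ l, p k l) +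
      ∑ l ∈ Finset.univ.erase j, (c i l - c i j) * (∑ k, p k l) +
      ∑ k ∈ Finset.univ.erase i, (c k j - c i j) * (∑ l, p k l) +
      ∑ k ∈ Finset.univ.erase i, ∑ l ∈ Finset.univ.erase j,
        (c k l - c i l - c k j + c i j) * p k l := by
  have e1 : ∀ g : Fin M → ℝ, ∑ k, g k = g i + ∑ k ∈ Finset.univ.erase i, g k := fun g =>
    (Finset.add_sum_erase _ _ (Finset.mem_univ i)).symm
  have e2 : ∀ g : Fin N → ℝ, ∑ k, g k = g j + ∑ k ∈ Finset.univ.erase j, g k := fun g =>
    (Finset.add_sum_erase _ _ (Finset.mem_univ j)).symm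
  simp only [e1, e2, mul_add, Finset.mul_sum, Finset.sum_add_distrib, sub_mul, add_mul,
    Finset.sum_sub_distrib]
  rw [Finset.sum_comm (s := Finset.univ.erase j) (t := Finset.univ.erase i)
      (f := fun l k => c i l * p k l),
    Finset.sum_comm (s := Finset.univ.erase j) (t := Finset.univ.erase i)
      (f := fun l k => c i j * p k l)]
  ring

/-- The maximum principle. -/
theorem max_principle (ha : Function.Injective a) (hb : Function.Injective b)
    (p : Fin M → Fin N → Fin M → Fin N → ℝ) {Λ E : ℝ}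
    (htot : ∀ i j, ∑ k, ∑ l, p i j k l = 2 * π * Λ)
    (hcol : ∀ i j l, l ≠ j → ∑ k, p i j k l = -(2 * π * Real.log |(b j : ℝ) - b l|))
    (hrow : ∀ i j k, k ≠ i → ∑ l, p i j k l = -(2 * π * Real.log |(a i : ℝ) - a k|))
    (hbd : ∀ i j, ∑ k ∈ Finset.univ.erase i, ∑ l ∈ Finset.univ.erase j, |p i j k l| ≤
      2 * π * E)
    (hE : 4 * E < Λ + max 0 (((M : ℝ) - 4) * Real.log 2) + max 0 (((N : ℝ) - 4) * Real.log 2))
    (c : Fin M → Fin N → ℝ) (hc1 : ∀ k, ∑ l, c k l = 0) (hc2 : ∀ l, ∑ k, c k l = 0)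
    (hc : ∀ i j, ∑ k, ∑ l, c k l * p i j k l = 0) : ∀ i j, c i j = 0 := by
  by_contra hne
  push Not at hne
  obtain ⟨i0, j0, h0⟩ := hne
  have : Nonempty (Fin M × Fin N) := ⟨(i0, j0)⟩
  obtain ⟨⟨i, j⟩, hmax⟩ := Finite.exists_max fun q : Fin M × Fin N => |c q.1 q.2|
  have hC0 : 0 < |c i j| := (abs_pos.2 h0).trans_le (hmax (i0, j0))
  -- we may suppose that the maximal entry is positive
  obtain ⟨c', hc'1, hc'2, hc', hpos, hmax'⟩ : ∃ c' : Fin M → Fin N → ℝ,
      (∀ k, ∑ l, c' k l = 0) ∧ (∀ l, ∑ k, c' k l = 0) ∧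
      (∑ k, ∑ l, c' k l * p i j k l = 0) ∧ 0 < c' i j ∧ ∀ k l, |c' k l| ≤ c' i j := by
    rcases lt_or_ge 0 (c i j) with h | h
    · exact ⟨c, hc1, hc2, hc i j, h, fun k l => by
        have := hmax (k, l)
        simp only [abs_of_pos h] at this
        exact this⟩
    · have h' : c i j < 0 := by
        rcases (show c i j ≤ 0 from h).lt_or_eq with h1 | h1
        · exact h1
        · have h2 : |c i j| = 0 := by rw [h1, abs_zero]
          linarith
      refine ⟨fun k l => -c k l, fun k => ?_, fun l => ?_, ?_, by linarith, fun k l => ?_⟩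
      · rw [Finset.sum_neg_distrib, hc1, neg_zero]
      · rw [Finset.sum_neg_distrib, hc2, neg_zero]
      · simp only [neg_mul, Finset.sum_neg_distrib, hc i j, neg_zero]
      · have := hmax (k, l)
        simp only [abs_of_neg h'] at this
        rwa [abs_neg]
  set C := c' i j with hC
  have h1 := sum_split c' (p i j) i j
  rw [hc', htot] at h1
  have h2 : ∑ l ∈ Finset.univ.erase j, (c' i l - c' i j) * (∑ k, p i j k l) =
      2 * π * ∑ l ∈ Finset.univ.erase j, (c' i j - c' i l) * Real.log |(b j : ℝ) - b l| := by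
    rw [Finset.mul_sum]
    refine Finset.sum_congr rfl fun l hl => ?_
    rw [hcol i j l (Finset.ne_of_mem_erase hl)]
    ring
  have h3 : ∑ k ∈ Finset.univ.erase i, (c' k j - c' i j) * (∑ l, p i j k l) =
      2 * π * ∑ k ∈ Finset.univ.erase i, (c' i j - c' k j) * Real.log |(a i : ℝ) - a k| := by
    rw [Finset.mul_sum]
    refine Finset.sum_congr rfl fun k hk => ?_
    rw [hrow i j k (Finset.ne_of_mem_erase hk)]
    ring
  rw [h2, h3, ← hC] at h1
  have hπ : 0 < 2 * π := by positivity
  -- the last sum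
  have h4 : |∑ k ∈ Finset.univ.erase i, ∑ l ∈ Finset.univ.erase j,
        (c' k l - c' i l - c' k j + C) * p i j k l| ≤ 4 * C * (2 * π * E) := by
    calc |∑ k ∈ Finset.univ.erase i, ∑ l ∈ Finset.univ.erase j,
        (c' k l - c' i l - c' k j + C) * p i j k l| ≤
        ∑ k ∈ Finset.univ.erase i, ∑ l ∈ Finset.univ.erase j, 4 * C * |p i j k l| := by
          refine (Finset.abs_sum_le_sum_abs _ _).trans (Finset.sum_le_sum fun k _ => ?_)
          refine (Finset.abs_sum_le_sum_abs _ _).trans (Finset.sum_le_sum fun l _ => ?_)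
          rw [abs_mul]
          refine mul_le_mul_of_nonneg_right ?_ (abs_nonneg _)
          have e1 := abs_le.1 (hmax' k l)
          have e2 := abs_le.1 (hmax' i l)
          have e3 := abs_le.1 (hmax' k j)
          rw [abs_le]
          constructor
          · linarith [e1.1, e2.2, e3.2]
          · linarith [e1.2, e2.1, e3.1]
      _ = 4 * C * ∑ k ∈ Finset.univ.erase i, ∑ l ∈ Finset.univ.erase j, |p i j k l| := by
          simp only [Finset.mul_sum]
      _ ≤ 4 * C * (2 * π * E) := mul_le_mul_of_nonneg_left (hbd i j) (by positivity)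
  have h5 := (abs_le.1 h4).1
  set S1 := ∑ l ∈ Finset.univ.erase j, (C - c' i l) * Real.log |(b j : ℝ) - b l| with hS1
  set S2 := ∑ k ∈ Finset.univ.erase i, (C - c' k j) * Real.log |(a i : ℝ) - a k| with hS2
  have g1 : 0 ≤ S1 := energy_nonneg (f := fun l => c' i l) hb (fun l => hmax' i l)
  have g2 : 0 ≤ S2 := energy_nonneg (f := fun k => c' k j) ha (fun k => hmax' k j)
  have g3 : C * (((N : ℝ) - 4) * Real.log 2) ≤ S1 :=
    energy_ge (f := fun l => c' i l) hb (fun l => hmax' i l) (hc'1 i)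
  have g4 : C * (((M : ℝ) - 4) * Real.log 2) ≤ S2 :=
    energy_ge (f := fun k => c' k j) ha (fun k => hmax' k j) (hc'2 j)
  have g5 : C * max 0 (((N : ℝ) - 4) * Real.log 2) ≤ S1 := by
    rw [mul_max_of_nonneg _ _ hpos.le, mul_zero]
    exact max_le g1 g3
  have g6 : C * max 0 (((M : ℝ) - 4) * Real.log 2) ≤ S2 := by
    rw [mul_max_of_nonneg _ _ hpos.le, mul_zero]
    exact max_le g2 g4
  have h6 : 0 < C * Λ + S1 + S2 - 4 * C * E := by
    have := mul_lt_mul_of_pos_left hE hpos
    linarith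
  have h7 := mul_pos hπ h6
  linarith

end Max

section Rows

/-- An injective matrix has a nonvanishing maximal minor. -/
theorem exists_rows {α β : Type*} [Fintype β] [DecidableEq β] (A : α → β → ℝ)
    (h : ∀ v : β → ℝ, (∀ i, ∑ j, A i j * v j = 0) → v = 0) :
    ∃ q : β → α, (Matrix.of fun i j => A (q i) j).det ≠ 0 := by
  have hspan : Submodule.span ℝ (Set.range A) = ⊤ := by
    by_contra hne
    obtain ⟨f, hf0, hf⟩ := Submodule.exists_le_ker_of_lt_top _ (lt_top_iff_ne_top.2 hne)
    have h1 : (fun j => f (Pi.single j 1)) = 0 := by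
      refine h _ fun i => ?_
      have h2 : f (A i) = 0 := hf (Submodule.subset_span ⟨i, rfl⟩)
      have h3 : A i = ∑ j, A i j • (Pi.single j (1 : ℝ) : β → ℝ) := by
        funext x
        simp [Finset.sum_apply, Pi.single_apply]
      rw [h3, map_sum] at h2
      rw [← h2]
      refine Finset.sum_congr rfl fun j _ => ?_
      rw [map_smul, smul_eq_mul]
    refine hf0 ?_
    refine LinearMap.pi_ext' fun j => ?_
    ext
    have := congrFun h1 j
    simpa using this
  obtain ⟨s, hs, hspan', hli⟩ := exists_linearIndependent ℝ (Set.range A)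
  rw [hspan] at hspan'
  let B : Module.Basis s ℝ (β → ℝ) := Module.Basis.mk hli (by
    rw [Subtype.range_coe, hspan'])
  have e : β ≃ s := (Pi.basisFun ℝ β).indexEquiv B
  have hq : ∀ j : β, ∃ i : α, A i = (e j : β → ℝ) := fun j => hs (e j).2
  choose q hq using hq
  refine ⟨q, ?_⟩
  have hli' : LinearIndependent ℝ fun j => A (q j) := by
    have h1 : (fun j => A (q j)) = (fun x : s => (x : β → ℝ)) ∘ e := by
      funext j
      exact hq j
    rw [h1]
    exact hli.comp e e.injective
  have h2 : IsUnit (Matrix.of fun i j => A (q i) j) :=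
    Matrix.linearIndependent_rows_iff_isUnit.1 hli'
  exact ((Matrix.isUnit_iff_isUnit_det _).1 h2).ne_zero

/-- The extension of a matrix to a matrix with vanishing row and column sums. -/
theorem sum_ext {m n : ℕ} (v : Fin m × Fin n → ℝ) : ∃ c : Fin (m + 1) → Fin (n + 1) → ℝ,
    (∀ k, ∑ l, c k l = 0) ∧ (∀ l, ∑ k, c k l = 0) ∧ (∀ q, v q = c q.1.succ q.2.succ) ∧
    ∀ p : Fin (m + 1) → Fin (n + 1) → ℝ, ∑ k, ∑ l, c k l * p k l =
      ∑ q : Fin m × Fin n, (p q.1.succ q.2.succ - p q.1.succ 0 - p 0 q.2.succ + p 0 0) * v q := by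
  refine ⟨Fin.cons (Fin.cons (∑ k, ∑ l, v (k, l)) fun l => -∑ k, v (k, l))
    fun k => Fin.cons (-∑ l, v (k, l)) fun l => v (k, l), ?_, ?_, ?_, ?_⟩
  · intro k
    refine Fin.cases ?_ (fun k => ?_) k
    · rw [Fin.sum_univ_succ]
      simp only [Fin.cons_zero, Fin.cons_succ, Finset.sum_neg_distrib]
      rw [Finset.sum_comm, add_neg_cancel]
    · rw [Fin.sum_univ_succ]
      simp only [Fin.cons_zero, Fin.cons_succ, neg_add_cancel]
  · intro l
    refine Fin.cases ?_ (fun l => ?_) l
    · rw [Fin.sum_univ_succ]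
      simp only [Fin.cons_zero, Fin.cons_succ, Finset.sum_neg_distrib]
      rw [add_neg_cancel]
    · rw [Fin.sum_univ_succ]
      simp only [Fin.cons_zero, Fin.cons_succ, neg_add_cancel]
  · intro q
    simp only [Fin.cons_succ]
  · intro p
    rw [Fin.sum_univ_succ]
    simp only [Fin.sum_univ_succ (n := n), Fin.cons_zero, Fin.cons_succ]
    rw [Fintype.sum_prod_type]
    simp only [sub_mul, add_mul, Finset.sum_add_distrib, Finset.sum_sub_distrib, Finset.sum_mul,
      neg_mul, Finset.sum_neg_distrib]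
    rw [Finset.sum_comm (f := fun (l : Fin n) (k : Fin m) => v (k, l) * p 0 l.succ)]
    have e1 : ∀ (x : Fin m) (y : Fin n) (z : ℝ), z * v (x, y) = v (x, y) * z := fun x y z =>
      mul_comm _ _
    simp only [e1]
    ring

end Rows

end Run7.h220.PQ
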