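import Pool.Agent.Run7.h220.PQLoop
import Pool.Agent.Run7.h220.PQMax
import Pool.Agent.TH826.UH.Sep
set_option autoImplicit false

/-!
Estimates for products of linear factors with different integral roots.
-/

namespace Run7.h220.PQ

open Pool.Agent.TH826.UH (outer)

section Numbers

theorem num_two {z S r : ℝ} (hz : 0 ≤ z) (hz2 : z < 1 / 2) (hS : 0 ≤ S) (hr : r ≤ 1 / 5)
    (h : z * (1 - z ^ 2) * (1 + 3 / 4 * S) ≤ r) :
    2 * (z / (1 - z)) + z * S ≤ 14 / 25 := by
  have h1 : z * (1 - z ^ 2) ≤ 1 / 5 := by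
    have h2 : z * (1 - z ^ 2) ≤ z * (1 - z ^ 2) * (1 + 3 / 4 * S) := by
      have h3 : 0 ≤ z * (1 - z ^ 2) := mul_nonneg hz (by nlinarith)
      nlinarith
    linarith
  have h21 : z ≤ 21 / 100 := by
    by_contra hc
    push Not at hc
    nlinarith [mul_pos (sub_pos.2 hc) (sub_pos.2 hz2), mul_nonneg hz (sub_nonneg.2 hz2.le)]
  have h1z : 0 < 1 - z := by linarith
  have e : 2 * (z / (1 - z)) + z * S = (2 * z + z * S * (1 - z)) / (1 - z) := by
    field_simp
  rw [e, div_le_iff₀ h1z]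
  set w := z * S with hw
  have hw0 : 0 ≤ w := mul_nonneg hz hS
  have h5 : (1 - z ^ 2) * (z + 3 / 4 * w) ≤ 1 / 5 := by
    have : z * (1 - z ^ 2) * (1 + 3 / 4 * S) = (1 - z ^ 2) * (z + 3 / 4 * w) := by
      rw [hw]; ring
    linarith
  have h6 : 0 < 1 + z := by linarith
  have h7 : (2 * z + w * (1 - z)) * (1 + z) ≤ 14 / 25 * (1 - z) * (1 + z) := by
    have h8 : w * (1 - z) * (1 + z) ≤ 4 / 3 * (1 / 5 - z * (1 - z ^ 2)) := by nlinarith
    nlinarith [mul_nonneg hz (sub_nonneg.2 h21), mul_nonneg (mul_nonneg hz hz)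
      (sub_nonneg.2 h21)]
  exact le_of_mul_le_mul_right h7 h6

theorem num_one {z S r : ℝ} (hz : 0 ≤ z) (hz2 : z < 1 / 2) (hS : 0 ≤ S) (hr : r ≤ 1 / 5)
    (h : z * (1 - z) * (1 + 3 / 4 * S) ≤ r) :
    z / (1 - z) + z * S ≤ 14 / 25 := by
  have h1z : 0 < 1 - z := by linarith
  have h1 : z * (1 - z) ≤ 1 / 5 := by
    have h3 : 0 ≤ z * (1 - z) := mul_nonneg hz h1z.le
    nlinarith
  have h21 : z ≤ 28 / 100 := by
    by_contra hc
    push Not at hc
    nlinarith
  have e : z / (1 - z) + z * S = (z + z * S * (1 - z)) / (1 - z) := by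
    field_simp
  rw [e, div_le_iff₀ h1z]
  set w := z * S with hw
  have hw0 : 0 ≤ w := mul_nonneg hz hS
  have h5 : (1 - z) * (z + 3 / 4 * w) ≤ 1 / 5 := by
    have : z * (1 - z) * (1 + 3 / 4 * S) = (1 - z) * (z + 3 / 4 * w) := by
      rw [hw]; ring
    linarith
  nlinarith

theorem num_zero {z S r : ℝ} (hz : 0 ≤ z) (hr : r ≤ 1 / 5)
    (h : z * (1 + 3 / 4 * S) ≤ r) : z * S ≤ 14 / 25 := by
  nlinarith

theorem num_big {z S : ℝ} (hz : 0 ≤ z) (hz2 : z < 1 / 2)
    (h0 : z * (1 - z) ^ 2 * (225 / 16) ≤ 1) (h : z * (1 - z) ^ 2 * (1 + 15 / 4 * S) ≤ 1) :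
    2 * (z / (1 - z)) + z * (4 / 3 + S) ≤ 31 / 50 := by
  have h1z : 0 < 1 - z := by linarith
  have h9 : z ≤ 9 / 100 := by
    by_contra hc
    push Not at hc
    nlinarith [mul_nonneg hz (sq_nonneg (z - 1 / 5)), mul_pos (sub_pos.2 hc) (sub_pos.2 hz2)]
  have e : 2 * (z / (1 - z)) + z * (4 / 3 + S) =
      (2 * z * (1 - z) + 4 / 3 * z * (1 - z) ^ 2 + z * S * (1 - z) ^ 2) / (1 - z) ^ 2 := by
    field_simp
    ring
  rw [e, div_le_iff₀ (by positivity)]
  have h1 : z * S * (1 - z) ^ 2 ≤ 4 / 15 * (1 - z * (1 - z) ^ 2) := by nlinarith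
  nlinarith [mul_nonneg hz (sub_nonneg.2 h9), mul_nonneg (mul_nonneg hz hz) (sub_nonneg.2 h9)]

theorem num_huge {z S G : ℝ} (hz : 0 ≤ z) (hz2 : z < 1 / 2)
    (h0 : z * (1 - z) ^ 2 * (5625 / 64) ≤ 5) (h : z * (1 - z) ^ 2 * G ≤ 5)
    (hSG : S ≤ 281 / 5000 * G) :
    2 * (z / (1 - z)) + z * S ≤ 1 / 2 := by
  have h1z : 0 < 1 - z := by linarith
  have h9 : z ≤ 66 / 1000 := by
    by_contra hc
    push Not at hc
    nlinarith [mul_nonneg hz (sq_nonneg (z - 1 / 5)), mul_pos (sub_pos.2 hc) (sub_pos.2 hz2)]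
  have e : 2 * (z / (1 - z)) + z * S =
      (2 * z * (1 - z) + z * S * (1 - z) ^ 2) / (1 - z) ^ 2 := by
    field_simp
  rw [e, div_le_iff₀ (by positivity)]
  have hzz : 0 ≤ z * (1 - z) ^ 2 := by positivity
  have h1 : z * S * (1 - z) ^ 2 ≤ 281 / 1000 := by
    have h2 := mul_le_mul_of_nonneg_left hSG hzz
    nlinarith
  nlinarith [mul_nonneg hz (sub_nonneg.2 h9)]

theorem pow_ge_card {c : ℕ} (hc : 4 ≤ c) : (c : ℝ) * (2 / 5) ≤ 128 / 3125 * (5 / 2) ^ c := by
  induction c, hc using Nat.le_induction with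
  | base => norm_num
  | succ c hc ih =>
    have h1 : (4 : ℝ) ≤ c := by exact_mod_cast hc
    rw [pow_succ]
    push_cast
    nlinarith

/-- A lower bound for a product of large factors. -/
theorem prod_ge {ι : Type*} [DecidableEq ι] (T : Finset ι) {u : ι → ℝ} {u0 : ℝ} (hu0 : 1 ≤ u0)
    (hu : ∀ k ∈ T, u0 ≤ u k) :
    1 + (u0 ^ 2 - u0) * ∑ k ∈ T, 1 / u k ≤ ∏ k ∈ T, u k := by
  induction T using Finset.induction_on with
  | empty => simp
  | insert k T hk ih =>
    rw [Finset.sum_insert hk, Finset.prod_insert hk]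
    have ih' := ih fun k hk => hu k (Finset.mem_insert_of_mem hk)
    have h1 := hu k (Finset.mem_insert_self _ _)
    have h1' : 1 ≤ u k := hu0.trans h1
    have hc : 0 ≤ u0 ^ 2 - u0 := by nlinarith
    set S := ∑ k ∈ T, 1 / u k with hS
    have hS0 : 0 ≤ S := Finset.sum_nonneg fun j hj => by
      have := hu0.trans (hu j (Finset.mem_insert_of_mem hj))
      positivity
    have h2 : 1 + (u0 ^ 2 - u0) * (1 / u k) ≤ u k := by
      have h3 : (1 + (u0 ^ 2 - u0) * (1 / u k)) = (u k + (u0 ^ 2 - u0)) / u k := by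
        field_simp
      rw [h3, div_le_iff₀ (by linarith)]
      nlinarith
    have h4 : u k * (1 + (u0 ^ 2 - u0) * S) ≤ u k * ∏ k ∈ T, u k :=
      mul_le_mul_of_nonneg_left ih' (by linarith)
    have h5 : 0 ≤ (u0 ^ 2 - u0) * S := mul_nonneg hc hS0
    nlinarith

end Numbers

variable {n : ℕ} {e : Fin n → ℤ} {i : Fin n} {U X : ℝ → ℂ}

/-- the neighbours of a root -/
def near (e : Fin n → ℤ) (i : Fin n) : Finset (Fin n) :=
  (Finset.univ.erase i).filter fun k => |e i - e k| = 1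

/-- the other roots -/
def far (e : Fin n → ℤ) (i : Fin n) : Finset (Fin n) :=
  (Finset.univ.erase i).filter fun k => ¬ |e i - e k| = 1

theorem far_dist (he : Function.Injective e) {k : Fin n} (hk : k ∈ far e i) :
    (2 : ℝ) ≤ |(e i : ℝ) - e k| := by
  obtain ⟨h1, h2⟩ := Finset.mem_filter.1 hk
  have h3 : (1 : ℤ) ≤ |e i - e k| :=
    Int.one_le_abs (sub_ne_zero.2 (he.ne (Finset.ne_of_mem_erase h1).symm))
  have h4 : (2 : ℤ) ≤ |e i - e k| := by omega
  exact_mod_cast h4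

theorem near_dist {k : Fin n} (hk : k ∈ near e i) : |(e i : ℝ) - e k| = 1 := by
  obtain ⟨-, h2⟩ := Finset.mem_filter.1 hk
  exact_mod_cast h2

theorem card_near_le (he : Function.Injective e) (i : Fin n) : (near e i).card ≤ 2 := by
  have h := card_near he i
  exact_mod_cast h

theorem norm_ge (x : ℂ) (k : Fin n) :
    |(e i : ℝ) - e k| - ‖x - e i‖ ≤ ‖x - e k‖ := by
  rw [← norm_sub_int]
  have : (e i : ℂ) - e k = (x - e k) - (x - e i) := by ring
  rw [this, sub_le_iff_le_add]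
  exact norm_sub_le _ _

/-- The sum over the far roots. -/
theorem sg_le (he : Function.Injective e) {z : ℝ} (hz : 0 ≤ z) (hz2 : z < 1 / 2) :
    sg e i z ≤ (near e i).card * (z / (1 - z)) +
      z * ∑ k ∈ far e i, 1 / (|(e i : ℝ) - e k| - 1 / 2) := by
  unfold sg
  rw [← Finset.sum_filter_add_sum_filter_not (Finset.univ.erase i) fun k => |e i - e k| = 1]
  refine add_le_add ?_ ?_
  · have h1 : ∀ k ∈ near e i, z / (|(e i : ℝ) - e k| - z) = z / (1 - z) := by
      intro k hk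
      rw [near_dist hk]
    have h2 := Finset.sum_congr (rfl : near e i = near e i) h1
    unfold near at h2 ⊢
    rw [h2, Finset.sum_const, nsmul_eq_mul]
  · rw [Finset.mul_sum]
    refine Finset.sum_le_sum fun k hk => ?_
    have h1 := far_dist he (show k ∈ far e i from hk)
    rw [mul_one_div]
    exact div_le_div_of_nonneg_left hz (by linarith) (by linarith)

/-- The product over the far roots. -/
theorem far_prod_ge (he : Function.Injective e) {x : ℂ} (hx : ‖x - e i‖ < 1 / 2) :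
    ∏ k ∈ far e i, (|(e i : ℝ) - e k| - 1 / 2) ≤ ∏ k ∈ far e i, ‖x - e k‖ := by
  refine Finset.prod_le_prod (fun k hk => ?_) fun k hk => ?_
  · have := far_dist he hk
    linarith
  · have := norm_ge (e := e) (i := i) x k
    linarith

theorem near_prod_one {x : ℂ} (hx : ‖x - e i‖ < 1 / 2) :
    (1 - ‖x - e i‖) ^ (near e i).card ≤ ∏ k ∈ near e i, ‖x - e k‖ := by
  rw [← Finset.prod_const]
  refine Finset.prod_le_prod (fun k hk => by linarith) fun k hk => ?_
  have h1 := norm_ge (e := e) (i := i) x k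
  rw [near_dist hk] at h1
  exact h1

theorem near_prod_two (he : Function.Injective e) (hc : (near e i).card = 2) {x : ℂ} :
    1 - ‖x - e i‖ ^ 2 ≤ ∏ k ∈ near e i, ‖x - e k‖ := by
  obtain ⟨k, k', hkk, hs⟩ := Finset.card_eq_two.1 hc
  have hk : k ∈ near e i := by rw [hs]; simp
  have hk' : k' ∈ near e i := by rw [hs]; simp
  have h1 : |e i - e k| = 1 := (Finset.mem_filter.1 hk).2
  have h2 : |e i - e k'| = 1 := (Finset.mem_filter.1 hk').2
  have h3 : e k ≠ e k' := he.ne hkk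
  have h4 : (x - e k) * (x - e k') = (x - e i) ^ 2 - 1 := by
    rcases (abs_eq (by norm_num : (0 : ℤ) ≤ 1)).1 h1 with h | h <;>
    rcases (abs_eq (by norm_num : (0 : ℤ) ≤ 1)).1 h2 with h' | h'
    · exact absurd (by omega) h3
    · have g1 : e k = e i - 1 := by omega
      have g2 : e k' = e i + 1 := by omega
      rw [g1, g2]
      push_cast
      ring
    · have g1 : e k = e i + 1 := by omega
      have g2 : e k' = e i - 1 := by omega
      rw [g1, g2]
      push_cast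
      ring
    · exact absurd (by omega) h3
  rw [hs, Finset.prod_pair hkk, ← norm_mul, h4, ← norm_pow]
  have := norm_sub_norm_le (1 : ℂ) ((x - e i) ^ 2)
  rw [norm_one, norm_sub_rev] at this
  exact this

theorem prod_split (x : ℂ) : ∏ k, ‖x - e k‖ =
    ‖x - e i‖ * (∏ k ∈ near e i, ‖x - e k‖) * ∏ k ∈ far e i, ‖x - e k‖ := by
  rw [← Finset.mul_prod_erase _ _ (Finset.mem_univ i), mul_assoc]
  congr 1
  exact (Finset.prod_filter_mul_prod_filter_not (Finset.univ.erase i)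
    (fun k => |e i - e k| = 1) _).symm

/-- The first estimate: small values of the product. -/
theorem sg_small (he : Function.Injective e) {x : ℂ} (hx : ‖x - e i‖ < 1 / 2)
    (h : ‖∏ k, (x - e k)‖ ≤ 1 / 5) : sg e i ‖x - e i‖ ≤ 14 / 25 := by
  rw [norm_prod, prod_split (i := i)] at h
  have hz0 : 0 ≤ ‖x - e i‖ := norm_nonneg _
  refine (sg_le he hz0 hx).trans ?_
  set z := ‖x - e i‖ with hz
  set S := ∑ k ∈ far e i, 1 / (|(e i : ℝ) - e k| - 1 / 2) with hS
  have hS0 : 0 ≤ S := Finset.sum_nonneg fun k hk => by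
    have := far_dist he hk
    exact div_nonneg zero_le_one (by linarith)
  have hF : 1 + 3 / 4 * S ≤ ∏ k ∈ far e i, ‖x - e k‖ := by
    refine le_trans ?_ (far_prod_ge he hx)
    have h1 := prod_ge (far e i) (u := fun k => |(e i : ℝ) - e k| - 1 / 2) (u0 := 3 / 2)
      (by norm_num) (fun k hk => by
        have := far_dist he hk
        linarith)
    have h2 : ((3 / 2 : ℝ) ^ 2 - 3 / 2) = 3 / 4 := by norm_num
    rw [h2] at h1
    exact h1
  have hF0 : 0 ≤ 1 + 3 / 4 * S := by linarith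
  have hcard := card_near_le he i
  have hn : 0 ≤ ∏ k ∈ near e i, ‖x - e k‖ := Finset.prod_nonneg fun _ _ => norm_nonneg _
  obtain hc | hc | hc : (near e i).card = 0 ∨ (near e i).card = 1 ∨ (near e i).card = 2 := by
    omega
  · rw [hc, Nat.cast_zero, zero_mul, zero_add]
    have h1 := near_prod_one (e := e) (i := i) hx
    rw [hc, pow_zero] at h1
    refine num_zero hz0 le_rfl (le_trans ?_ h)
    rw [mul_assoc]
    refine mul_le_mul_of_nonneg_left ?_ hz0
    calc (1 + 3 / 4 * S) = 1 * (1 + 3 / 4 * S) := by ring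
      _ ≤ _ := mul_le_mul h1 hF hF0 hn
  · rw [hc, Nat.cast_one, one_mul]
    have h1 := near_prod_one (e := e) (i := i) hx
    rw [hc, pow_one] at h1
    refine num_one hz0 hx hS0 le_rfl (le_trans ?_ h)
    exact mul_le_mul (mul_le_mul_of_nonneg_left h1 hz0) hF hF0 (mul_nonneg hz0 hn)
  · rw [hc, Nat.cast_two]
    have h1 := near_prod_two he hc (x := x)
    refine num_two hz0 hx hS0 le_rfl (le_trans ?_ h)
    exact mul_le_mul (mul_le_mul_of_nonneg_left h1 hz0) hF hF0 (mul_nonneg hz0 hn)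

theorem card_two (he : Function.Injective e) (i : Fin n) :
    ((far e i).filter fun k => |e i - e k| = 2).card ≤ 2 := by
  have h1 : (((far e i).filter fun k => |e i - e k| = 2).image e) ⊆ {e i - 2, e i + 2} := by
    intro y hy
    obtain ⟨k, hk, rfl⟩ := Finset.mem_image.1 hy
    have h2 := (Finset.mem_filter.1 hk).2
    rcases (abs_eq (by norm_num : (0 : ℤ) ≤ 2)).1 h2 with h3 | h3
    · simp only [Finset.mem_insert, Finset.mem_singleton]
      left
      omega
    · simp only [Finset.mem_insert, Finset.mem_singleton]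
      right
      omega
  rw [← Finset.card_image_of_injective _ he]
  exact (Finset.card_le_card h1).trans Finset.card_le_two

/-- The second estimate: at least seven roots. -/
theorem sg_big (he : Function.Injective e) (hn : 7 ≤ n) {x : ℂ} (hx : ‖x - e i‖ < 1 / 2)
    (h : ‖∏ k, (x - e k)‖ ≤ 1) : sg e i ‖x - e i‖ ≤ 31 / 50 := by
  rw [norm_prod, prod_split (i := i)] at h
  have hz0 : 0 ≤ ‖x - e i‖ := norm_nonneg _
  refine (sg_le he hz0 hx).trans ?_
  set z := ‖x - e i‖ with hz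
  have h1z : 0 < 1 - z := by linarith
  set K2 := (far e i).filter fun k => |e i - e k| = 2 with hK2
  set K3 := (far e i).filter fun k => ¬ |e i - e k| = 2 with hK3
  have hd3 : ∀ k ∈ K3, (5 / 2 : ℝ) ≤ |(e i : ℝ) - e k| - 1 / 2 := by
    intro k hk
    obtain ⟨h1, h2⟩ := Finset.mem_filter.1 hk
    have h3 := far_dist he h1
    have h4 : (2 : ℤ) ≤ |e i - e k| := by exact_mod_cast h3
    have h5 : (3 : ℤ) ≤ |e i - e k| := by omega
    have h6 : (3 : ℝ) ≤ |(e i : ℝ) - e k| := by exact_mod_cast h5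
    linarith
  have hd2 : ∀ k ∈ K2, |(e i : ℝ) - e k| - 1 / 2 = 3 / 2 := by
    intro k hk
    obtain ⟨-, h2⟩ := Finset.mem_filter.1 hk
    have h3 : |(e i : ℝ) - e k| = 2 := by exact_mod_cast h2
    rw [h3]
    norm_num
  set S := ∑ k ∈ K3, 1 / (|(e i : ℝ) - e k| - 1 / 2) with hS
  have hS0 : 0 ≤ S := Finset.sum_nonneg fun k hk => by
    have := hd3 k hk
    exact div_nonneg zero_le_one (by linarith)
  have hc2 : K2.card ≤ 2 := card_two he i
  have hc1 : (near e i).card ≤ 2 := card_near_le he i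
  have hcf : K2.card + K3.card = (far e i).card :=
    Finset.card_filter_add_card_filter_not (s := far e i) (fun k => |e i - e k| = 2)
  have hcn : (near e i).card + (far e i).card = n - 1 := by
    have h1 : (near e i).card + (far e i).card = (Finset.univ.erase i).card :=
      Finset.card_filter_add_card_filter_not (s := Finset.univ.erase i) (fun k => |e i - e k| = 1)
    rw [h1, Finset.card_erase_of_mem (Finset.mem_univ i), Finset.card_univ, Fintype.card_fin]
  -- the sum over the far roots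
  have hsum : ∑ k ∈ far e i, 1 / (|(e i : ℝ) - e k| - 1 / 2) = K2.card * (2 / 3) + S := by
    rw [← Finset.sum_filter_add_sum_filter_not (far e i) fun k => |e i - e k| = 2]
    congr 1
    rw [← hK2, Finset.sum_congr rfl (fun k hk => by rw [hd2 k hk] :
      ∀ k ∈ K2, 1 / (|(e i : ℝ) - e k| - 1 / 2) = 1 / (3 / 2)), Finset.sum_const, nsmul_eq_mul]
    norm_num
  -- the product over the far roots
  set F := ∏ k ∈ K3, (|(e i : ℝ) - e k| - 1 / 2) with hF
  have hprod : (3 / 2 : ℝ) ^ K2.card * F ≤ ∏ k ∈ far e i, ‖x - e k‖ := by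
    refine le_trans (le_of_eq ?_) (far_prod_ge he hx)
    rw [← Finset.prod_filter_mul_prod_filter_not (far e i) fun k => |e i - e k| = 2]
    congr 1
    rw [← hK2, Finset.prod_congr rfl hd2, Finset.prod_const]
  have hF1 : 1 + 15 / 4 * S ≤ F := by
    have h1 := prod_ge K3 (u := fun k => |(e i : ℝ) - e k| - 1 / 2) (u0 := 5 / 2)
      (by norm_num) hd3
    have h2 : ((5 / 2 : ℝ) ^ 2 - 5 / 2) = 15 / 4 := by norm_num
    rw [h2] at h1
    exact h1
  have hF2 : (5 / 2 : ℝ) ^ K3.card ≤ F := by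
    rw [← Finset.prod_const]
    exact Finset.prod_le_prod (fun _ _ => by norm_num) hd3
  have hF0 : 0 ≤ F := by linarith
  have hnear : (1 - z) ^ 2 ≤ ∏ k ∈ near e i, ‖x - e k‖ :=
    (pow_le_pow_of_le_one h1z.le (by linarith) hc1).trans (near_prod_one hx)
  have hn0 : 0 ≤ ∏ k ∈ near e i, ‖x - e k‖ := Finset.prod_nonneg fun _ _ => norm_nonneg _
  have hmain : z * (1 - z) ^ 2 * ((3 / 2 : ℝ) ^ K2.card * F) ≤ 1 :=
    le_trans (mul_le_mul (mul_le_mul_of_nonneg_left hnear hz0) hprod (by positivity)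
      (mul_nonneg hz0 hn0)) h
  have hzz : 0 ≤ z * (1 - z) ^ 2 := by positivity
  have hA : z * (1 - z) ^ 2 * (225 / 16) ≤ 1 := by
    refine le_trans (mul_le_mul_of_nonneg_left ?_ hzz) hmain
    have h3 : (5 / 2 : ℝ) ^ (4 - K2.card) ≤ F :=
      (pow_le_pow_right₀ (by norm_num) (by omega)).trans hF2
    have h4 : (225 / 16 : ℝ) ≤ (3 / 2 : ℝ) ^ K2.card * (5 / 2 : ℝ) ^ (4 - K2.card) := by
      interval_cases K2.card <;> norm_num
    exact h4.trans (mul_le_mul_of_nonneg_left h3 (by positivity))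
  have hB : z * (1 - z) ^ 2 * (1 + 15 / 4 * S) ≤ 1 := by
    refine le_trans (mul_le_mul_of_nonneg_left ?_ hzz) hmain
    refine hF1.trans ?_
    have h5 : (1 : ℝ) ≤ (3 / 2 : ℝ) ^ K2.card := one_le_pow₀ (by norm_num)
    nlinarith
  refine le_trans ?_ (num_big hz0 hx hA hB)
  rw [hsum]
  have h6 : ((near e i).card : ℝ) ≤ 2 := by exact_mod_cast hc1
  have h7 : (K2.card : ℝ) ≤ 2 := by exact_mod_cast hc2
  have h8 : 0 ≤ z / (1 - z) := div_nonneg hz0 h1z.le
  refine add_le_add (mul_le_mul_of_nonneg_right h6 h8) (mul_le_mul_of_nonneg_left ?_ hz0)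
  linarith

/-- The third estimate: at least nine roots. -/
theorem sg_huge (he : Function.Injective e) (hn : 9 ≤ n) {x : ℂ} (hx : ‖x - e i‖ < 1 / 2)
    (h : ‖∏ k, (x - e k)‖ ≤ 5) : sg e i ‖x - e i‖ ≤ 1 / 2 := by
  rw [norm_prod, prod_split (i := i)] at h
  have hz0 : 0 ≤ ‖x - e i‖ := norm_nonneg _
  refine (sg_le he hz0 hx).trans ?_
  set z := ‖x - e i‖ with hz
  have h1z : 0 < 1 - z := by linarith
  set K2 := (far e i).filter fun k => |e i - e k| = 2 with hK2
  set K3 := (far e i).filter fun k => ¬ |e i - e k| = 2 with hK3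
  have hd3 : ∀ k ∈ K3, (5 / 2 : ℝ) ≤ |(e i : ℝ) - e k| - 1 / 2 := by
    intro k hk
    obtain ⟨h1, h2⟩ := Finset.mem_filter.1 hk
    have h3 := far_dist he h1
    have h4 : (2 : ℤ) ≤ |e i - e k| := by exact_mod_cast h3
    have h5 : (3 : ℤ) ≤ |e i - e k| := by omega
    have h6 : (3 : ℝ) ≤ |(e i : ℝ) - e k| := by exact_mod_cast h5
    linarith
  have hd2 : ∀ k ∈ K2, |(e i : ℝ) - e k| - 1 / 2 = 3 / 2 := by
    intro k hk
    obtain ⟨-, h2⟩ := Finset.mem_filter.1 hk
    have h3 : |(e i : ℝ) - e k| = 2 := by exact_mod_cast h2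
    rw [h3]
    norm_num
  set S := ∑ k ∈ K3, 1 / (|(e i : ℝ) - e k| - 1 / 2) with hS
  have hc2 : K2.card ≤ 2 := card_two he i
  have hc1 : (near e i).card ≤ 2 := card_near_le he i
  have hcf : K2.card + K3.card = (far e i).card :=
    Finset.card_filter_add_card_filter_not (s := far e i) (fun k => |e i - e k| = 2)
  have hcn : (near e i).card + (far e i).card = n - 1 := by
    have h1 : (near e i).card + (far e i).card = (Finset.univ.erase i).card :=
      Finset.card_filter_add_card_filter_not (s := Finset.univ.erase i) (fun k => |e i - e k| = 1)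
    rw [h1, Finset.card_erase_of_mem (Finset.mem_univ i), Finset.card_univ, Fintype.card_fin]
  -- the sum over the far roots
  have hsum : ∑ k ∈ far e i, 1 / (|(e i : ℝ) - e k| - 1 / 2) = K2.card * (2 / 3) + S := by
    rw [← Finset.sum_filter_add_sum_filter_not (far e i) fun k => |e i - e k| = 2]
    congr 1
    rw [← hK2, Finset.sum_congr rfl (fun k hk => by rw [hd2 k hk] :
      ∀ k ∈ K2, 1 / (|(e i : ℝ) - e k| - 1 / 2) = 1 / (3 / 2)), Finset.sum_const, nsmul_eq_mul]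
    norm_num
  have hS1 : S ≤ K3.card * (2 / 5) := by
    rw [hS, ← nsmul_eq_mul, ← Finset.sum_const]
    refine Finset.sum_le_sum fun k hk => ?_
    have := hd3 k hk
    rw [div_le_iff₀ (by linarith)]
    linarith
  -- the product over the far roots
  set F := ∏ k ∈ K3, (|(e i : ℝ) - e k| - 1 / 2) with hF
  have hprod : (3 / 2 : ℝ) ^ K2.card * F ≤ ∏ k ∈ far e i, ‖x - e k‖ := by
    refine le_trans (le_of_eq ?_) (far_prod_ge he hx)
    rw [← Finset.prod_filter_mul_prod_filter_not (far e i) fun k => |e i - e k| = 2]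
    congr 1
    rw [← hK2, Finset.prod_congr rfl hd2, Finset.prod_const]
  have hF2 : (5 / 2 : ℝ) ^ K3.card ≤ F := by
    rw [← Finset.prod_const]
    exact Finset.prod_le_prod (fun _ _ => by norm_num) hd3
  have hF0 : 0 ≤ F := by
    refine le_trans ?_ hF2
    positivity
  have hnear : (1 - z) ^ 2 ≤ ∏ k ∈ near e i, ‖x - e k‖ :=
    (pow_le_pow_of_le_one h1z.le (by linarith) hc1).trans (near_prod_one hx)
  have hn0 : 0 ≤ ∏ k ∈ near e i, ‖x - e k‖ := Finset.prod_nonneg fun _ _ => norm_nonneg _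
  have hmain : z * (1 - z) ^ 2 * ((3 / 2 : ℝ) ^ K2.card * F) ≤ 5 :=
    le_trans (mul_le_mul (mul_le_mul_of_nonneg_left hnear hz0) hprod (by positivity)
      (mul_nonneg hz0 hn0)) h
  have hzz : 0 ≤ z * (1 - z) ^ 2 := by positivity
  have hG : (5625 / 64 : ℝ) ≤ (3 / 2 : ℝ) ^ K2.card * F := by
    have h3 : (5 / 2 : ℝ) ^ (6 - K2.card) ≤ F :=
      (pow_le_pow_right₀ (by norm_num) (by omega)).trans hF2
    have h4 : (5625 / 64 : ℝ) ≤ (3 / 2 : ℝ) ^ K2.card * (5 / 2 : ℝ) ^ (6 - K2.card) := by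
      interval_cases K2.card <;> norm_num
    exact h4.trans (mul_le_mul_of_nonneg_left h3 (by positivity))
  have h7 : (K2.card : ℝ) ≤ 2 := by exact_mod_cast hc2
  have hFG : F ≤ (3 / 2 : ℝ) ^ K2.card * F :=
    le_mul_of_one_le_left hF0 (one_le_pow₀ (by norm_num))
  have hSG : K2.card * (2 / 3) + S ≤ 281 / 5000 * ((3 / 2 : ℝ) ^ K2.card * F) := by
    have h8 := pow_ge_card (c := K3.card) (by omega)
    linarith
  refine le_trans ?_ (num_huge hz0 hx ((mul_le_mul_of_nonneg_left hG hzz).trans hmain) hmain hSG)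
  rw [hsum]
  have h6 : ((near e i).card : ℝ) ≤ 2 := by exact_mod_cast hc1
  have h8 : 0 ≤ z / (1 - z) := div_nonneg hz0 h1z.le
  exact add_le_add (mul_le_mul_of_nonneg_right h6 h8) le_rfl

section Outer

variable {g : ℕ} {e : Fin g → ℤ}

theorem outer_card (he : Function.Injective e) (p q : ℤ) :
    (Finset.univ.filter fun k => e k = p ∨ e k = q).card ≤ 2 := by
  have h1 : ((Finset.univ.filter fun k => e k = p ∨ e k = q).image e) ⊆ {p, q} := by
    intro y hy
    obtain ⟨i, hi, rfl⟩ := Finset.mem_image.1 hy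
    have h2 := (Finset.mem_filter.1 hi).2
    simpa using h2
  rw [← Finset.card_image_of_injective _ he]
  exact (Finset.card_le_card h1).trans Finset.card_le_two

theorem outer_dist {x : ℂ} {c : ℤ} (h1 : (c : ℝ) ≤ x.re) (h2 : x.re < c + 1) {z : ℤ} {d : ℤ}
    (hd : c + 1 + d ≤ z ∨ z ≤ c - d) : (d : ℝ) ≤ ‖x - (z : ℂ)‖ := by
  have h3 : |x.re - (z : ℝ)| ≤ ‖x - (z : ℂ)‖ := by
    have := Complex.abs_re_le_norm (x - (z : ℂ))
    simpa using this
  refine le_trans ?_ h3
  rw [le_abs]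
  rcases hd with hd | hd
  · right
    have h4 : (c : ℝ) + 1 + d ≤ z := by exact_mod_cast hd
    linarith
  · left
    have h4 : (z : ℝ) ≤ c - d := by exact_mod_cast hd
    linarith

/-- Outside of the discs of radius `1/2`, the product is at least `1/4`. -/
theorem outer_small (he : Function.Injective e) :
    ∀ x ∈ outer (fun k => ((e k : ℤ) : ℂ)) (1 / 2), 1 / 4 ≤ ∏ k, ‖x - ((e k : ℤ) : ℂ)‖ := by
  intro x hx
  set c : ℤ := ⌊x.re⌋ with hc
  have hm1 : (c : ℝ) ≤ x.re := Int.floor_le _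
  have hm2 : x.re < c + 1 := Int.lt_floor_add_one _
  set S : Finset (Fin g) := Finset.univ.filter fun k => e k = c ∨ e k = c + 1 with hS
  have hcard : S.card ≤ 2 := outer_card he _ _
  have hbig : ∀ i, i ∉ S → 1 ≤ ‖x - ((e i : ℤ) : ℂ)‖ := by
    intro i hi
    have h1 : ¬ (e i = c ∨ e i = c + 1) := fun h => hi (Finset.mem_filter.2
      ⟨Finset.mem_univ i, h⟩)
    have h2 := outer_dist hm1 hm2 (z := e i) (d := 1) (by omega)
    rwa [Int.cast_one] at h2
  calc (1 / 4 : ℝ) = (1 / 2) ^ 2 := by norm_num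
    _ ≤ (1 / 2) ^ S.card := pow_le_pow_of_le_one (by norm_num) (by norm_num) hcard
    _ = ∏ i, (if i ∈ S then (1 / 2 : ℝ) else 1) := by
        rw [Finset.prod_ite_mem, Finset.univ_inter, Finset.prod_const]
    _ ≤ ∏ i, ‖x - ((e i : ℤ) : ℂ)‖ := by
        refine Finset.prod_le_prod (fun i _ => ?_) fun i _ => ?_
        · split_ifs <;> norm_num
        · split_ifs with hi
          · exact hx i
          · exact hbig i hi

/-- Outside of the discs of radius `1/2`, the product of at least `4 + h` factors is at least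
`2 ^ h / 4`. -/
theorem outer_big (he : Function.Injective e) {h : ℕ} (hg : 4 + h ≤ g) :
    ∀ x ∈ outer (fun k => ((e k : ℤ) : ℂ)) (1 / 2),
      2 ^ h / 4 ≤ ∏ k, ‖x - ((e k : ℤ) : ℂ)‖ := by
  intro x hx
  set c : ℤ := ⌊x.re⌋ with hc
  have hm1 : (c : ℝ) ≤ x.re := Int.floor_le _
  have hm2 : x.re < c + 1 := Int.lt_floor_add_one _
  set S : Finset (Fin g) := Finset.univ.filter fun k => e k = c ∨ e k = c + 1 with hS
  set T : Finset (Fin g) := Finset.univ.filter fun k => e k = c - 1 ∨ e k = c + 2 with hT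
  have hcard : S.card ≤ 2 := outer_card he _ _
  have hcardT : T.card ≤ 2 := outer_card he _ _
  have hST : ∀ i ∈ S, i ∉ T := by
    intro i hi hi'
    have h1 := (Finset.mem_filter.1 hi).2
    have h2 := (Finset.mem_filter.1 hi').2
    omega
  have hmid : ∀ i, i ∉ S → 1 ≤ ‖x - ((e i : ℤ) : ℂ)‖ := by
    intro i hi
    have h1 : ¬ (e i = c ∨ e i = c + 1) := fun h => hi (Finset.mem_filter.2
      ⟨Finset.mem_univ i, h⟩)
    have h2 := outer_dist hm1 hm2 (z := e i) (d := 1) (by omega)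
    rwa [Int.cast_one] at h2
  have hbig : ∀ i, i ∉ S → i ∉ T → 2 ≤ ‖x - ((e i : ℤ) : ℂ)‖ := by
    intro i hi hi'
    have h1 : ¬ (e i = c ∨ e i = c + 1) := fun h => hi (Finset.mem_filter.2
      ⟨Finset.mem_univ i, h⟩)
    have h1' : ¬ (e i = c - 1 ∨ e i = c + 2) := fun h => hi' (Finset.mem_filter.2
      ⟨Finset.mem_univ i, h⟩)
    have h2 := outer_dist hm1 hm2 (z := e i) (d := 2) (by omega)
    rwa [Int.cast_ofNat] at h2
  have hcompl : h ≤ (Finset.univ \ (S ∪ T)).card := by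
    have h1 := Finset.le_card_sdiff (S ∪ T) Finset.univ
    have h2 := Finset.card_union_le S T
    rw [Finset.card_univ, Fintype.card_fin] at h1
    omega
  have hsplit : ∏ i, ‖x - ((e i : ℤ) : ℂ)‖ = (∏ i ∈ S, ‖x - ((e i : ℤ) : ℂ)‖) *
      ((∏ i ∈ T, ‖x - ((e i : ℤ) : ℂ)‖) *
      ∏ i ∈ Finset.univ \ (S ∪ T), ‖x - ((e i : ℤ) : ℂ)‖) := by
    rw [← mul_assoc, ← Finset.prod_union (Finset.disjoint_left.2 hST),
      mul_comm, Finset.prod_sdiff (Finset.subset_univ _)]
  have p1 : (1 / 4 : ℝ) ≤ ∏ i ∈ S, ‖x - ((e i : ℤ) : ℂ)‖ := by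
    calc (1 / 4 : ℝ) = (1 / 2) ^ 2 := by norm_num
      _ ≤ (1 / 2) ^ S.card := pow_le_pow_of_le_one (by norm_num) (by norm_num) hcard
      _ = ∏ i ∈ S, (1 / 2 : ℝ) := by rw [Finset.prod_const]
      _ ≤ _ := Finset.prod_le_prod (fun i _ => by norm_num) fun i _ => hx i
  have p2 : (1 : ℝ) ≤ ∏ i ∈ T, ‖x - ((e i : ℤ) : ℂ)‖ := by
    calc (1 : ℝ) = ∏ _i ∈ T, (1 : ℝ) := by rw [Finset.prod_const_one]
      _ ≤ _ := Finset.prod_le_prod (fun i _ => by norm_num) fun i hi =>
        hmid i fun h => hST i h hi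
  have p3 : (2 : ℝ) ^ h ≤ ∏ i ∈ Finset.univ \ (S ∪ T), ‖x - ((e i : ℤ) : ℂ)‖ := by
    calc (2 : ℝ) ^ h ≤ 2 ^ (Finset.univ \ (S ∪ T)).card := pow_le_pow_right₀ (by norm_num) hcompl
      _ = ∏ i ∈ Finset.univ \ (S ∪ T), (2 : ℝ) := by rw [Finset.prod_const]
      _ ≤ _ := by
        refine Finset.prod_le_prod (fun i _ => by norm_num) fun i hi => ?_
        have h1 := (Finset.mem_sdiff.1 hi).2
        rw [Finset.mem_union, not_or] at h1
        exact hbig i h1.1 h1.2
  rw [hsplit]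
  calc (2 : ℝ) ^ h / 4 = 1 / 4 * (1 * 2 ^ h) := by ring
    _ ≤ _ := mul_le_mul p1 (mul_le_mul p2 p3 (by positivity) (by linarith)) (by positivity)
      (by linarith)

end Outer

end Run7.h220.PQ
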