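import Pool.Agent.Run7.h220.PQTor
import Pool.Agent.Run7.h220.PQBranch
import Pool.Agent.Run7.h220.PQInt
set_option autoImplicit false

/-!
The regulator matrix of the curve `N ∏ (x - a_k) ∏ (y - b_l) = 1` is nonsingular, and the curve is
smooth.
-/

namespace Run7.h220.PQ

open Polynomial

open Pool.Agent.TH826.MK (Torus symb circ norm_circ contDiff_circ circ_add_one)

open Pool.Agent.TH826.UH (outer nz_circ sepd_fam)

open scoped Real

theorem circ_mul (r s : ℝ) : circ r s = (r : ℂ) * circ 1 s := by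
  unfold circ
  simp

theorem inv_circ_mul (t : ℂ) (r s : ℝ) : inv_circ t r s = (t / r) * (circ 1 s)⁻¹ := by
  unfold inv_circ
  rw [circ_mul, div_mul_eq_div_div, div_eq_mul_inv (t / (r : ℂ))]

variable {m n : ℕ} {a : Fin (m + 1) → ℤ} {b : Fin (n + 1) → ℤ} {N : ℤ}

/-- The general criterion. -/
theorem exists_loops_aux (ha : Function.Injective a) (hb : Function.Injective b) (hN : N ≠ 0)
    {A B σ σ' r : ℝ} (hr0 : 0 < r)
    (hA : ∀ x ∈ outer (fun k => ((a k : ℤ) : ℂ)) (1 / 2), A ≤ ∏ k, ‖x - ((a k : ℤ) : ℂ)‖)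
    (hB : ∀ x ∈ outer (fun k => ((b k : ℤ) : ℂ)) (1 / 2), B ≤ ∏ k, ‖x - ((b k : ℤ) : ℂ)‖)
    (hrA : r < A) (hrB : 1 / |(N : ℝ)| / r < B) (hσ : σ' < 1)
    (hσa : ∀ i (x : ℂ), ‖x - a i‖ < 1 / 2 → ‖∏ k, (x - a k)‖ ≤ r → sg a i ‖x - a i‖ ≤ σ)
    (hσb : ∀ i (x : ℂ), ‖x - b i‖ < 1 / 2 → ‖∏ k, (x - b k)‖ ≤ 1 / |(N : ℝ)| / r →
      sg b i ‖x - b i‖ ≤ σ')
    (hE : 4 * (σ * (σ' / (1 - σ'))) < Real.log |(N : ℝ)| +
      max 0 ((((m + 1 : ℕ) : ℝ) - 4) * Real.log 2) +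
      max 0 ((((n + 1 : ℕ) : ℝ) - 4) * Real.log 2)) :
    ∃ Γ : Fin m × Fin n → Torus (CR a b N) 1,
      (∀ q θ (c : ℚ), (Γ q).e θ (cst a b N c) = c) ∧
      (Matrix.of fun q p : Fin m × Fin n =>
        (Γ q).reg (symb (ent a b N p.1.succ 0 p.2.succ 0))).det ≠ 0 := by
  have hNR : (N : ℝ) ≠ 0 := Int.cast_ne_zero.2 hN
  have hNC : (N : ℂ) ≠ 0 := Int.cast_ne_zero.2 hN
  have hN0 : 0 < |(N : ℝ)| := abs_pos.2 hNR
  set t : ℂ := 1 / N with ht
  have ht0 : t ≠ 0 := by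
    rw [ht]
    exact one_div_ne_zero hNC
  have htn : ‖t‖ = 1 / |(N : ℝ)| := by
    rw [ht, norm_div, norm_one, Complex.norm_intCast]
  have htr : ‖t / (r : ℂ)‖ = 1 / |(N : ℝ)| / r := by
    rw [norm_div, Complex.norm_real, Real.norm_of_nonneg hr0.le, htn]
  -- the loops
  have hXex : ∀ i, ∃ X : ℝ → ℂ, Lp a i (circ r) X := by
    intro i
    obtain ⟨X, hX⟩ := exists_loop ha hA (u := (r : ℂ))
      (by rw [Complex.norm_real, Real.norm_of_nonneg hr0.le]; exact hrA) cir_circ i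
    have e : (fun s => (r : ℂ) * circ 1 s) = circ r := by
      funext s
      exact (circ_mul r s).symm
    rw [e] at hX
    exact ⟨X, hX⟩
  have hYex : ∀ j, ∃ Y : ℝ → ℂ, Lp b j (inv_circ t r) Y := by
    intro j
    obtain ⟨Y, hY⟩ := exists_loop hb hB (u := t / (r : ℂ)) (by rw [htr]; exact hrB) cir_inv j
    have e : (fun s => t / (r : ℂ) * (circ 1 s)⁻¹) = inv_circ t r := by
      funext s
      exact (inv_circ_mul t r s).symm
    rw [e] at hY
    exact ⟨Y, hY⟩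
  choose X hX using hXex
  choose Y hY using hYex
  have hz := (nz_circ hr0).ne_zero
  have hP : ∀ i j s, Pt a b N (X i s) (Y j s) := by
    intro i j s
    show (N : ℂ) * (∏ k, (X i s - a k)) * (∏ l, (Y j s - b l)) = 1
    rw [(hX i).prod, (hY j).prod]
    unfold inv_circ
    rw [ht]
    have := hz s
    field_simp
  set G : Fin (m + 1) × Fin (n + 1) → Torus (CR a b N) 1 := fun q =>
    mkL (hX q.1).smooth (hY q.2).smooth (hX q.1).per (hY q.2).per (hP q.1 q.2) with hG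
  set p : Fin (m + 1) → Fin (n + 1) → Fin (m + 1) → Fin (n + 1) → ℝ :=
    fun i j => pp a b (X i) (Y j) with hp
  have hreg : ∀ q : Fin (m + 1) × Fin (n + 1), ∀ w : Fin m × Fin n,
      (G q).reg (symb (ent a b N w.1.succ 0 w.2.succ 0)) =
      p q.1 q.2 w.1.succ w.2.succ - p q.1 q.2 w.1.succ 0 - p q.1 q.2 0 w.2.succ +
        p q.1 q.2 0 0 := by
    intro q w
    exact mkL_reg _ _ _ _ _ _ _ _ _
  have hsgX : ∀ i s, sg a i ‖X i s - a i‖ ≤ σ := by
    intro i s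
    refine hσa i _ ((hX i).near s) (le_of_eq ?_)
    rw [(hX i).prod, norm_circ hr0.le]
  have hsgY : ∀ j s, sg b j ‖Y j s - b j‖ ≤ σ' := by
    intro j s
    refine hσb j _ ((hY j).near s) (le_of_eq ?_)
    rw [(hY j).prod, inv_circ_mul, norm_mul, norm_inv, norm_circ zero_le_one, htr, inv_one,
      mul_one]
  obtain ⟨q, hq⟩ := exists_rows (fun (q : Fin (m + 1) × Fin (n + 1)) (w : Fin m × Fin n) =>
      (G q).reg (symb (ent a b N w.1.succ 0 w.2.succ 0))) (by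
    intro v hv
    obtain ⟨c, hc1, hc2, hcv, hcp⟩ := sum_ext v
    have h0 : ∀ i j, c i j = 0 := by
      refine max_principle ha hb p (Λ := Real.log |(N : ℝ)|) (E := σ * (σ' / (1 - σ')))
        (fun i j => ?_) (fun i j l hl => ?_) (fun i j k hk => ?_) (fun i j => ?_) hE c hc1 hc2
        (fun i j => ?_)
      · rw [hp]
        simp only
        rw [pp_total (hX i) (hY j) hr0 ht0, htn, one_div, Real.log_inv]
        ring
      · exact pp_col_ne (hX i) (hY j) hr0 ht0 hb hl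
      · exact pp_row_ne (hX i) (hY j) hr0 ht0 ha hk
      · exact pp_bound (hX i) (hY j) hr0 ht0 ha hb (hsgX i) (hsgY j) hσ
      · rw [hcp (p i j)]
        have h1 := hv (i, j)
        simp only [hreg] at h1
        exact h1
    funext w
    rw [hcv w, h0]
    rfl)
  refine ⟨fun w => G (q w), fun w θ c => ?_, hq⟩
  rw [hG]
  simp only
  rw [mkL_e, Pt.ev_cst]

/-- the hypothesis on the size -/
def Big (m n : ℕ) (N : ℤ) : Prop := 25 ≤ |N| ∨ (N ≠ 0 ∧ ((6 ≤ m ∧ 6 ≤ n) ∨ 8 ≤ m ∨ 8 ≤ n))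

theorem Big.ne_zero {m n : ℕ} (h : Big m n N) : N ≠ 0 := by
  rcases h with h | h
  · rintro rfl
    norm_num at h
  · exact h.1

theorem one_le_abs_N (h : N ≠ 0) : (1 : ℝ) ≤ |(N : ℝ)| := by
  exact_mod_cast Int.one_le_abs h

theorem outer_seven (ha : Function.Injective a) (hm : 6 ≤ m) :
    ∀ x ∈ outer (fun k => ((a k : ℤ) : ℂ)) (1 / 2), 2 ≤ ∏ k, ‖x - ((a k : ℤ) : ℂ)‖ := by
  intro x hx
  have h := outer_big ha (h := 3) (by omega) x hx
  norm_num at h ⊢
  exact h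

theorem outer_nine (ha : Function.Injective a) (hm : 8 ≤ m) :
    ∀ x ∈ outer (fun k => ((a k : ℤ) : ℂ)) (1 / 2), 8 ≤ ∏ k, ‖x - ((a k : ℤ) : ℂ)‖ := by
  intro x hx
  have h := outer_big ha (h := 5) (by omega) x hx
  norm_num at h ⊢
  exact h

theorem exists_loops (ha : Function.Injective a) (hb : Function.Injective b)
    (h : Big m n N) :
    ∃ Γ : Fin m × Fin n → Torus (CR a b N) 1,
      (∀ q θ (c : ℚ), (Γ q).e θ (cst a b N c) = c) ∧
      (Matrix.of fun q p : Fin m × Fin n =>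
        (Γ q).reg (symb (ent a b N p.1.succ 0 p.2.succ 0))).det ≠ 0 := by
  have hN0 := h.ne_zero
  have h1 := one_le_abs_N hN0
  have hlog := Real.log_nonneg h1
  have hl2 := Real.log_two_gt_d9
  have hinv : 1 / |(N : ℝ)| ≤ 1 := by
    rw [div_le_one (by linarith)]
    exact h1
  rcases h with h25 | ⟨-, ⟨hm, hn⟩ | hm | hn⟩
  · have h25' : (25 : ℝ) ≤ |(N : ℝ)| := by exact_mod_cast h25
    have hr : 1 / |(N : ℝ)| / (1 / 5) ≤ 1 / 5 := by
      rw [div_le_iff₀ (by norm_num), div_le_iff₀ (by linarith)]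
      linarith
    refine exists_loops_aux ha hb hN0 (A := 1 / 4) (B := 1 / 4) (σ := 14 / 25) (σ' := 14 / 25)
      (r := 1 / 5) (by norm_num)
      (outer_small ha) (outer_small hb) (by norm_num) (hr.trans_lt (by norm_num))
      (by norm_num) (fun i x hx h => sg_small ha hx h)
      (fun i x hx h => sg_small hb hx (h.trans hr)) ?_
    have h2 : (3 : ℝ) < Real.log |(N : ℝ)| := by
      rw [Real.lt_log_iff_exp_lt (by linarith)]
      have h3 : Real.exp 3 = Real.exp 1 ^ 3 := by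
        rw [← Real.exp_nat_mul]
        norm_num
      have h4 := Real.exp_one_lt_d9
      have h5 : Real.exp 1 ^ 3 < 2.7182818286 ^ 3 :=
        pow_lt_pow_left₀ h4 (Real.exp_pos 1).le (by norm_num)
      rw [h3]
      refine h5.trans_le (le_trans ?_ h25')
      norm_num
    have h3 := le_max_left 0 ((((m + 1 : ℕ) : ℝ) - 4) * Real.log 2)
    have h4 := le_max_left 0 ((((n + 1 : ℕ) : ℝ) - 4) * Real.log 2)
    have h5 : 4 * (14 / 25 * (14 / 25 / (1 - 14 / 25)) : ℝ) < 3 := by norm_num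
    linarith
  · refine exists_loops_aux ha hb hN0 (A := 2) (B := 2) (σ := 31 / 50) (σ' := 31 / 50) (r := 1)
      (by norm_num) (outer_seven ha hm) (outer_seven hb hn) (by norm_num)
      (by rw [div_one]; linarith) (by norm_num)
      (fun i x hx h => sg_big ha (by omega) hx h)
      (fun i x hx h => sg_big hb (by omega) hx (h.trans (by rw [div_one]; exact hinv))) ?_
    have h4 : (3 : ℝ) ≤ ((m + 1 : ℕ) : ℝ) - 4 := by
      have : (6 : ℝ) ≤ m := by exact_mod_cast hm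
      push_cast
      linarith
    have h5 : (3 : ℝ) ≤ ((n + 1 : ℕ) : ℝ) - 4 := by
      have : (6 : ℝ) ≤ n := by exact_mod_cast hn
      push_cast
      linarith
    have h6 : 3 * Real.log 2 ≤ (((m + 1 : ℕ) : ℝ) - 4) * Real.log 2 :=
      mul_le_mul_of_nonneg_right h4 (by linarith)
    have h7 : 3 * Real.log 2 ≤ (((n + 1 : ℕ) : ℝ) - 4) * Real.log 2 :=
      mul_le_mul_of_nonneg_right h5 (by linarith)
    have h8 : 4 * (31 / 50 * (31 / 50 / (1 - 31 / 50)) : ℝ) < 6 * 0.6931471803 := by norm_num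
    have h9 := le_max_right 0 ((((m + 1 : ℕ) : ℝ) - 4) * Real.log 2)
    have h10 := le_max_right 0 ((((n + 1 : ℕ) : ℝ) - 4) * Real.log 2)
    linarith
  · -- many factors in `x`
    have hN0' : 0 < |(N : ℝ)| := by linarith
    have hr : (5 : ℝ) / |(N : ℝ)| ≤ 5 := by
      rw [div_le_iff₀ hN0']
      linarith
    have hr' : 1 / |(N : ℝ)| / (5 / |(N : ℝ)|) = 1 / 5 := by
      field_simp
    refine exists_loops_aux ha hb hN0 (A := 8) (B := 1 / 4) (σ := 1 / 2) (σ' := 14 / 25)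
      (r := 5 / |(N : ℝ)|) (by positivity) (outer_nine ha hm) (outer_small hb)
      (hr.trans_lt (by norm_num)) (by rw [hr']; norm_num) (by norm_num)
      (fun i x hx h => sg_huge ha (by omega) hx (h.trans hr))
      (fun i x hx h => sg_small hb hx (h.trans hr'.le)) ?_
    have h4 : (5 : ℝ) ≤ ((m + 1 : ℕ) : ℝ) - 4 := by
      have : (8 : ℝ) ≤ m := by exact_mod_cast hm
      push_cast
      linarith
    have h6 : 5 * Real.log 2 ≤ (((m + 1 : ℕ) : ℝ) - 4) * Real.log 2 :=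
      mul_le_mul_of_nonneg_right h4 (by linarith)
    have h8 : 4 * (1 / 2 * (14 / 25 / (1 - 14 / 25)) : ℝ) < 5 * 0.6931471803 := by norm_num
    have h9 := le_max_right 0 ((((m + 1 : ℕ) : ℝ) - 4) * Real.log 2)
    have h10 := le_max_left 0 ((((n + 1 : ℕ) : ℝ) - 4) * Real.log 2)
    linarith
  · -- many factors in `y`
    have hr : 1 / |(N : ℝ)| / (1 / 5) ≤ 5 := by
      rw [div_le_iff₀ (by norm_num)]
      linarith
    refine exists_loops_aux ha hb hN0 (A := 1 / 4) (B := 8) (σ := 14 / 25) (σ' := 1 / 2)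
      (r := 1 / 5) (by norm_num) (outer_small ha) (outer_nine hb hn)
      (by norm_num) (hr.trans_lt (by norm_num)) (by norm_num)
      (fun i x hx h => sg_small ha hx h)
      (fun i x hx h => sg_huge hb (by omega) hx (h.trans hr)) ?_
    have h4 : (5 : ℝ) ≤ ((n + 1 : ℕ) : ℝ) - 4 := by
      have : (8 : ℝ) ≤ n := by exact_mod_cast hn
      push_cast
      linarith
    have h6 : 5 * Real.log 2 ≤ (((n + 1 : ℕ) : ℝ) - 4) * Real.log 2 :=
      mul_le_mul_of_nonneg_right h4 (by linarith)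
    have h8 : 4 * (14 / 25 * (1 / 2 / (1 - 1 / 2)) : ℝ) < 5 * 0.6931471803 := by norm_num
    have h9 := le_max_left 0 ((((m + 1 : ℕ) : ℝ) - 4) * Real.log 2)
    have h10 := le_max_right 0 ((((n + 1 : ℕ) : ℝ) - 4) * Real.log 2)
    linarith

/-- The critical values of `∏ (x - a_k)` are at least `A`. -/
theorem deriv_ne (ha : Function.Injective a) {A : ℝ}
    (hA : ∀ x ∈ outer (fun k => ((a k : ℤ) : ℂ)) (1 / 2), A ≤ ∏ k, ‖x - ((a k : ℤ) : ℂ)‖)
    {x : ℂ} (hx : ‖∏ k, (x - a k)‖ < A) :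
    (derivative (lp a)).eval₂ (algebraMap ℚ ℂ) x ≠ 0 := by
  obtain ⟨ρ, hρ1, hρ2⟩ := exists_between hx
  have hρ : 0 < ρ := (norm_nonneg _).trans_lt hρ1
  set lam : ℂ := ((2 / ρ : ℝ) : ℂ) with hlam
  have hlamn : ‖lam‖ = 2 / ρ := by
    rw [hlam, Complex.norm_real, Real.norm_of_nonneg (by positivity)]
  have hlam0 : lam ≠ 0 := by
    rw [← norm_pos_iff, hlamn]
    positivity
  obtain ⟨F, hF⟩ : ∃ F : Polynomial ℂ, F = Polynomial.C 0 + Polynomial.C lam *
    ∏ k, (Polynomial.X - Polynomial.C ((a k : ℤ) : ℂ)) := ⟨_, rfl⟩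
  obtain ⟨η, H⟩ := sepd_fam (b := fun k => ((a k : ℤ) : ℂ)) (t := 0) hlam0 hF (ρ := 1 / 2)
    (B := A) (by norm_num) (fun i j hij => by
      have h1 := dist_ge ha (i := i) (k := j) (Ne.symm hij)
      rw [← norm_sub_int] at h1
      linarith) (by rw [norm_zero]; norm_num) hA (by
      rw [norm_zero, add_zero, hlamn, div_mul_eq_mul_div, lt_div_iff₀ hρ]
      linarith)
  obtain ⟨y, -, -, hprod, hder⟩ := H.exists_branches
  have hη := H.eta
  set w : ℂ := lam * ∏ k, (x - a k) with hw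
  have hwb : w ∈ Metric.ball (0 : ℂ) (2 + η) := by
    rw [mem_ball_zero_iff, hw, norm_mul, hlamn, div_mul_eq_mul_div, div_lt_iff₀ hρ]
    nlinarith [norm_nonneg (∏ k, (x - (a k : ℂ)))]
  have hev : F.eval x = w := by
    rw [Pool.Agent.TH826.UH.eval_fam (b := fun k => ((a k : ℤ) : ℂ)) (t := 0) (lam := lam) hF,
      zero_add]
  have h1 := congrArg (Polynomial.eval x) (hprod w hwb)
  rw [Polynomial.eval_sub, Polynomial.eval_C, hev, sub_self, Polynomial.eval_mul,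
    Polynomial.eval_C, Polynomial.eval_prod, eq_comm] at h1
  have hF0 : F.leadingCoeff ≠ 0 := by
    rw [Pool.Agent.TH826.UH.leadingCoeff_fam (b := fun k => ((a k : ℤ) : ℂ)) hlam0 hF]
    exact hlam0
  obtain ⟨j, -, hj⟩ := Finset.prod_eq_zero_iff.1 ((mul_eq_zero.1 h1).resolve_left hF0)
  rw [Polynomial.eval_sub, Polynomial.eval_X, Polynomial.eval_C, sub_eq_zero] at hj
  have h2 := hder j w hwb
  rw [← hj] at h2
  intro h3
  refine h2 ?_
  have h4 : F = C lam * (lp a).map (algebraMap ℚ ℂ) := by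
    rw [hF, C_0, zero_add]
    unfold lp
    rw [Polynomial.map_prod]
    congr 1
    refine Finset.prod_congr rfl fun k _ => ?_
    rw [Polynomial.map_sub, Polynomial.map_X, Polynomial.map_C]
    congr 2
  rw [h4, derivative_C_mul, Polynomial.eval_mul, Polynomial.derivative_map,
    Polynomial.eval_map, h3, mul_zero]

/-- The curve is smooth. -/
theorem smooth_of_big (ha : Function.Injective a) (hb : Function.Injective b)
    (h : Big m n N) {x y : ℂ}
    (hxy : (N : ℂ) * (lp a).eval₂ (algebraMap ℚ ℂ) x * (lp b).eval₂ (algebraMap ℚ ℂ) y = 1) :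
    (derivative (lp a)).eval₂ (algebraMap ℚ ℂ) x * (lp b).eval₂ (algebraMap ℚ ℂ) y ≠ 0 ∨
    (lp a).eval₂ (algebraMap ℚ ℂ) x * (derivative (lp b)).eval₂ (algebraMap ℚ ℂ) y ≠ 0 := by
  have hN0 := h.ne_zero
  have h1 := one_le_abs_N hN0
  have hP : (lp a).eval₂ (algebraMap ℚ ℂ) x ≠ 0 := by
    intro h
    rw [h, mul_zero, zero_mul] at hxy
    exact zero_ne_one hxy
  have hQ : (lp b).eval₂ (algebraMap ℚ ℂ) y ≠ 0 := by
    intro h
    rw [h, mul_zero] at hxy
    exact zero_ne_one hxy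
  -- the product of the lower bounds of the critical values
  obtain ⟨A, B, hA, hB, hAB, hB0⟩ : ∃ A B : ℝ,
      (∀ x ∈ outer (fun k => ((a k : ℤ) : ℂ)) (1 / 2), A ≤ ∏ k, ‖x - ((a k : ℤ) : ℂ)‖) ∧
      (∀ x ∈ outer (fun k => ((b k : ℤ) : ℂ)) (1 / 2), B ≤ ∏ k, ‖x - ((b k : ℤ) : ℂ)‖) ∧
      1 < |(N : ℝ)| * (A * B) ∧ 0 < B := by
    rcases h with h25 | ⟨-, ⟨hm, hn⟩ | hm | hn⟩
    · have h25' : (25 : ℝ) ≤ |(N : ℝ)| := by exact_mod_cast h25
      exact ⟨1 / 4, 1 / 4, outer_small ha, outer_small hb, by linarith, by norm_num⟩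
    · exact ⟨2, 2, outer_seven ha hm, outer_seven hb hn, by linarith, by norm_num⟩
    · exact ⟨8, 1 / 4, outer_nine ha hm, outer_small hb, by linarith, by norm_num⟩
    · exact ⟨1 / 4, 8, outer_small ha, outer_nine hb hn, by linarith, by norm_num⟩
  have h2 : |(N : ℝ)| * (‖∏ k, (x - (a k : ℂ))‖ * ‖∏ k, (y - (b k : ℂ))‖) = 1 := by
    have h3 := congrArg norm hxy
    rw [lp_eval, lp_eval, norm_mul, norm_mul, Complex.norm_intCast, norm_one] at h3
    rw [← h3]
    ring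
  by_cases hx : ‖∏ k, (x - (a k : ℂ))‖ < A
  · exact Or.inl (mul_ne_zero (deriv_ne ha hA hx) hQ)
  · refine Or.inr (mul_ne_zero hP (deriv_ne hb hB ?_))
    by_contra hy
    push Not at hx hy
    have h4 : A * B ≤ ‖∏ k, (x - (a k : ℂ))‖ * ‖∏ k, (y - (b k : ℂ))‖ :=
      mul_le_mul hx hy hB0.le (norm_nonneg _)
    have h5 := mul_le_mul_of_nonneg_left h4 (by linarith : 0 ≤ |(N : ℝ)|)
    linarith

end Run7.h220.PQ
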