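import Pool.Agent.Run7.h220.PQPr
set_option autoImplicit false

/-!
Loops near a root of a product of linear factors with different integral roots.
-/

namespace Run7.h220.PQ

open MeasureTheory Set

open Pool.Agent.TH826.MK (circ norm_circ contDiff_circ hasDerivAt_circ circ_add_one)

open Pool.Agent.TH826.UH (pr NZ pr_mul pr_div pr_prod pr_const nz_circ ld_circ)

open scoped Real

/-- A loop `X` in the disc of radius `1/2` around `e i` with `∏ (X - e k) = U`. -/
structure Lp {n : ℕ} (e : Fin n → ℤ) (i : Fin n) (U X : ℝ → ℂ) : Prop where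
  smooth : ContDiff ℝ 2 X
  per : ∀ s, X (s + 1) = X s
  near : ∀ s, ‖X s - e i‖ < 1 / 2
  prod : ∀ s, ∏ k, (X s - e k) = U s
  mean : ∀ k, k ≠ i → ∫ s in (0 : ℝ)..1, Complex.log (1 + (X s - e i) / (e i - e k)) = 0

variable {n : ℕ} {e : Fin n → ℤ} {i : Fin n} {U X : ℝ → ℂ}

theorem dist_ge (he : Function.Injective e) {k : Fin n} (hk : k ≠ i) :
    (1 : ℝ) ≤ |(e i : ℝ) - e k| := by
  have h1 : (1 : ℤ) ≤ |e i - e k| := Int.one_le_abs (sub_ne_zero.2 (he.ne (Ne.symm hk)))
  exact_mod_cast h1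

theorem norm_sub_int (x y : ℤ) : ‖(x : ℂ) - y‖ = |(x : ℝ) - y| := by
  rw [← Int.cast_sub, Complex.norm_intCast, Int.cast_sub]

theorem sub_int_ne (he : Function.Injective e) {k : Fin n} (hk : k ≠ i) :
    (e i : ℂ) - e k ≠ 0 := by
  rw [← norm_pos_iff, norm_sub_int]
  exact one_pos.trans_le (dist_ge he hk)

/-- the logarithms of the entries -/
noncomputable def lf (e : Fin n → ℤ) (i : Fin n) (X : ℝ → ℂ) (k : Fin n) (s : ℝ) : ℂ :=
  Complex.log (1 + (X s - e i) / (e i - e k))

theorem Lp.small (h : Lp e i U X) (he : Function.Injective e) {k : Fin n} (hk : k ≠ i) (s : ℝ) :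
    ‖(X s - e i) / ((e i : ℂ) - e k)‖ < 1 / 2 := by
  rw [norm_div, norm_sub_int, div_lt_iff₀ (one_pos.trans_le (dist_ge he hk))]
  have h1 := h.near s
  have h2 := dist_ge he hk
  linarith

theorem Lp.slit (h : Lp e i U X) (he : Function.Injective e) {k : Fin n} (hk : k ≠ i) (s : ℝ) :
    1 + (X s - e i) / ((e i : ℂ) - e k) ∈ Complex.slitPlane := by
  refine Complex.mem_slitPlane_iff.2 (Or.inl ?_)
  have h1 := h.small he hk s
  have h2 := Complex.abs_re_le_norm ((X s - e i) / ((e i : ℂ) - e k))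
  have h3 := (abs_le.1 h2).1
  rw [Complex.add_re, Complex.one_re]
  linarith

theorem Lp.ldf (h : Lp e i U X) (he : Function.Injective e) {k : Fin n} (hk : k ≠ i) :
    Ld (lf e i X k) where
  smooth := by
    rw [contDiff_iff_contDiffAt]
    intro s
    have h1 : ContDiff ℝ 2 fun s => 1 + (X s - e i) / ((e i : ℂ) - e k) :=
      contDiff_const.add ((h.smooth.sub contDiff_const).div_const _)
    exact ((Complex.contDiffAt_log (h.slit he hk s)).restrict_scalars ℝ).comp s h1.contDiffAt
  per s := by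
    unfold lf
    rw [h.per]

theorem Lp.eq_exp (h : Lp e i U X) (he : Function.Injective e) {k : Fin n} (hk : k ≠ i) (s : ℝ) :
    X s - e k = ((e i : ℂ) - e k) * Complex.exp (lf e i X k s) := by
  unfold lf
  rw [Complex.exp_log (Complex.slitPlane_ne_zero (h.slit he hk s))]
  have := sub_int_ne he hk
  field_simp
  ring

theorem Lp.norm_lf_le (h : Lp e i U X) (he : Function.Injective e) {k : Fin n} (hk : k ≠ i)
    (s : ℝ) : ‖lf e i X k s‖ ≤ ‖X s - e i‖ / (|(e i : ℝ) - e k| - ‖X s - e i‖) := by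
  unfold lf
  have h1 := h.small he hk s
  have h2 := h.near s
  have h3 := dist_ge he hk
  refine (Complex.norm_log_one_add_le (h1.trans (by norm_num))).trans ?_
  rw [norm_div, norm_sub_int]
  set z := ‖X s - e i‖ with hz
  set d := |(e i : ℝ) - e k| with hd
  have hz0 : 0 ≤ z := norm_nonneg _
  have hd0 : 0 < d := by linarith
  have hdz : 0 < d - z := by linarith
  have e1 : z / (d - z) = z / d + (z / d) ^ 2 * (1 - z / d)⁻¹ := by
    have h5 : (1 - z / d) = (d - z) / d := by field_simp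
    rw [h5]
    field_simp
    ring
  rw [e1]
  have h6 : 0 ≤ (z / d) ^ 2 * (1 - z / d)⁻¹ := by
    have h5 : (1 - z / d) = (d - z) / d := by field_simp
    rw [h5]
    positivity
  linarith

/-- the sum of the `ζ / (|e i - e k| - ζ)` -/
noncomputable def sg (e : Fin n → ℤ) (i : Fin n) (z : ℝ) : ℝ :=
  ∑ k ∈ Finset.univ.erase i, z / (|(e i : ℝ) - e k| - z)

theorem Lp.sum_norm_lf_le (h : Lp e i U X) (he : Function.Injective e) (s : ℝ) :
    ∑ k ∈ Finset.univ.erase i, ‖lf e i X k s‖ ≤ sg e i ‖X s - e i‖ :=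
  Finset.sum_le_sum fun _ hk => h.norm_lf_le he (Finset.ne_of_mem_erase hk) s

theorem Lp.hasDeriv (h : Lp e i U X) (s : ℝ) : HasDerivAt X (deriv X s) s :=
  (h.smooth.differentiable (by norm_num) s).hasDerivAt

theorem Lp.deriv_lf (h : Lp e i U X) (he : Function.Injective e) {k : Fin n} (hk : k ≠ i)
    (s : ℝ) : deriv (lf e i X k) s = deriv X s / (X s - e k) := by
  have h1 : HasDerivAt (lf e i X k) (deriv X s / ((e i : ℂ) - e k) /
      (1 + (X s - e i) / ((e i : ℂ) - e k))) s :=
    ((((h.hasDeriv s).sub_const (e i : ℂ)).div_const ((e i : ℂ) - e k)).const_add 1).clog_real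
      (h.slit he hk s)
  rw [h1.deriv]
  have h2 := sub_int_ne he hk
  have h3 : (1 + (X s - e i) / ((e i : ℂ) - e k)) = (X s - e k) / ((e i : ℂ) - e k) := by
    field_simp
    ring
  have h4 : X s - e k ≠ 0 := by
    rw [h.eq_exp he hk]
    exact mul_ne_zero h2 (Complex.exp_ne_zero _)
  rw [h3]
  field_simp

theorem Lp.sum_norm_deriv_le (h : Lp e i U X) (he : Function.Injective e) {c : ℂ}
    (hc : ‖c‖ = 2 * π) (hU : ∀ s, HasDerivAt U (c * U s) s) (hU0 : ∀ s, U s ≠ 0) {σ : ℝ}
    (hσ : σ < 1) (s : ℝ) (hs : sg e i ‖X s - e i‖ ≤ σ) :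
    ∑ k ∈ Finset.univ.erase i, ‖deriv (lf e i X k) s‖ ≤ 2 * π * (σ / (1 - σ)) := by
  have hne : ∀ k, X s - e k ≠ 0 := by
    intro k hk
    have h1 := h.prod s
    rw [Finset.prod_eq_zero (Finset.mem_univ k) hk] at h1
    exact hU0 s h1.symm
  -- the logarithmic derivative of the product
  have h1 : ∑ k, deriv X s / (X s - e k) = c := by
    have h2 := logDeriv_prod (s := Finset.univ) (f := fun k s => X s - (e k : ℂ)) (x := s)
      (fun k _ => hne k) (fun k _ => ((h.hasDeriv s).sub_const (e k : ℂ)).differentiableAt)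
    have h3 : (fun s => ∏ k, (X s - (e k : ℂ))) = U := funext h.prod
    rw [h3, logDeriv_apply, (hU s).deriv, mul_div_cancel_right₀ _ (hU0 s)] at h2
    rw [h2]
    refine Finset.sum_congr rfl fun k _ => ?_
    rw [logDeriv_apply, ((h.hasDeriv s).sub_const (e k : ℂ)).deriv]
  set z := ‖X s - e i‖ with hz
  have hz0 : 0 < z := norm_pos_iff.2 (hne i)
  have hzh : z < 1 / 2 := h.near s
  set D := ‖deriv X s‖ with hD
  -- lower bounds of the distances
  have hdist : ∀ k, k ≠ i → |(e i : ℝ) - e k| - z ≤ ‖X s - e k‖ := by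
    intro k hk
    rw [← norm_sub_int, hz]
    have : (e i : ℂ) - e k = (X s - e k) - (X s - e i) := by ring
    rw [this, sub_le_iff_le_add]
    exact norm_sub_le _ _
  have hpos : ∀ k, k ≠ i → 0 < |(e i : ℝ) - e k| - z := by
    intro k hk
    have := dist_ge he hk
    linarith
  have hsum : ∑ k ∈ Finset.univ.erase i, 1 / ‖X s - e k‖ ≤ sg e i z / z := by
    unfold sg
    rw [Finset.sum_div]
    refine Finset.sum_le_sum fun k hk => ?_
    have hk' := Finset.ne_of_mem_erase hk
    have h5 : z / (|(e i : ℝ) - e k| - z) / z = 1 / (|(e i : ℝ) - e k| - z) := by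
      have := (hpos k hk').ne'
      field_simp
    rw [h5]
    exact one_div_le_one_div_of_le (hpos k hk') (hdist k hk')
  have hsum' : ∑ k ∈ Finset.univ.erase i, 1 / ‖X s - e k‖ ≤ σ / z :=
    hsum.trans (div_le_div_of_nonneg_right hs hz0.le)
  have hσ0 : 0 ≤ σ := by
    refine le_trans ?_ hs
    exact Finset.sum_nonneg fun k hk =>
      div_nonneg hz0.le (hpos k (Finset.ne_of_mem_erase hk)).le
  -- the bound of the derivative
  have hDle : D * (1 - σ) ≤ 2 * π * z := by
    rw [← Finset.add_sum_erase _ _ (Finset.mem_univ i)] at h1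
    have h6 : deriv X s / (X s - e i) = c - ∑ k ∈ Finset.univ.erase i, deriv X s / (X s - e k) := by
      linear_combination h1
    have h7 := congrArg norm h6
    rw [norm_div] at h7
    have h8 : D / z ≤ 2 * π + D * (σ / z) := by
      rw [hD, hz, h7, ← hc, ← hz, ← hD]
      refine (norm_sub_le _ _).trans (add_le_add le_rfl ?_)
      refine (norm_sum_le _ _).trans ?_
      have h9 : ∀ k ∈ Finset.univ.erase i, ‖deriv X s / (X s - e k)‖ = D * (1 / ‖X s - e k‖) := by
        intro k _
        rw [norm_div, ← hD]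
        ring
      rw [Finset.sum_congr rfl h9, ← Finset.mul_sum]
      exact mul_le_mul_of_nonneg_left hsum' (norm_nonneg _)
    have h10 := mul_le_mul_of_nonneg_right h8 hz0.le
    have h11 : D / z * z = D := by field_simp
    have h12 : (2 * π + D * (σ / z)) * z = 2 * π * z + D * σ := by field_simp
    rw [h11, h12] at h10
    linarith
  have h13 : ∀ k ∈ Finset.univ.erase i, ‖deriv (lf e i X k) s‖ = D * (1 / ‖X s - e k‖) := by
    intro k hk
    rw [h.deriv_lf he (Finset.ne_of_mem_erase hk), norm_div, ← hD]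
    ring
  rw [Finset.sum_congr rfl h13, ← Finset.mul_sum]
  have h1σ : 0 < 1 - σ := by linarith
  calc D * ∑ k ∈ Finset.univ.erase i, 1 / ‖X s - e k‖ ≤ D * (σ / z) :=
        mul_le_mul_of_nonneg_left hsum' (norm_nonneg _)
    _ ≤ (2 * π * z / (1 - σ)) * (σ / z) := by
        refine mul_le_mul_of_nonneg_right ?_ (by positivity)
        rw [le_div_iff₀ h1σ]
        exact hDle
    _ = 2 * π * (σ / (1 - σ)) := by
        field_simp

end Run7.h220.PQ
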