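import Pool.Agent.TH826.UH.Pair
set_option autoImplicit false

/-!
Regulator integrals of functions of the form `α exp Φ` on a loop.
-/

namespace Run7.h220.PQ

open MeasureTheory Set

open Pool.Agent.TH826.MK (circ norm_circ contDiff_circ hasDerivAt_circ circ_add_one)

open Pool.Agent.TH826.UH (pr NZ pr_mul pr_div pr_prod pr_const nz_circ ld_circ)

open scoped Real

variable {G H : ℝ → ℂ}

theorem pr_swap (G H : ℝ → ℂ) : pr G H = -pr H G := by
  unfold pr
  rw [← intervalIntegral.integral_neg]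
  refine intervalIntegral.integral_congr fun s _ => ?_
  ring

theorem pr_self (G : ℝ → ℂ) : pr G G = 0 := by
  have h := pr_swap G G
  linarith

theorem pr_div_left {G' : ℝ → ℂ} (hG : NZ G) (hG' : NZ G') (hH : NZ H) :
    pr (fun s => G s / G' s) H = pr G H - pr G' H := by
  rw [pr_swap, pr_div hH hG hG', pr_swap H G, pr_swap H G']
  ring

/-- a periodic function of class `C²` -/
structure Ld (Φ : ℝ → ℂ) : Prop where
  smooth : ContDiff ℝ 2 Φ
  per : ∀ s, Φ (s + 1) = Φ s

variable {Φ Ψ : ℝ → ℂ}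

theorem Ld.one_eq (h : Ld Φ) : Φ 1 = Φ 0 := by
  have := h.per 0
  rwa [zero_add] at this

theorem Ld.hasDeriv (h : Ld Φ) (s : ℝ) : HasDerivAt Φ (deriv Φ s) s :=
  (h.smooth.differentiable (by norm_num) s).hasDerivAt

theorem Ld.cont_deriv (h : Ld Φ) : Continuous (deriv Φ) :=
  h.smooth.continuous_deriv (by norm_num)

theorem Ld.integral_deriv (h : Ld Φ) : ∫ s in (0 : ℝ)..1, deriv Φ s = 0 := by
  rw [intervalIntegral.integral_eq_sub_of_hasDerivAt (fun s _ => h.hasDeriv s)
    (h.cont_deriv.intervalIntegrable _ _), h.one_eq, sub_self]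

theorem Ld.nz (h : Ld Φ) {α : ℂ} (hα : α ≠ 0) : NZ fun s => α * Complex.exp (Φ s) :=
  ⟨contDiff_const.mul h.smooth.cexp, fun _ => mul_ne_zero hα (Complex.exp_ne_zero _)⟩

theorem Ld.ld (h : Ld Φ) {α : ℂ} (hα : α ≠ 0) (s : ℝ) :
    deriv (fun s => α * Complex.exp (Φ s)) s / (α * Complex.exp (Φ s)) = deriv Φ s := by
  have h1 : HasDerivAt (fun s => α * Complex.exp (Φ s)) (α * (Complex.exp (Φ s) * deriv Φ s)) s :=
    (h.hasDeriv s).cexp.const_mul α
  rw [h1.deriv]
  have := Complex.exp_ne_zero (Φ s)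
  field_simp

theorem log_norm_exp {α : ℂ} (hα : α ≠ 0) (z : ℂ) :
    Real.log ‖α * Complex.exp z‖ = Real.log ‖α‖ + z.re := by
  rw [norm_mul, Real.log_mul (norm_ne_zero_iff.2 hα) (norm_ne_zero_iff.2 (Complex.exp_ne_zero z)),
    Complex.norm_exp, Real.log_exp]

theorem int_re {f : ℝ → ℂ} (hf : Continuous f) :
    ∫ s in (0 : ℝ)..1, (f s).re = (∫ s in (0 : ℝ)..1, f s).re :=
  Complex.reCLM.intervalIntegral_comp_comm (hf.intervalIntegrable (μ := volume) 0 1)

theorem int_im {f : ℝ → ℂ} (hf : Continuous f) :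
    ∫ s in (0 : ℝ)..1, (f s).im = (∫ s in (0 : ℝ)..1, f s).im :=
  Complex.imCLM.intervalIntegral_comp_comm (hf.intervalIntegrable (μ := volume) 0 1)

/-- the regulator of `{z, α exp Ψ}` on the circle -/
theorem pr_circ_exp {r : ℝ} (hr : 0 < r) (h : Ld Ψ) {α : ℂ} (hα : α ≠ 0)
    (hmean : ∫ s in (0 : ℝ)..1, Ψ s = 0) :
    pr (circ r) (fun s => α * Complex.exp (Ψ s)) = -(2 * π * Real.log ‖α‖) := by
  unfold pr
  simp only [ld_circ hr, norm_circ hr.le, h.ld hα, log_norm_exp hα]
  have i1 : Continuous fun s => Real.log r * (deriv Ψ s).im :=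
    continuous_const.mul (Complex.continuous_im.comp h.cont_deriv)
  have i3 : Continuous fun s => (Ψ s).re := Complex.continuous_re.comp h.smooth.continuous
  have i2 : Continuous fun s => (Real.log ‖α‖ + (Ψ s).re) * (2 * π) :=
    (continuous_const.add i3).mul continuous_const
  rw [intervalIntegral.integral_sub (i1.intervalIntegrable _ _) (i2.intervalIntegrable _ _),
    intervalIntegral.integral_const_mul, int_im h.cont_deriv, h.integral_deriv,
    intervalIntegral.integral_mul_const,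
    intervalIntegral.integral_add (continuous_const.intervalIntegrable _ _)
      (i3.intervalIntegrable _ _), int_re h.smooth.continuous, hmean]
  simp
  ring

/-- the regulator of `{α exp Φ, β exp Ψ}` -/
theorem abs_pr_exp_le (hΦ : Ld Φ) (hΨ : Ld Ψ) {α β : ℂ} (hα : α ≠ 0) (hβ : β ≠ 0) :
    |pr (fun s => α * Complex.exp (Φ s)) (fun s => β * Complex.exp (Ψ s))| ≤
      ∫ s in (0 : ℝ)..1, ‖Φ s‖ * ‖deriv Ψ s‖ := by
  have cΦ := hΦ.smooth.continuous
  have cΨ := hΨ.smooth.continuous
  have cΦ' := hΦ.cont_deriv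
  have cΨ' := hΨ.cont_deriv
  have e1 : pr (fun s => α * Complex.exp (Φ s)) (fun s => β * Complex.exp (Ψ s)) =
      (∫ s in (0 : ℝ)..1, Φ s * deriv Ψ s).im := by
    unfold pr
    simp only [hΦ.ld hα, hΨ.ld hβ, log_norm_exp hα, log_norm_exp hβ]
    have d1 : ∀ s, HasDerivAt (fun s => (Φ s).im * (Ψ s).re)
        ((deriv Φ s).im * (Ψ s).re + (Φ s).im * (deriv Ψ s).re) s := by
      intro s
      have h1 : HasDerivAt (fun s => (Φ s).im) (deriv Φ s).im s :=
        (Complex.imCLM.hasFDerivAt.comp_hasDerivAt s (hΦ.hasDeriv s))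
      have h2 : HasDerivAt (fun s => (Ψ s).re) (deriv Ψ s).re s :=
        (Complex.reCLM.hasFDerivAt.comp_hasDerivAt s (hΨ.hasDeriv s))
      exact h1.mul h2
    have c1 : Continuous fun s => (Real.log ‖α‖) * (deriv Ψ s).im :=
      continuous_const.mul (Complex.continuous_im.comp cΨ')
    have c2 : Continuous fun s => (Real.log ‖β‖) * (deriv Φ s).im :=
      continuous_const.mul (Complex.continuous_im.comp cΦ')
    have c3 : Continuous fun s => (deriv Φ s).im * (Ψ s).re + (Φ s).im * (deriv Ψ s).re :=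
      ((Complex.continuous_im.comp cΦ').mul (Complex.continuous_re.comp cΨ)).add
        ((Complex.continuous_im.comp cΦ).mul (Complex.continuous_re.comp cΨ'))
    have c4 : Continuous fun s => (Φ s * deriv Ψ s).im :=
      Complex.continuous_im.comp (cΦ.mul cΨ')
    have c12 : Continuous fun s => (Real.log ‖α‖) * (deriv Ψ s).im -
        (Real.log ‖β‖) * (deriv Φ s).im := c1.sub c2
    have c123 : Continuous fun s => ((Real.log ‖α‖) * (deriv Ψ s).im -
        (Real.log ‖β‖) * (deriv Φ s).im) -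
        ((deriv Φ s).im * (Ψ s).re + (Φ s).im * (deriv Ψ s).re) := c12.sub c3
    have hz : ∫ s in (0 : ℝ)..1, ((deriv Φ s).im * (Ψ s).re + (Φ s).im * (deriv Ψ s).re) = 0 := by
      rw [intervalIntegral.integral_eq_sub_of_hasDerivAt (fun s _ => d1 s)
        (c3.intervalIntegrable _ _), hΦ.one_eq, hΨ.one_eq, sub_self]
    have e2 : (fun s => (Real.log ‖α‖ + (Φ s).re) * (deriv Ψ s).im -
        (Real.log ‖β‖ + (Ψ s).re) * (deriv Φ s).im) = fun s =>
        (((Real.log ‖α‖) * (deriv Ψ s).im - (Real.log ‖β‖) * (deriv Φ s).im) -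
        ((deriv Φ s).im * (Ψ s).re + (Φ s).im * (deriv Ψ s).re)) +
        (Φ s * deriv Ψ s).im := by
      funext s
      rw [Complex.mul_im]
      ring
    rw [e2, intervalIntegral.integral_add (c123.intervalIntegrable _ _)
      (c4.intervalIntegrable _ _), intervalIntegral.integral_sub
      (c12.intervalIntegrable _ _) (c3.intervalIntegrable _ _), hz,
      intervalIntegral.integral_sub (c1.intervalIntegrable _ _) (c2.intervalIntegrable _ _),
      intervalIntegral.integral_const_mul, intervalIntegral.integral_const_mul,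
      int_im cΨ', int_im cΦ', hΦ.integral_deriv, hΨ.integral_deriv,
      int_im (f := fun s => Φ s * deriv Ψ s) (cΦ.mul cΨ')]
    simp
  rw [e1]
  refine (Complex.abs_im_le_norm _).trans ?_
  refine (intervalIntegral.norm_integral_le_integral_norm zero_le_one).trans_eq ?_
  refine intervalIntegral.integral_congr fun s _ => ?_
  simp only [norm_mul]

end Run7.h220.PQ
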