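import Pool.Agent.TH826.MK.Milnor
set_option autoImplicit false

/-!
The curves `N ∏ (x - a_k) ∏ (y - b_l) = 1` over `ℚ`, and the symbols
`{(x - a_k)/(x - a_k'), (y - b_l)/(y - b_l')}`.
-/

namespace Run7.h220.PQ

open scoped WithZero

open Polynomial

open Pool.Agent.TH826.MK (KQ symb unitPart Unramified)

section Ring

variable {m n : ℕ} (a : Fin m → ℤ) (b : Fin n → ℤ) (N : ℤ)

/-- The polynomial `∏ (x - a_k)`. -/
noncomputable def lp (a : Fin m → ℤ) : ℚ[X] := ∏ k, (X - C (a k : ℚ))

/-- The polynomial `N ∏ (x - a_k) ∏ (y - b_l) - 1`, as a polynomial in `y` whose coefficients are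
polynomials in `x`. -/
noncomputable def eqn : ℚ[X][X] := C (C (N : ℚ) * lp a) * (lp b).map C - 1

/-- The coordinate ring of the affine curve `N ∏ (x - a_k) ∏ (y - b_l) = 1` over `ℚ`. -/
def CR : Type := AdjoinRoot (eqn a b N)

noncomputable instance : CommRing (CR a b N) := AdjoinRoot.instCommRing (eqn a b N)

/-- The polynomials in `x` as functions on the curve. -/
noncomputable def cpol : ℚ[X] →+* CR a b N := AdjoinRoot.of (eqn a b N)

/-- The constants. -/
noncomputable def cst : ℚ →+* CR a b N := (cpol a b N).comp C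

/-- The function `x`. -/
noncomputable def cx : CR a b N := cpol a b N X

/-- The function `y`. -/
noncomputable def cy : CR a b N := AdjoinRoot.root (eqn a b N)

theorem rel : cst a b N N * (∏ k, (cx a b N - cst a b N (a k))) *
    (∏ l, (cy a b N - cst a b N (b l))) = 1 := by
  have h : AdjoinRoot.mk (eqn a b N) (eqn a b N) = 0 := AdjoinRoot.mk_self
  have h2 : AdjoinRoot.mk (eqn a b N) (eqn a b N) =
      AdjoinRoot.mk (eqn a b N) (C (C (N : ℚ) * lp a)) *
        AdjoinRoot.mk (eqn a b N) ((lp b).map C) - 1 := by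
    conv_lhs => rw [show AdjoinRoot.mk (eqn a b N) (eqn a b N) = AdjoinRoot.mk (eqn a b N)
      (C (C (N : ℚ) * lp a) * (lp b).map C - 1) from rfl]
    rw [map_sub, map_mul, map_one]
  have h3 : AdjoinRoot.mk (eqn a b N) (C (C (N : ℚ) * lp a)) =
      cst a b N N * (∏ k, (cx a b N - cst a b N (a k))) := by
    rw [AdjoinRoot.mk_C, map_mul]
    unfold lp
    rw [map_prod]
    simp only [map_sub]
    rfl
  have h4 : AdjoinRoot.mk (eqn a b N) ((lp b).map C) =
      ∏ l, (cy a b N - cst a b N (b l)) := by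
    unfold lp
    rw [Polynomial.map_prod, map_prod]
    refine Finset.prod_congr rfl fun l _ => ?_
    rw [Polynomial.map_sub, Polynomial.map_X, Polynomial.map_C, map_sub, AdjoinRoot.mk_X,
      AdjoinRoot.mk_C]
    rfl
  rw [h2, h3, h4] at h
  exact sub_eq_zero.1 h

theorem isUnit_x (k : Fin m) : IsUnit (cx a b N - cst a b N (a k)) := by
  refine isUnit_of_dvd_one ?_
  rw [← rel a b N]
  exact Dvd.dvd.mul_right (Dvd.dvd.mul_left (Finset.dvd_prod_of_mem _ (Finset.mem_univ k)) _) _

theorem isUnit_y (l : Fin n) : IsUnit (cy a b N - cst a b N (b l)) := by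
  refine isUnit_of_dvd_one ?_
  rw [← rel a b N]
  exact Dvd.dvd.mul_left (Finset.dvd_prod_of_mem _ (Finset.mem_univ l)) _

/-- The unit `x - a_k`. -/
noncomputable def ux (k : Fin m) : (CR a b N)ˣ := (isUnit_x a b N k).unit

/-- The unit `y - b_l`. -/
noncomputable def uy (l : Fin n) : (CR a b N)ˣ := (isUnit_y a b N l).unit

/-- The entries of the symbol `{(x - a_k) / (x - a_k'), (y - b_l) / (y - b_l')}`. -/
noncomputable def ent (k k' : Fin m) (l l' : Fin n) : Fin 2 → (CR a b N)ˣ :=
  ![ux a b N k / ux a b N k', uy a b N l / uy a b N l']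

end Ring

section Unram

variable {m n : ℕ} {a : Fin m → ℤ} {b : Fin n → ℤ} {N : ℤ} {L : Type*} [Field L]
  (f : CR a b N →+* L) (v : Valuation L ℤᵐ⁰)

theorem val_int (z : ℤ) : v (z : L) ≤ 1 := intCast_mem v.integer z

theorem map_cst_int (z : ℤ) : f (cst a b N z) = z := map_intCast (f.comp (cst a b N)) z

theorem map_ux (k : Fin m) : f (ux a b N k : CR a b N) = f (cx a b N) - a k := by
  have h : (ux a b N k : CR a b N) = cx a b N - cst a b N (a k) := rfl
  rw [h, map_sub, map_cst_int]

theorem map_uy (l : Fin n) : f (uy a b N l : CR a b N) = f (cy a b N) - b l := by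
  have h : (uy a b N l : CR a b N) = cy a b N - cst a b N (b l) := rfl
  rw [h, map_sub, map_cst_int]

theorem map_rel : (N : L) * (∏ k, (f (cx a b N) - a k)) * (∏ l, (f (cy a b N) - b l)) = 1 := by
  have h := congrArg f (rel a b N)
  simp only [map_mul, map_prod, map_sub, map_one, map_cst_int] at h
  exact h

/-- A quotient of two translates by integers is a one-unit at a pole. -/
theorem one_unit {x : L} (hx : 1 < v x) (p q : ℤ) :
    v ((x - p) / (x - q) - 1) < 1 := by
  have h1 : v (x - q) = v x := Valuation.map_sub_eq_of_lt_left v ((val_int v q).trans_lt hx)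
  have h0 : x - q ≠ 0 := by
    intro h
    rw [h, map_zero] at h1
    rw [← h1] at hx
    exact absurd hx (not_lt.2 zero_le_one)
  have e : (x - p) / (x - q) - 1 = (q - p) / (x - q) := by
    field_simp
    ring
  rw [e, map_div₀, h1, div_lt_one₀ (zero_lt_one.trans hx)]
  exact ((v.map_sub _ _).trans (max_le (val_int v q) (val_int v p))).trans_lt hx

theorem units_of_integral (hx : v (f (cx a b N)) ≤ 1) (hy : v (f (cy a b N)) ≤ 1) :
    (∀ k, v (f (cx a b N) - a k) = 1) ∧ ∀ l, v (f (cy a b N) - b l) = 1 := by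
  have hX : ∀ k, v (f (cx a b N) - a k) ≤ 1 := fun k =>
    (v.map_sub _ _).trans (max_le hx (val_int v _))
  have hY : ∀ l, v (f (cy a b N) - b l) ≤ 1 := fun l =>
    (v.map_sub _ _).trans (max_le hy (val_int v _))
  have h := congrArg v (map_rel f)
  rw [map_mul, map_mul, map_one] at h
  have hPX : v (∏ k, (f (cx a b N) - a k)) ≤ 1 := by
    rw [map_prod]
    exact Finset.prod_le_one' fun k _ => hX k
  have hPY : v (∏ l, (f (cy a b N) - b l)) ≤ 1 := by
    rw [map_prod]
    exact Finset.prod_le_one' fun k _ => hY k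
  have hN := val_int v N
  constructor
  · intro k
    refine le_antisymm (hX k) ?_
    by_contra hlt
    rw [not_le] at hlt
    have h1 : v (∏ k, (f (cx a b N) - a k)) < 1 := by
      rw [map_prod, ← Finset.mul_prod_erase _ _ (Finset.mem_univ k)]
      exact mul_lt_one_of_lt_of_le hlt (Finset.prod_le_one' fun k _ => hX k)
    have h2 : v (N : L) * v (∏ k, (f (cx a b N) - a k)) * v (∏ l, (f (cy a b N) - b l)) < 1 :=
      mul_lt_one_of_lt_of_le ((mul_comm _ _).trans_lt (mul_lt_one_of_lt_of_le h1 hN)) hPY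
    exact h2.ne h
  · intro l
    refine le_antisymm (hY l) ?_
    by_contra hlt
    rw [not_le] at hlt
    have h1 : v (∏ l, (f (cy a b N) - b l)) < 1 := by
      rw [map_prod, ← Finset.mul_prod_erase _ _ (Finset.mem_univ l)]
      exact mul_lt_one_of_lt_of_le hlt (Finset.prod_le_one' fun k _ => hY k)
    have h2 : v (N : L) * v (∏ k, (f (cx a b N) - a k)) * v (∏ l, (f (cy a b N) - b l)) < 1 :=
      (mul_comm _ _).trans_lt (mul_lt_one_of_lt_of_le h1 (mul_le_one' hN hPX))
    exact h2.ne h

theorem symb_mem_unitPart (k k' : Fin m) (l l' : Fin n) :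
    symb (fun i => Units.map (f : CR a b N →* L) (ent a b N k k' l l' i)) ∈ unitPart v 2 := by
  set u : Fin 2 → Lˣ := fun i => Units.map (f : CR a b N →* L) (ent a b N k k' l l' i) with hu
  have hu0 : (u 0 : L) = (f (cx a b N) - a k) / (f (cx a b N) - a k') := by
    rw [← map_ux, ← map_ux]
    have h1 : u 0 = Units.map (f : CR a b N →* L) (ux a b N k) /
        Units.map (f : CR a b N →* L) (ux a b N k') :=
      map_div (Units.map (f : CR a b N →* L)) _ _
    rw [h1, Units.val_div_eq_div_val]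
    rfl
  have hu1 : (u 1 : L) = (f (cy a b N) - b l) / (f (cy a b N) - b l') := by
    rw [← map_uy, ← map_uy]
    have h1 : u 1 = Units.map (f : CR a b N →* L) (uy a b N l) /
        Units.map (f : CR a b N →* L) (uy a b N l') :=
      map_div (Units.map (f : CR a b N →* L)) _ _
    rw [h1, Units.val_div_eq_div_val]
    rfl
  rcases lt_or_ge 1 (v (f (cx a b N))) with hx | hx
  · refine Pool.Agent.TH826.MK.mem_unitPart_of_oneUnit' v 0 u ?_
    rw [hu0]
    exact one_unit v hx _ _
  · rcases lt_or_ge 1 (v (f (cy a b N))) with hy | hy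
    · refine Pool.Agent.TH826.MK.mem_unitPart_of_oneUnit' v 1 u ?_
      rw [hu1]
      exact one_unit v hy _ _
    · obtain ⟨h1, h2⟩ := units_of_integral f v hx hy
      refine Submodule.subset_span ⟨u, fun i => ?_, rfl⟩
      fin_cases i
      · show v (u 0 : L) = 1
        rw [hu0, map_div₀, h1, h1, div_one]
      · show v (u 1 : L) = 1
        rw [hu1, map_div₀, h2, h2, div_one]

theorem symb_mem_unramified (k k' : Fin m) (l l' : Fin n) :
    KQ.map 2 f (symb (ent a b N k k' l l')) ∈ Unramified L 2 := by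
  rw [KQ.map_symb]
  unfold Unramified
  simp only [Submodule.mem_iInf]
  intro v _
  exact symb_mem_unitPart f v k k' l l'

end Unram

section Domain

variable {m n : ℕ} {a : Fin m → ℤ} {b : Fin n → ℤ} {N : ℤ}

theorem lp_monic (b : Fin n → ℤ) : (lp b).Monic := monic_prod_of_monic _ _ fun _ _ =>
  monic_X_sub_C _

theorem lp_natDegree (b : Fin n → ℤ) : (lp b).natDegree = n := by
  unfold lp
  rw [natDegree_prod_of_monic _ _ fun i _ => monic_X_sub_C _]
  simp only [natDegree_X_sub_C, Finset.sum_const, Finset.card_univ, Fintype.card_fin, smul_eq_mul,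
    mul_one]

theorem eqn_coeff (k : ℕ) : (eqn a b N).coeff k =
    (C (N : ℚ) * lp a) * C ((lp b).coeff k) - if k = 0 then 1 else 0 := by
  unfold eqn
  rw [coeff_sub, coeff_C_mul, coeff_map, coeff_one]

theorem irreducible_of_reverse {R : Type*} [CommRing R] [IsDomain R] {f : R[X]}
    (h0 : f.coeff 0 ≠ 0) (h : Irreducible f.reverse) : Irreducible f := by
  have key : ∀ g : R[X], g.coeff 0 ≠ 0 → IsUnit g.reverse → IsUnit g := by
    intro g hg hu
    have h1 : g.natTrailingDegree = 0 := natTrailingDegree_eq_zero.2 (Or.inr hg)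
    have h2 := g.natDegree_eq_reverse_natDegree_add_natTrailingDegree
    rw [h1, natDegree_eq_zero_of_isUnit hu] at h2
    rw [eq_C_of_natDegree_eq_zero h2] at hu ⊢
    rwa [reverse_C] at hu
  constructor
  · intro hu
    refine h.not_isUnit ?_
    obtain ⟨r, hr, hr'⟩ := Polynomial.isUnit_iff.1 hu
    rw [← hr', reverse_C]
    exact Polynomial.isUnit_C.2 hr
  · intro g q hgq
    have h1 : f.reverse = g.reverse * q.reverse := by rw [hgq, reverse_mul_of_domain]
    have h2 : g.coeff 0 * q.coeff 0 ≠ 0 := by rwa [hgq, mul_coeff_zero] at h0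
    rcases h.isUnit_or_isUnit h1 with h3 | h3
    · exact Or.inl (key g (left_ne_zero_of_mul h2) h3)
    · exact Or.inr (key q (right_ne_zero_of_mul h2) h3)

theorem eqn_coeff_pos {k : ℕ} (hk : k ≠ 0) : (eqn a b N).coeff k =
    (C (N : ℚ) * lp a) * C ((lp b).coeff k) := by
  rw [eqn_coeff, if_neg hk, sub_zero]

theorem lp_ne_zero (a : Fin m → ℤ) : lp a ≠ 0 := (lp_monic a).ne_zero

theorem natDegree_eqn (hn : 0 < n) (hN : N ≠ 0) : (eqn a b N).natDegree = n := by
  refine natDegree_eq_of_le_of_coeff_ne_zero ?_ ?_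
  · rw [natDegree_le_iff_coeff_eq_zero]
    intro k hk
    rw [eqn_coeff_pos (by omega), coeff_eq_zero_of_natDegree_lt (by rwa [lp_natDegree]), C_0,
      mul_zero]
  · rw [eqn_coeff_pos (by omega)]
    have h1 : (lp b).coeff n = 1 := by
      have := (lp_monic b).coeff_natDegree
      rwa [lp_natDegree] at this
    rw [h1, C_1, mul_one]
    exact mul_ne_zero (C_ne_zero.2 (Int.cast_ne_zero.2 hN)) (lp_ne_zero a)

theorem irreducible_eqn (ha : Function.Injective a) (hm : 0 < m) (hn : 0 < n) (hN : N ≠ 0) :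
    Irreducible (eqn a b N) := by
  set p : ℚ[X] := C (N : ℚ) * lp a with hp
  set k0 : Fin m := ⟨0, hm⟩ with hk0
  set π : ℚ[X] := X - C (a k0 : ℚ) with hπ
  have hπp : Prime π := prime_X_sub_C _
  have hfac : p = π * (C (N : ℚ) * ∏ k ∈ Finset.univ.erase k0, (X - C (a k : ℚ))) := by
    rw [hp]
    unfold lp
    rw [← Finset.mul_prod_erase _ _ (Finset.mem_univ k0)]
    ring
  have hπdvd : π ∣ p := ⟨_, hfac⟩
  have hnd : ¬ π ^ 2 ∣ p := by
    rintro ⟨w, hw⟩
    rw [hfac, pow_two, mul_assoc] at hw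
    have h1 := mul_left_cancel₀ hπp.ne_zero hw
    have h2 := congrArg (Polynomial.eval (a k0 : ℚ)) h1
    rw [eval_mul, eval_mul, eval_C, eval_prod] at h2
    have h3 : Polynomial.eval (a k0 : ℚ) π = 0 := by
      rw [hπ, eval_sub, eval_X, eval_C, sub_self]
    rw [h3, zero_mul] at h2
    rcases mul_eq_zero.1 h2 with h4 | h4
    · exact hN (Int.cast_eq_zero.1 h4)
    · obtain ⟨k, hk, hk'⟩ := Finset.prod_eq_zero_iff.1 h4
      rw [eval_sub, eval_X, eval_C, sub_eq_zero] at hk'
      exact Finset.ne_of_mem_erase hk (ha (Int.cast_injective hk')).symm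
  have hdeg := natDegree_eqn (a := a) (b := b) hn hN
  have hc0 : (eqn a b N).coeff 0 = p * C ((lp b).coeff 0) - 1 := by
    rw [eqn_coeff, if_pos rfl]
  have hnot : ¬ π ∣ (eqn a b N).coeff 0 := by
    rw [hc0]
    intro h
    have h1 : π ∣ 1 := by
      have h2 := dvd_sub (hπdvd.mul_right (C ((lp b).coeff 0))) h
      rwa [sub_sub_cancel] at h2
    exact hπp.not_isUnit (isUnit_of_dvd_one h1)
  have hc0' : (eqn a b N).coeff 0 ≠ 0 := fun h => hnot (by rw [h]; exact dvd_zero _)
  have htd : (eqn a b N).natTrailingDegree = 0 := natTrailingDegree_eq_zero.2 (Or.inr hc0')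
  have hrdeg : (eqn a b N).reverse.natDegree = n := by
    rw [reverse_natDegree, htd, hdeg, Nat.sub_zero]
  have hrc : ∀ k, k ≤ n → (eqn a b N).reverse.coeff k = (eqn a b N).coeff (n - k) := by
    intro k hk
    rw [coeff_reverse, hdeg, revAt_le hk]
  have hcoe : ∀ k, k < n → (eqn a b N).reverse.coeff k = p * C ((lp b).coeff (n - k)) := by
    intro k hk
    rw [hrc k hk.le, eqn_coeff_pos (by omega)]
  have hlast : (eqn a b N).reverse.coeff n = p * C ((lp b).coeff 0) - 1 := by
    rw [hrc n le_rfl, Nat.sub_self, hc0]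
  have hfirst : (eqn a b N).reverse.coeff 0 = p := by
    have h1 : (lp b).coeff n = 1 := by
      have := (lp_monic b).coeff_natDegree
      rwa [lp_natDegree] at this
    rw [hcoe 0 hn, Nat.sub_zero, h1, C_1, mul_one]
  have hr0 : (eqn a b N).reverse ≠ 0 := by
    intro h
    rw [h, natDegree_zero] at hrdeg
    omega
  refine irreducible_of_reverse hc0' ?_
  refine irreducible_of_eisenstein_criterion (P := Ideal.span {π})
    ((Ideal.span_singleton_prime hπp.ne_zero).2 hπp) ?_ ?_ ?_ ?_ ?_
  · rw [Ideal.mem_span_singleton, leadingCoeff, hrdeg, hlast, ← hc0]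
    exact hnot
  · intro k hk
    rw [degree_eq_natDegree hr0, hrdeg] at hk
    rw [Ideal.mem_span_singleton, hcoe k (by exact_mod_cast hk)]
    exact hπdvd.mul_right _
  · rw [degree_eq_natDegree hr0, hrdeg]
    exact_mod_cast hn
  · rw [hfirst, Ideal.span_singleton_pow, Ideal.mem_span_singleton]
    exact hnd
  · intro r hr
    rw [C_dvd_iff_dvd_coeff] at hr
    have h1 := hr 0
    have h2 := hr n
    rw [hfirst] at h1
    rw [hlast] at h2
    have h3 := dvd_sub (h1.mul_right (C ((lp b).coeff 0))) h2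
    rw [sub_sub_cancel] at h3
    exact isUnit_of_dvd_one h3

theorem isDomain_CR (ha : Function.Injective a) (hm : 0 < m) (hn : 0 < n) (hN : N ≠ 0) :
    IsDomain (CR a b N) :=
  AdjoinRoot.isDomain_of_prime (irreducible_eqn ha hm hn hN).prime

end Domain

end Run7.h220.PQ
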