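import Pool.Agent.Run7.h220.PQRing
import Pool.Agent.Run7.h220.PQPair
import Pool.Agent.TH826.MK.Torus
set_option autoImplicit false

/-!
Loops in the complex points of the curve `N ∏ (x - a_k) ∏ (y - b_l) = 1`.
-/

namespace Run7.h220.PQ

open Polynomial

open Pool.Agent.TH826.MK (Torus symb pairing circ)

open Pool.Agent.TH826.UH (pr NZ pr_div pairing_eq_pr nz_circ)

variable {m n : ℕ} {a : Fin m → ℤ} {b : Fin n → ℤ} {N : ℤ}

theorem lp_eval (a : Fin m → ℤ) (x : ℂ) :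
    (lp a).eval₂ (algebraMap ℚ ℂ) x = ∏ k, (x - a k) := by
  unfold lp
  rw [Polynomial.eval₂_finsetProd]
  refine Finset.prod_congr rfl fun k _ => ?_
  rw [Polynomial.eval₂_sub, Polynomial.eval₂_X, Polynomial.eval₂_C]
  simp

/-- the complex points of the curve -/
def Pt (a : Fin m → ℤ) (b : Fin n → ℤ) (N : ℤ) (x y : ℂ) : Prop :=
  (N : ℂ) * (∏ k, (x - a k)) * (∏ l, (y - b l)) = 1

variable {x y : ℂ}

theorem eval_eqn (h : Pt a b N x y) :
    (eqn a b N).eval₂ (Polynomial.eval₂RingHom (algebraMap ℚ ℂ) x) y = 0 := by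
  unfold eqn
  rw [Polynomial.eval₂_sub, Polynomial.eval₂_mul, Polynomial.eval₂_C, Polynomial.eval₂_one,
    Polynomial.eval₂_map, Polynomial.coe_eval₂RingHom, Polynomial.eval₂_mul, Polynomial.eval₂_C,
    lp_eval]
  have h1 : (Polynomial.eval₂RingHom (algebraMap ℚ ℂ) x).comp C = algebraMap ℚ ℂ := by
    ext q
    simp
  rw [h1, lp_eval]
  have h2 : (algebraMap ℚ ℂ) (N : ℚ) = (N : ℂ) := map_intCast _ N
  rw [h2]
  exact sub_eq_zero.2 h

/-- evaluation of the regular functions on the curve -/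
noncomputable def Pt.ev (h : Pt a b N x y) : CR a b N →+* ℂ :=
  AdjoinRoot.lift (Polynomial.eval₂RingHom (algebraMap ℚ ℂ) x) y (eval_eqn h)

theorem Pt.ev_cpol (h : Pt a b N x y) (p : ℚ[X]) :
    h.ev (cpol a b N p) = p.eval₂ (algebraMap ℚ ℂ) x :=
  AdjoinRoot.lift_of _

theorem Pt.ev_cx (h : Pt a b N x y) : h.ev (cx a b N) = x := by
  unfold cx
  rw [h.ev_cpol, Polynomial.eval₂_X]

theorem Pt.ev_cy (h : Pt a b N x y) : h.ev (cy a b N) = y := AdjoinRoot.lift_root _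

theorem Pt.ev_cst (h : Pt a b N x y) (q : ℚ) : h.ev (cst a b N q) = q := by
  show h.ev (cpol a b N (C q)) = _
  rw [h.ev_cpol, Polynomial.eval₂_C]
  simp

theorem Pt.ev_ux (h : Pt a b N x y) (k : Fin m) : h.ev (ux a b N k : CR a b N) = x - a k := by
  rw [map_ux, h.ev_cx]

theorem Pt.ev_uy (h : Pt a b N x y) (l : Fin n) : h.ev (uy a b N l : CR a b N) = y - b l := by
  rw [map_uy, h.ev_cy]

theorem Pt.ev_congr {x' y' : ℂ} (h : Pt a b N x y) (h' : Pt a b N x' y') (e : x = x')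
    (e' : y = y') : h.ev = h'.ev := by
  subst e
  subst e'
  rfl

theorem contDiff_ev {d : ℕ} {X Y : (Fin d → ℝ) → ℂ} (hX : ContDiff ℝ 2 X)
    (hY : ContDiff ℝ 2 Y) (hP : ∀ θ, Pt a b N (X θ) (Y θ)) (r : CR a b N) :
    ContDiff ℝ 2 fun θ => (hP θ).ev r := by
  have hpol : ∀ p : ℚ[X], ContDiff ℝ 2 fun θ => p.eval₂ (algebraMap ℚ ℂ) (X θ) := by
    intro p
    have e : (fun θ => p.eval₂ (algebraMap ℚ ℂ) (X θ)) = fun θ =>
        ∑ i ∈ Finset.range (p.natDegree + 1), (algebraMap ℚ ℂ) (p.coeff i) * (X θ) ^ i := by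
      funext θ
      rw [Polynomial.eval₂_eq_sum_range]
    rw [e]
    exact ContDiff.sum fun i _ => contDiff_const.mul (hX.pow i)
  obtain ⟨p, hp⟩ := AdjoinRoot.mk_surjective (g := eqn a b N) r
  have e : (fun θ => (hP θ).ev r) = fun θ =>
      ∑ i ∈ Finset.range (p.natDegree + 1), (p.coeff i).eval₂ (algebraMap ℚ ℂ) (X θ) *
        (Y θ) ^ i := by
    funext θ
    rw [← hp]
    have h1 : (hP θ).ev (AdjoinRoot.mk (eqn a b N) p : AdjoinRoot (eqn a b N)) =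
      p.eval₂ (Polynomial.eval₂RingHom (algebraMap ℚ ℂ) (X θ)) (Y θ) := AdjoinRoot.lift_mk _ p
    rw [h1, Polynomial.eval₂_eq_sum_range]
    rfl
  rw [e]
  exact ContDiff.sum fun i _ => (hpol _).mul (hY.pow i)

/-- A loop on the curve. -/
noncomputable def mkL {X Y : ℝ → ℂ} (hX : ContDiff ℝ 2 X) (hY : ContDiff ℝ 2 Y)
    (hX1 : ∀ s, X (s + 1) = X s) (hY1 : ∀ s, Y (s + 1) = Y s)
    (hP : ∀ s, Pt a b N (X s) (Y s)) : Torus (CR a b N) 1 where
  e θ := (hP (θ 0)).ev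
  smooth r := contDiff_ev (X := fun θ => X (θ 0)) (Y := fun θ => Y (θ 0))
    (hX.comp (contDiff_apply ℝ ℝ 0)) (hY.comp (contDiff_apply ℝ ℝ 0)) (fun θ => hP (θ 0)) r
  periodic θ i := by
    have h0 : (θ + Pi.single i 1 : Fin 1 → ℝ) 0 = θ 0 + 1 := by
      rw [Pi.add_apply, Subsingleton.elim i 0, Pi.single_eq_same]
    refine Pt.ev_congr _ _ ?_ ?_
    · rw [h0, hX1]
    · rw [h0, hY1]

theorem mkL_e {X Y : ℝ → ℂ} (hX : ContDiff ℝ 2 X) (hY : ContDiff ℝ 2 Y)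
    (hX1 : ∀ s, X (s + 1) = X s) (hY1 : ∀ s, Y (s + 1) = Y s)
    (hP : ∀ s, Pt a b N (X s) (Y s)) (θ : Fin 1 → ℝ) :
    (mkL hX hY hX1 hY1 hP).e θ = (hP (θ 0)).ev := rfl

/-- The regulator of the symbol `{(x - a_k) / (x - a_k'), (y - b_l) / (y - b_l')}` on a loop. -/
theorem mkL_reg {X Y : ℝ → ℂ} (hX : ContDiff ℝ 2 X) (hY : ContDiff ℝ 2 Y)
    (hX1 : ∀ s, X (s + 1) = X s) (hY1 : ∀ s, Y (s + 1) = Y s)
    (hP : ∀ s, Pt a b N (X s) (Y s)) (k k' : Fin m) (l l' : Fin n) :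
    (mkL hX hY hX1 hY1 hP).reg (symb (ent a b N k k' l l')) =
      pp a b X Y k l - pp a b X Y k l' - pp a b X Y k' l + pp a b X Y k' l' := by
  have nx : ∀ s k, X s - a k ≠ 0 := by
    intro s k h
    have h1 : (N : ℂ) * (∏ k, (X s - a k)) * (∏ l, (Y s - b l)) = 1 := hP s
    rw [Finset.prod_eq_zero (Finset.mem_univ k) h, mul_zero, zero_mul] at h1
    exact zero_ne_one h1
  have ny : ∀ s l, Y s - b l ≠ 0 := by
    intro s l h
    have h1 : (N : ℂ) * (∏ k, (X s - a k)) * (∏ l, (Y s - b l)) = 1 := hP s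
    rw [Finset.prod_eq_zero (Finset.mem_univ l) h, mul_zero] at h1
    exact zero_ne_one h1
  have nX : ∀ k, NZ fun s => X s - a k := fun k => ⟨hX.sub contDiff_const, fun s => nx s k⟩
  have nY : ∀ l, NZ fun s => Y s - b l := fun l => ⟨hY.sub contDiff_const, fun s => ny s l⟩
  have e : pp a b X Y k l - pp a b X Y k l' - pp a b X Y k' l + pp a b X Y k' l' =
      pr (fun s => (X s - a k) / (X s - a k')) (fun s => (Y s - b l) / (Y s - b l')) := by
    rw [pr_div_left (nX k) (nX k') ((nY l).div (nY l')), pr_div (nX k) (nY l) (nY l'),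
      pr_div (nX k') (nY l) (nY l')]
    unfold pp
    ring
  rw [e, ← pairing_eq_pr ((nX k).div (nX k')) ((nY l).div (nY l')), Torus.reg_symb]
  unfold Torus.pair
  congr 1
  funext i θ
  fin_cases i
  · show (hP (θ 0)).ev ((ux a b N k / ux a b N k' : (CR a b N)ˣ) : CR a b N) =
      (X (θ 0) - a k) / (X (θ 0) - a k')
    have h1 : (hP (θ 0)).ev ((ux a b N k / ux a b N k' : (CR a b N)ˣ) : CR a b N) *
        (hP (θ 0)).ev (ux a b N k' : CR a b N) = (hP (θ 0)).ev (ux a b N k : CR a b N) := by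
      rw [← map_mul, ← Units.val_mul, div_mul_cancel]
    rw [Pt.ev_ux, Pt.ev_ux] at h1
    rw [eq_div_iff (nx _ _)]
    exact h1
  · show (hP (θ 0)).ev ((uy a b N l / uy a b N l' : (CR a b N)ˣ) : CR a b N) =
      (Y (θ 0) - b l) / (Y (θ 0) - b l')
    have h1 : (hP (θ 0)).ev ((uy a b N l / uy a b N l' : (CR a b N)ˣ) : CR a b N) *
        (hP (θ 0)).ev (uy a b N l' : CR a b N) = (hP (θ 0)).ev (uy a b N l : CR a b N) := by
      rw [← map_mul, ← Units.val_mul, div_mul_cancel]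
    rw [Pt.ev_uy, Pt.ev_uy] at h1
    rw [eq_div_iff (ny _ _)]
    exact h1

end Run7.h220.PQ
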