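import Pool.Agent.Run7.h220.Comb

/-!
# Symmetrization over subsets of the positions
-/

set_option autoImplicit false

open Finset

namespace Run7.h220.Comb

variable {P V : Type*} [AddCommGroup V] [Module ℚ V]

variable {L : Submodule ℚ (P →₀ ℚ)} {o : P}

variable {ι : Type*} [Finite ι]

/-- Evaluation of multilinear functions. -/
noncomputable def evalL {κ : Type*} (v : κ → (P →₀ ℚ)) :
    MultilinearMap ℚ (fun _ : κ => P →₀ ℚ) V →ₗ[ℚ] V where
  toFun G := G v
  map_add' _ _ := rfl
  map_smul' _ _ := rfl

/-- Fixing some of the variables preserves compatibility. -/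
lemma Compat.restrict {F : MultilinearMap ℚ (fun _ : ι => P →₀ ℚ) V} (hF : Compat L F)
    (p : ι → Prop) [DecidablePred p] (z : {i // ¬ p i} → (P →₀ ℚ)) :
    Compat L (F.domDomRestrict p z) := by
  intro h D hD
  have hT : ∑ x ∈ D.support, D x • (evalL (V := V)
      (fun i : {i // p i} => (Finsupp.single ((h i).getD x) 1 : P →₀ ℚ))).compMultilinearMap
      (F.domDomRestrictₗ p) = 0 := by
    refine mext_unique fun s => ?_
    rw [_root_.sum_apply, _root_.zero_apply]
    have h1 := hF (fun i => if hi : p i then h ⟨i, hi⟩ else some (s ⟨i, hi⟩)) D hD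
    rw [lin, Finsupp.linearCombination_apply, Finsupp.sum] at h1
    rw [← h1]
    refine Finset.sum_congr rfl fun x _ => ?_
    rw [_root_.smul_apply, LinearMap.compMultilinearMap_apply]
    congr 1
    change F _ = F _
    congr 1
    funext i
    by_cases hi : p i <;> simp [hi]
  have h2 : (∑ x ∈ D.support, D x • (evalL (V := V)
      (fun i : {i // p i} => (Finsupp.single ((h i).getD x) 1 : P →₀ ℚ))).compMultilinearMap
      (F.domDomRestrictₗ p)) z = 0 := by rw [hT, _root_.zero_apply]
  rw [_root_.sum_apply] at h2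
  rw [lin, Finsupp.linearCombination_apply, Finsupp.sum, ← h2]
  rfl

lemma Compat.domDomCongr {κ κ' : Type*} {F : MultilinearMap ℚ (fun _ : κ => P →₀ ℚ) V}
    (hF : Compat L F) (e : κ ≃ κ') : Compat L (F.domDomCongr e) := by
  intro h D hD
  exact hF (fun i => h (e i)) D hD

/-- Symmetrization over the subset `A` of the positions. -/
theorem symm_subset [DecidableEq ι] {F : MultilinearMap ℚ (fun _ : ι => P →₀ ℚ) V}
    (hF : Compat L F) {m : ℕ}
    (hL : ∀ F : MultilinearMap ℚ (fun _ : Fin m => P →₀ ℚ) V, Compat L F → ∀ (s : Fin m → P),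
      ∑ σ : Equiv.Perm (Fin m), F (fun j => u o (s (σ j))) = 0)
    (A : Finset ι) (hA : A.card = m) (s : ι → P) (c : ι → (P →₀ ℚ)) :
    ∑ ρ : Equiv.Perm A, F (fun i => if i ∈ A then u o (s (Equiv.Perm.ofSubtype ρ i)) else c i) =
      0 := by
  let e : A ≃ Fin m := A.equivFinOfCardEq hA
  have h1 := hL ((F.domDomRestrict (· ∈ A) (fun i => c i)).domDomCongr e)
    ((hF.restrict _ _).domDomCongr e) (fun j => s (e.symm j))
  rw [← h1, ← Equiv.sum_comp e.permCongr]
  refine Finset.sum_congr rfl fun ρ _ => ?_
  rw [MultilinearMap.domDomCongr_apply, MultilinearMap.domDomRestrict_apply]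
  congr 1
  funext i
  by_cases hi : i ∈ A
  · rw [if_pos hi, dif_pos hi, Equiv.permCongr_apply, Equiv.symm_apply_apply,
      Equiv.symm_apply_apply, Equiv.Perm.ofSubtype_apply_of_mem _ hi]
  · rw [if_neg hi, dif_neg hi]

lemma mext_apply {ι : Type*} [Fintype ι] [DecidableEq ι] {κ : ι → Type*} (f : (∀ i, κ i) → V)
    (b : ∀ i, κ i →₀ ℚ) :
    mext f b = ∑ s ∈ Fintype.piFinset (fun i => (b i).support), (∏ i, b i (s i)) • f s := by
  classical
  have h1 : b = fun i => ∑ x ∈ (b i).support, b i x • (Finsupp.single x 1 : κ i →₀ ℚ) := by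
    funext i
    conv_lhs => rw [← Finsupp.sum_single (b i)]
    rw [Finsupp.sum]
    refine Finset.sum_congr rfl fun x _ => ?_
    simp
  conv_lhs => rw [h1]
  rw [MultilinearMap.map_sum_finset]
  refine Finset.sum_congr rfl fun s _ => ?_
  rw [MultilinearMap.map_smul_univ, mext_single]

lemma Compat.update_zero [DecidableEq ι] {F : MultilinearMap ℚ (fun _ : ι => P →₀ ℚ) V}
    (hF : Compat L F) (b : ι → (P →₀ ℚ)) (i : ι) {D : P →₀ ℚ} (hD : D ∈ L) :
    F (Function.update b i D) = 0 := by
  have h1 := hF.restrict (· = i) (fun j => b j) (fun _ => none) D hD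
  have h2 : F.toLinearMap b i = lin (fun x => F (Function.update b i (Finsupp.single x 1))) := by
    refine Finsupp.lhom_ext fun x r => ?_
    have h3 : (Finsupp.single x r : P →₀ ℚ) = r • Finsupp.single x 1 := by simp
    rw [h3, map_smul, map_smul, lin_single, MultilinearMap.toLinearMap_apply]
  rw [← MultilinearMap.toLinearMap_apply, h2]
  refine Eq.trans ?_ h1
  congr 2
  funext x
  rw [MultilinearMap.domDomRestrict_apply]
  congr 1
  funext j
  by_cases hj : j = i
  · subst hj; simp
  · simp [hj]

/-- A compatible function depends on the classes of its arguments only. -/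
lemma Compat.congr {ι : Type*} [Fintype ι] {F : MultilinearMap ℚ (fun _ : ι => P →₀ ℚ) V}
    (hF : Compat L F) {a a' : ι → (P →₀ ℚ)} (h : ∀ i, a i - a' i ∈ L) : F a = F a' := by
  classical
  have key : ∀ S : Finset ι, F (S.piecewise a' a) = F a := by
    intro S
    induction S using Finset.induction with
    | empty => simp
    | insert i S hi ih =>
      rw [← ih, Finset.piecewise_insert]
      have h1 := hF.update_zero (S.piecewise a' a) i (h i)
      rw [F.map_update_sub, sub_eq_zero] at h1
      rw [← h1]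
      congr 1
      refine Function.update_eq_self_iff.2 ?_
      simp [hi]
  have h1 := key Finset.univ
  rw [Finset.piecewise_univ] at h1
  exact h1.symm

end Run7.h220.Comb
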