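import Mathlib

/-!
Operators on `Λ V ⊗ S` : exterior multiplication, contraction, multiplication by scalars.
-/

namespace Pool.Agent.Run7.h220.Vero

open TensorProduct

section ops

variable {k : Type*} [Field k] {V : Type*} [AddCommGroup V] [Module k V]
  {S : Type*} [CommRing S] [Algebra k S]

/-- left exterior multiplication by `v` -/
noncomputable def eOp (S : Type*) [CommRing S] [Algebra k S] (v : V) :
    (ExteriorAlgebra k V ⊗[k] S) →ₗ[k] (ExteriorAlgebra k V ⊗[k] S) :=
  LinearMap.rTensor S (LinearMap.mulLeft k (ExteriorAlgebra.ι k v))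

/-- multiplication by `g : S` -/
noncomputable def mOp (V : Type*) [AddCommGroup V] [Module k V] (g : S) :
    (ExteriorAlgebra k V ⊗[k] S) →ₗ[k] (ExteriorAlgebra k V ⊗[k] S) :=
  LinearMap.lTensor (ExteriorAlgebra k V) (LinearMap.mulLeft k g)

/-- contraction with the functional `φ` -/
noncomputable def iOp (S : Type*) [CommRing S] [Algebra k S] (φ : Module.Dual k V) :
    (ExteriorAlgebra k V ⊗[k] S) →ₗ[k] (ExteriorAlgebra k V ⊗[k] S) :=
  LinearMap.rTensor S (CliffordAlgebra.contractLeft (Q := (0 : QuadraticForm k V)) φ)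

@[simp] theorem eOp_tmul (v : V) (a : ExteriorAlgebra k V) (g : S) :
    eOp S v (a ⊗ₜ[k] g) = (ExteriorAlgebra.ι k v * a) ⊗ₜ[k] g := by
  simp [eOp]

@[simp] theorem mOp_tmul (h : S) (a : ExteriorAlgebra k V) (g : S) :
    mOp V h (a ⊗ₜ[k] g) = a ⊗ₜ[k] (h * g) := by
  simp [mOp]

@[simp] theorem iOp_tmul (φ : Module.Dual k V) (a : ExteriorAlgebra k V) (g : S) :
    iOp S φ (a ⊗ₜ[k] g) = (CliffordAlgebra.contractLeft (Q := (0 : QuadraticForm k V)) φ a) ⊗ₜ[k] g := by
  simp [iOp]

theorem iOp_eOp (φ : Module.Dual k V) (v : V) (c : ExteriorAlgebra k V ⊗[k] S) :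
    iOp S φ (eOp S v c) = φ v • c - eOp S v (iOp S φ c) := by
  induction c using TensorProduct.induction_on with
  | zero => simp
  | tmul a g =>
    rw [eOp_tmul, iOp_tmul, iOp_tmul, eOp_tmul]
    have := CliffordAlgebra.contractLeft_ι_mul (Q := (0 : QuadraticForm k V)) φ v a
    rw [show (ExteriorAlgebra.ι k v * a) = CliffordAlgebra.ι (0 : QuadraticForm k V) v * a from rfl,
      this, TensorProduct.sub_tmul, TensorProduct.smul_tmul']
  | add x y hx hy =>
    rw [map_add, map_add, hx, hy, map_add, map_add, smul_add]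
    abel

theorem iOp_iOp (φ ψ : Module.Dual k V) (c : ExteriorAlgebra k V ⊗[k] S) :
    iOp S φ (iOp S ψ c) = - iOp S ψ (iOp S φ c) := by
  induction c using TensorProduct.induction_on with
  | zero => simp
  | tmul a g =>
    rw [iOp_tmul, iOp_tmul, iOp_tmul, iOp_tmul, CliffordAlgebra.contractLeft_comm,
      TensorProduct.neg_tmul]
  | add x y hx hy =>
    rw [map_add, map_add, hx, hy, map_add, map_add]
    abel

theorem iOp_self (φ : Module.Dual k V) (c : ExteriorAlgebra k V ⊗[k] S) :
    iOp S φ (iOp S φ c) = 0 := by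
  induction c using TensorProduct.induction_on with
  | zero => simp
  | tmul a g =>
    rw [iOp_tmul, iOp_tmul, CliffordAlgebra.contractLeft_contractLeft, TensorProduct.zero_tmul]
  | add x y hx hy =>
    rw [map_add, map_add, hx, hy, add_zero]

theorem eOp_eOp (u v : V) (c : ExteriorAlgebra k V ⊗[k] S) :
    eOp S u (eOp S v c) = - eOp S v (eOp S u c) := by
  induction c using TensorProduct.induction_on with
  | zero => simp
  | tmul a g =>
    rw [eOp_tmul, eOp_tmul, eOp_tmul, eOp_tmul, ← mul_assoc, ← mul_assoc, ← TensorProduct.neg_tmul,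
      ← neg_mul, ← eq_neg_iff_add_eq_zero.2 (ExteriorAlgebra.ι_add_mul_swap u v)]
  | add x y hx hy =>
    rw [map_add, map_add, hx, hy, map_add, map_add]
    abel

theorem mOp_eOp (g : S) (v : V) (c : ExteriorAlgebra k V ⊗[k] S) :
    mOp V g (eOp S v c) = eOp S v (mOp V g c) := by
  induction c using TensorProduct.induction_on with
  | zero => simp
  | tmul a h => simp
  | add x y hx hy => simp only [map_add, hx, hy]

theorem mOp_iOp (g : S) (φ : Module.Dual k V) (c : ExteriorAlgebra k V ⊗[k] S) :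
    mOp V g (iOp S φ c) = iOp S φ (mOp V g c) := by
  induction c using TensorProduct.induction_on with
  | zero => simp
  | tmul a h => simp
  | add x y hx hy => simp only [map_add, hx, hy]

theorem mOp_mOp (g h : S) (c : ExteriorAlgebra k V ⊗[k] S) :
    mOp V g (mOp V h c) = mOp V (g * h) c := by
  induction c using TensorProduct.induction_on with
  | zero => simp
  | tmul a h => simp [mul_assoc]
  | add x y hx hy => simp only [map_add, hx, hy]

theorem mOp_add (g h : S) (c : ExteriorAlgebra k V ⊗[k] S) :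
    mOp V (g + h) c = mOp V g c + mOp V h c := by
  induction c using TensorProduct.induction_on with
  | zero => simp
  | tmul a x => simp [add_mul, TensorProduct.tmul_add]
  | add x y hx hy =>
    simp only [map_add, hx, hy]
    abel

theorem mOp_smul (r : k) (h : S) (c : ExteriorAlgebra k V ⊗[k] S) :
    mOp V (r • h) c = r • mOp V h c := by
  induction c using TensorProduct.induction_on with
  | zero => simp
  | tmul a x => simp
  | add x y hx hy => simp only [map_add, hx, hy, smul_add]

theorem mOp_sum {ι : Type*} (B : Finset ι) (g : ι → S) (c : ExteriorAlgebra k V ⊗[k] S) :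
    mOp V (∑ t ∈ B, g t) c = ∑ t ∈ B, mOp V (g t) c := by
  classical
  induction B using Finset.induction_on with
  | empty => simp [mOp]
  | insert t B ht ih => rw [Finset.sum_insert ht, Finset.sum_insert ht, mOp_add, ih]

/-- The Koszul differential, for a family `c t` of functionals and `x t` of elements of `S`. -/
noncomputable def dOp {ι : Type*} (B : Finset ι) (c : ι → Module.Dual k V) (x : ι → S) :
    (ExteriorAlgebra k V ⊗[k] S) →ₗ[k] (ExteriorAlgebra k V ⊗[k] S) :=
  ∑ t ∈ B, (iOp S (c t)) ∘ₗ (mOp V (x t))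

theorem dOp_apply {ι : Type*} (B : Finset ι) (c : ι → Module.Dual k V) (x : ι → S)
    (z : ExteriorAlgebra k V ⊗[k] S) :
    dOp B c x z = ∑ t ∈ B, iOp S (c t) (mOp V (x t) z) := by
  simp [dOp]

theorem dOp_eOp {ι : Type*} (B : Finset ι) (c : ι → Module.Dual k V) (x : ι → S) (v : V)
    (z : ExteriorAlgebra k V ⊗[k] S) :
    dOp B c x (eOp S v z) = mOp V (∑ t ∈ B, c t v • x t) z - eOp S v (dOp B c x z) := by
  rw [dOp_apply, dOp_apply, mOp_sum, map_sum, ← Finset.sum_sub_distrib]
  refine Finset.sum_congr rfl fun t _ => ?_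
  rw [mOp_eOp, iOp_eOp, mOp_smul]

theorem dOp_mOp {ι : Type*} (B : Finset ι) (c : ι → Module.Dual k V) (x : ι → S) (g : S)
    (z : ExteriorAlgebra k V ⊗[k] S) :
    dOp B c x (mOp V g z) = mOp V g (dOp B c x z) := by
  rw [dOp_apply, dOp_apply, map_sum]
  refine Finset.sum_congr rfl fun t _ => ?_
  rw [mOp_iOp, mOp_mOp, mOp_mOp, mul_comm]

theorem dOp_iOp {ι : Type*} (B : Finset ι) (c : ι → Module.Dual k V) (x : ι → S)
    (φ : Module.Dual k V) (z : ExteriorAlgebra k V ⊗[k] S) :
    iOp S φ (dOp B c x z) = - dOp B c x (iOp S φ z) := by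
  rw [dOp_apply, dOp_apply, map_sum, ← Finset.sum_neg_distrib]
  refine Finset.sum_congr rfl fun t _ => ?_
  rw [iOp_iOp, ← mOp_iOp, ← mOp_iOp]

theorem dOp_one {ι : Type*} (B : Finset ι) (c : ι → Module.Dual k V) (x : ι → S) (g : S) :
    dOp B c x ((1 : ExteriorAlgebra k V) ⊗ₜ[k] g) = 0 := by
  rw [dOp_apply]
  refine Finset.sum_eq_zero fun t _ => ?_
  rw [mOp_tmul, iOp_tmul]
  have := CliffordAlgebra.contractLeft_one (Q := (0 : QuadraticForm k V)) (c t)
  rw [show (CliffordAlgebra.contractLeft (Q := (0 : QuadraticForm k V)) (c t)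
    (1 : ExteriorAlgebra k V)) = 0 from this, TensorProduct.zero_tmul]

end ops

end Pool.Agent.Run7.h220.Vero
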