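import Pool.Agent.Run7.h220.VeroA

/-!
Cycles in `Λ V ⊗ S`, degree tracking, and the functional that detects them.
-/

namespace Pool.Agent.Run7.h220.Vero

open TensorProduct

section gen

variable {k : Type*} [Field k] {V : Type*} [AddCommGroup V] [Module k V]
  {S : Type*} [CommRing S] [Algebra k S]

/-- The image of `Λ^p V ⊗ W m` in `Λ V ⊗ S`. -/
noncomputable def G (V : Type*) [AddCommGroup V] [Module k V] (W : ℕ → Submodule k S) (p m : ℕ) :
    Submodule k (ExteriorAlgebra k V ⊗[k] S) :=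
  Submodule.span k {z | ∃ a ∈ ⋀[k]^p V, ∃ g ∈ W m, a ⊗ₜ[k] g = z}

theorem eOp_mem_G {W : ℕ → Submodule k S} {p m : ℕ} (v : V) {z : ExteriorAlgebra k V ⊗[k] S}
    (hz : z ∈ G V W p m) : eOp S v z ∈ G V W (p + 1) m := by
  unfold G at hz
  induction hz using Submodule.span_induction with
  | mem x hx =>
    obtain ⟨a, ha, g, hg, rfl⟩ := hx
    rw [eOp_tmul]
    refine Submodule.subset_span ⟨ExteriorAlgebra.ι k v * a, ?_, g, hg, rfl⟩
    have h1 : ExteriorAlgebra.ι k v ∈ LinearMap.range (ExteriorAlgebra.ι k (M := V)) :=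
      LinearMap.mem_range_self _ v
    have h2 := Submodule.mul_mem_mul h1 ha
    rw [← pow_succ'] at h2
    exact h2
  | zero => simp
  | add x y _ _ hx hy => rw [map_add]; exact Submodule.add_mem _ hx hy
  | smul c x _ hx => rw [map_smul]; exact Submodule.smul_mem _ _ hx

theorem mOp_mem_G {W : ℕ → Submodule k S} {p m m' : ℕ} {g : S}
    (hg : ∀ f ∈ W m, g * f ∈ W m') {z : ExteriorAlgebra k V ⊗[k] S}
    (hz : z ∈ G V W p m) : mOp V g z ∈ G V W p m' := by
  unfold G at hz
  induction hz using Submodule.span_induction with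
  | mem x hx =>
    obtain ⟨a, ha, f, hf, rfl⟩ := hx
    rw [mOp_tmul]
    exact Submodule.subset_span ⟨a, ha, g * f, hg f hf, rfl⟩
  | zero => simp
  | add x y _ _ hx hy => rw [map_add]; exact Submodule.add_mem _ hx hy
  | smul c x _ hx => rw [map_smul]; exact Submodule.smul_mem _ _ hx

theorem one_mem_G {W : ℕ → Submodule k S} {m : ℕ} {g : S} (hg : g ∈ W m) :
    ((1 : ExteriorAlgebra k V) ⊗ₜ[k] g) ∈ G V W 0 m := by
  refine Submodule.subset_span ⟨1, ?_, g, hg, rfl⟩
  change (1 : ExteriorAlgebra k V) ∈ (LinearMap.range (ExteriorAlgebra.ι k (M := V))) ^ 0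
  rw [pow_zero]
  exact Submodule.one_le.1 le_rfl

/-- The span of the elements `X ∧ c`, `X ∈ P`. -/
noncomputable def NN (S : Type*) [CommRing S] [Algebra k S] (P : Set V) :
    Submodule k (ExteriorAlgebra k V ⊗[k] S) :=
  Submodule.span k {z | ∃ X ∈ P, ∃ c, eOp S X c = z}

theorem eOp_mem_NN' {P : Set V} {X : V} (hX : X ∈ P) (c : ExteriorAlgebra k V ⊗[k] S) :
    eOp S X c ∈ NN S P := Submodule.subset_span ⟨X, hX, c, rfl⟩

theorem map_mem_NN {P : Set V} (F : (ExteriorAlgebra k V ⊗[k] S) →ₗ[k] (ExteriorAlgebra k V ⊗[k] S))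
    (hF : ∀ X ∈ P, ∀ c, F (eOp S X c) ∈ NN S P) {z : ExteriorAlgebra k V ⊗[k] S}
    (hz : z ∈ NN S P) : F z ∈ NN S P := by
  unfold NN at hz
  induction hz using Submodule.span_induction with
  | mem x hx =>
    obtain ⟨X, hX, c, rfl⟩ := hx
    exact hF X hX c
  | zero => simp
  | add x y _ _ hx hy => rw [map_add]; exact Submodule.add_mem _ hx hy
  | smul a x _ hx => rw [map_smul]; exact Submodule.smul_mem _ _ hx

theorem eOp_mem_NN {P : Set V} (v : V) {z : ExteriorAlgebra k V ⊗[k] S} (hz : z ∈ NN S P) :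
    eOp S v z ∈ NN S P := by
  refine map_mem_NN _ (fun X hX c => ?_) hz
  rw [eOp_eOp]
  exact Submodule.neg_mem _ (eOp_mem_NN' hX _)

theorem mOp_mem_NN {P : Set V} (g : S) {z : ExteriorAlgebra k V ⊗[k] S} (hz : z ∈ NN S P) :
    mOp V g z ∈ NN S P := by
  refine map_mem_NN _ (fun X hX c => ?_) hz
  rw [mOp_eOp]
  exact eOp_mem_NN' hX _

theorem iOp_mem_NN {P : Set V} (φ : Module.Dual k V) (hφ : ∀ X ∈ P, φ X = 0)
    {z : ExteriorAlgebra k V ⊗[k] S} (hz : z ∈ NN S P) :
    iOp S φ z ∈ NN S P := by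
  refine map_mem_NN _ (fun X hX c => ?_) hz
  rw [iOp_eOp, hφ X hX, zero_smul, zero_sub]
  exact Submodule.neg_mem _ (eOp_mem_NN' hX _)

/-- the projection `Λ V ⊗ S → S` -/
noncomputable def eps (V : Type*) [AddCommGroup V] [Module k V] (S : Type*) [CommRing S]
    [Algebra k S] : (ExteriorAlgebra k V ⊗[k] S) →ₗ[k] S :=
  (TensorProduct.lid k S).toLinearMap ∘ₗ
    LinearMap.rTensor S (ExteriorAlgebra.algebraMapInv (R := k) (M := V)).toLinearMap

theorem eps_tmul (a : ExteriorAlgebra k V) (g : S) :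
    eps V S (a ⊗ₜ[k] g) = (ExteriorAlgebra.algebraMapInv (R := k) (M := V) a) • g := by
  simp [eps]

theorem eps_eOp (v : V) (z : ExteriorAlgebra k V ⊗[k] S) : eps V S (eOp S v z) = 0 := by
  induction z using TensorProduct.induction_on with
  | zero => simp
  | tmul a g =>
    rw [eOp_tmul, eps_tmul, map_mul]
    have : (ExteriorAlgebra.algebraMapInv (R := k) (M := V)) (ExteriorAlgebra.ι k v) = 0 := by
      simp [ExteriorAlgebra.algebraMapInv]
    rw [this, zero_mul, zero_smul]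
  | add x y hx hy => rw [map_add, map_add, hx, hy, add_zero]

theorem eps_mOp (g : S) (z : ExteriorAlgebra k V ⊗[k] S) :
    eps V S (mOp V g z) = g * eps V S z := by
  induction z using TensorProduct.induction_on with
  | zero => simp
  | tmul a f => rw [mOp_tmul, eps_tmul, eps_tmul, mul_smul_comm]
  | add x y hx hy => rw [map_add, map_add, hx, hy, map_add, mul_add]

theorem eps_NN {P : Set V} {z : ExteriorAlgebra k V ⊗[k] S} (hz : z ∈ NN S P) :
    eps V S z = 0 := by
  unfold NN at hz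
  induction hz using Submodule.span_induction with
  | mem x hx =>
    obtain ⟨X, hX, c, rfl⟩ := hx
    exact eps_eOp _ _
  | zero => simp
  | add x y _ _ hx hy => rw [map_add, hx, hy, add_zero]
  | smul a x _ hx => rw [map_smul, hx, smul_zero]

variable {ι : Type*}

/-- successive exterior multiplication by the vectors `w t`, `t ∈ L` -/
noncomputable def EL (S : Type*) [CommRing S] [Algebra k S] (w : ι → V) :
    List ι → (ExteriorAlgebra k V ⊗[k] S) →ₗ[k] (ExteriorAlgebra k V ⊗[k] S)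
  | [] => LinearMap.id
  | t :: L => eOp S (w t) ∘ₗ EL S w L

/-- successive contraction with the functionals `c t`, `t ∈ L` -/
noncomputable def IL (S : Type*) [CommRing S] [Algebra k S] (c : ι → Module.Dual k V) :
    List ι → (ExteriorAlgebra k V ⊗[k] S) →ₗ[k] (ExteriorAlgebra k V ⊗[k] S)
  | [] => LinearMap.id
  | t :: L => IL S c L ∘ₗ iOp S (c t)

theorem EL_cons (w : ι → V) (t : ι) (L : List ι) (z : ExteriorAlgebra k V ⊗[k] S) :
    EL S w (t :: L) z = eOp S (w t) (EL S w L z) := rfl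

theorem IL_cons (c : ι → Module.Dual k V) (t : ι) (L : List ι)
    (z : ExteriorAlgebra k V ⊗[k] S) :
    IL S c (t :: L) z = IL S c L (iOp S (c t) z) := rfl

theorem EL_append (w : ι → V) (L L' : List ι) (z : ExteriorAlgebra k V ⊗[k] S) :
    EL S w (L ++ L') z = EL S w L (EL S w L' z) := by
  induction L with
  | nil => rfl
  | cons t L ih => rw [List.cons_append, EL_cons, EL_cons, ih]

theorem EL_mem_NN {P : Set V} (w : ι → V) (L : List ι) {z : ExteriorAlgebra k V ⊗[k] S}
    (hz : z ∈ NN S P) : EL S w L z ∈ NN S P := by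
  induction L with
  | nil => exact hz
  | cons t L ih => rw [EL_cons]; exact eOp_mem_NN _ ih

theorem mOp_EL (w : ι → V) (L : List ι) (g : S) (z : ExteriorAlgebra k V ⊗[k] S) :
    mOp V g (EL S w L z) = EL S w L (mOp V g z) := by
  induction L with
  | nil => rfl
  | cons t L ih => rw [EL_cons, EL_cons, mOp_eOp, ih]

theorem IL_mem_NN {P : Set V} (c : ι → Module.Dual k V) (L : List ι)
    (hc : ∀ t ∈ L, ∀ X ∈ P, c t X = 0) {z : ExteriorAlgebra k V ⊗[k] S}
    (hz : z ∈ NN S P) : IL S c L z ∈ NN S P := by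
  induction L generalizing z with
  | nil => exact hz
  | cons t L ih =>
    rw [IL_cons]
    exact ih (fun s hs => hc s (List.mem_cons_of_mem _ hs))
      (iOp_mem_NN _ (hc t List.mem_cons_self) hz)

theorem iOp_IL (c : ι → Module.Dual k V) (L : List ι) (φ : Module.Dual k V)
    (z : ExteriorAlgebra k V ⊗[k] S) :
    iOp S φ (IL S c L z) = (-1 : k) ^ L.length • IL S c L (iOp S φ z) := by
  induction L generalizing z with
  | nil => simp [IL]
  | cons t L ih =>
    rw [IL_cons, IL_cons, ih, iOp_iOp, map_neg, List.length_cons, pow_succ]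
    simp

theorem iOp_IL_self (c : ι → Module.Dual k V) (L : List ι) {t : ι} (ht : t ∈ L)
    (z : ExteriorAlgebra k V ⊗[k] S) :
    iOp S (c t) (IL S c L z) = 0 := by
  induction L generalizing z with
  | nil => simp at ht
  | cons s L ih =>
    rw [IL_cons]
    rcases List.mem_cons.1 ht with rfl | h
    · rw [iOp_IL, iOp_self, map_zero, smul_zero]
    · exact ih h _

theorem IL_dOp (c : ι → Module.Dual k V) (L : List ι) (B : Finset ι) (c' : ι → Module.Dual k V)
    (x : ι → S) (z : ExteriorAlgebra k V ⊗[k] S) :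
    IL S c L (dOp B c' x z) = (-1 : k) ^ L.length • dOp B c' x (IL S c L z) := by
  induction L generalizing z with
  | nil => simp [IL]
  | cons t L ih =>
    rw [IL_cons, IL_cons, dOp_iOp, map_neg, ih, List.length_cons, pow_succ]
    simp

theorem iOp_EL_notMem (c : ι → Module.Dual k V) (w : ι → V) (L : List ι) (t : ι)
    (h : ∀ s ∈ L, c t (w s) = 0) (g : S) :
    iOp S (c t) (EL S w L ((1 : ExteriorAlgebra k V) ⊗ₜ[k] g)) = 0 := by
  induction L with
  | nil =>
    change iOp S (c t) ((1 : ExteriorAlgebra k V) ⊗ₜ[k] g) = 0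
    rw [iOp_tmul]
    have := CliffordAlgebra.contractLeft_one (Q := (0 : QuadraticForm k V)) (c t)
    rw [show (CliffordAlgebra.contractLeft (Q := (0 : QuadraticForm k V)) (c t)
      (1 : ExteriorAlgebra k V)) = 0 from this, TensorProduct.zero_tmul]
  | cons s L ih =>
    rw [EL_cons, iOp_eOp, h s List.mem_cons_self, zero_smul,
      ih (fun s hs => h s (List.mem_cons_of_mem _ hs)), map_zero, sub_zero]

theorem IL_EL (c : ι → Module.Dual k V) (w : ι → V) (L : List ι) (hL : L.Nodup)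
    (h1 : ∀ t ∈ L, c t (w t) = 1) (h0 : ∀ t ∈ L, ∀ s ∈ L, t ≠ s → c t (w s) = 0) (g : S) :
    IL S c L (EL S w L ((1 : ExteriorAlgebra k V) ⊗ₜ[k] g)) =
      (1 : ExteriorAlgebra k V) ⊗ₜ[k] g := by
  induction L with
  | nil => rfl
  | cons t L ih =>
    rw [List.nodup_cons] at hL
    rw [EL_cons, IL_cons, iOp_eOp, h1 t List.mem_cons_self, one_smul, iOp_EL_notMem, map_zero,
      sub_zero]
    · exact ih hL.2 (fun s hs => h1 s (List.mem_cons_of_mem _ hs))
        (fun s hs s' hs' => h0 s (List.mem_cons_of_mem _ hs) s' (List.mem_cons_of_mem _ hs'))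
    · intro s hs
      refine h0 t List.mem_cons_self s (List.mem_cons_of_mem _ hs) ?_
      rintro rfl
      exact hL.1 hs

/-- killing one variable: the group of vectors `w t`, `t ∈ L`, all of whose images are divisible
by `y`. -/
theorem group_cycle (W : ℕ → Submodule k S) (B : Finset ι) (c : ι → Module.Dual k V) (x : ι → S)
    (w : ι → V) (X : V) (y xa : S) (a p m : ℕ)
    (_hX : (∑ t ∈ B, c t X • x t) = xa * y)
    (L : List ι)
    (hL : ∀ s ∈ L, ∃ h : S, (∑ t ∈ B, c t (w s) • x t) = y * h ∧ ∀ f ∈ W m, h * f ∈ W (m + a))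
    (b : ExteriorAlgebra k V ⊗[k] S) (hb : dOp B c x b = 0) (hbG : b ∈ G V W p m) :
    ∃ θ : ExteriorAlgebra k V ⊗[k] S, dOp B c x (EL S w L b) = mOp V y θ ∧
      dOp B c x θ = 0 ∧ eOp S X θ ∈ G V W (p + L.length) (m + a) ∧
      EL S w L b ∈ G V W (p + L.length) m := by
  induction L with
  | nil =>
    exact ⟨0, by simpa [EL] using hb, by simp, by simp, hbG⟩
  | cons s L ih =>
    obtain ⟨θ, h1, h2, h3, h4⟩ := ih (fun s hs => hL s (List.mem_cons_of_mem _ hs))
    obtain ⟨h, hh, hW⟩ := hL s List.mem_cons_self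
    refine ⟨mOp V h (EL S w L b) - eOp S (w s) θ, ?_, ?_, ?_, ?_⟩
    · rw [EL_cons, dOp_eOp, hh, h1, map_sub, mOp_mOp, mOp_eOp]
    · rw [map_sub, dOp_mOp, h1, dOp_eOp, hh, h2, map_zero, sub_zero, mOp_mOp, mul_comm h y,
        sub_self]
    · rw [map_sub, ← mOp_eOp, eOp_eOp X (w s), sub_neg_eq_add, List.length_cons, ← add_assoc]
      refine Submodule.add_mem _ (mOp_mem_G hW (eOp_mem_G _ h4)) (eOp_mem_G _ h3)
    · rw [EL_cons, List.length_cons, ← add_assoc]
      exact eOp_mem_G _ h4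

theorem group_cycle' (W : ℕ → Submodule k S) (B : Finset ι) (c : ι → Module.Dual k V) (x : ι → S)
    (w : ι → V) (X : V) (y xa : S) (a p m : ℕ) (P : Set V) (hXP : X ∈ P)
    (hX : (∑ t ∈ B, c t X • x t) = xa * y)
    (hxa : ∀ f ∈ W m, xa * f ∈ W (m + a))
    (L : List ι)
    (hL : ∀ s ∈ L, ∃ h : S, (∑ t ∈ B, c t (w s) • x t) = y * h ∧ ∀ f ∈ W m, h * f ∈ W (m + a))
    (b : ExteriorAlgebra k V ⊗[k] S) (hb : dOp B c x b = 0) (hbG : b ∈ G V W p m) :
    ∃ Z : ExteriorAlgebra k V ⊗[k] S, dOp B c x Z = 0 ∧ Z ∈ G V W (p + L.length) (m + a) ∧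
      Z - mOp V xa (EL S w L b) ∈ NN S P := by
  obtain ⟨θ, h1, h2, h3, h4⟩ := group_cycle W B c x w X y xa a p m hX L hL b hb hbG
  refine ⟨mOp V xa (EL S w L b) - eOp S X θ, ?_, ?_, ?_⟩
  · rw [map_sub, dOp_mOp, h1, dOp_eOp, hX, h2, map_zero, sub_zero, mOp_mOp, sub_self]
  · exact Submodule.sub_mem _ (mOp_mem_G hxa h4) h3
  · rw [sub_sub_cancel_left]
    exact Submodule.neg_mem _ (eOp_mem_NN' hXP _)

end gen

end Pool.Agent.Run7.h220.Vero
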