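import Mathlib

/-!
Definitions: the Koszul complex `Λ^p (S^d U) ⊗ S^m U` and its cohomology `K_{p,q}(P^n, b; d)`.
-/

namespace Pool.Agent.Run7.h220.Vero

open TensorProduct MvPolynomial

section Koszul

variable {k : Type*} [CommRing k] {V M M' N : Type*} [AddCommGroup V] [Module k V]
  [AddCommGroup M] [Module k M] [AddCommGroup M'] [Module k M'] [AddCommGroup N] [Module k N]

/-- The exterior power `Λ^p V` (Mathlib's `⋀[k]^p V`). -/
def Wedge (k V : Type*) [CommRing k] [AddCommGroup V] [Module k V] (p : ℕ) : Type _ :=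
  ⋀[k]^p V

noncomputable instance (k V : Type*) [CommRing k] [AddCommGroup V] [Module k V] (p : ℕ) :
    AddCommGroup (Wedge k V p) := Submodule.addCommGroup (⋀[k]^p V)

noncomputable instance (k V : Type*) [CommRing k] [AddCommGroup V] [Module k V] (p : ℕ) :
    Module k (Wedge k V p) := Submodule.module (⋀[k]^p V)

/-- `(s_1, …, s_p) ↦ s_1 ∧ … ∧ s_p` -/
noncomputable def wedge (k V : Type*) [CommRing k] [AddCommGroup V] [Module k V] (p : ℕ) :
    V [⋀^Fin p]→ₗ[k] Wedge k V p := exteriorPower.ιMulti k p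

/-- The universal property of `Λ^p V`: the linear map `Λ^p V → N` attached to an alternating
map. -/
noncomputable def wedgeEquiv (k V N : Type*) [CommRing k] [AddCommGroup V] [Module k V]
    [AddCommGroup N] [Module k N] (p : ℕ) :
    (V [⋀^Fin p]→ₗ[k] N) ≃ₗ[k] (Wedge k V p →ₗ[k] N) :=
  exteriorPower.alternatingMapLinearEquiv

theorem wedgeEquiv_wedge {p : ℕ} (f : V [⋀^Fin p]→ₗ[k] N) (s : Fin p → V) :
    wedgeEquiv k V N p f (wedge k V p s) = f s :=
  exteriorPower.alternatingMapLinearEquiv_apply_ιMulti f s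

theorem wedge_ext {p : ℕ} {f g : Wedge k V p →ₗ[k] N}
    (h : ∀ s, f (wedge k V p s) = g (wedge k V p s)) : f = g := by
  have h1 : f.compAlternatingMap (exteriorPower.ιMulti k p)
      = g.compAlternatingMap (exteriorPower.ιMulti k p) := by
    ext s
    exact h s
  exact exteriorPower.linearMap_ext h1

theorem wedge_induction {p : ℕ} {P : Wedge k V p → Prop} (h0 : P 0)
    (hadd : ∀ x y, P x → P y → P (x + y)) (hsmul : ∀ (c : k) (x), P x → P (c • x))
    (hw : ∀ s, P (wedge k V p s)) (a : Wedge k V p) : P a := by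
  let Q : ⋀[k]^p V → Prop := P
  have key : ∀ a : ⋀[k]^p V, a ∈ (⊤ : Submodule k (⋀[k]^p V)) → Q a := by
    rw [← exteriorPower.ιMulti_span k p V]
    intro a ha
    induction ha using Submodule.span_induction with
    | mem x hx =>
      obtain ⟨s, rfl⟩ := hx
      exact hw s
    | zero => exact h0
    | add x y _ _ hx hy => exact hadd x y hx hy
    | smul c x _ hx => exact hsmul c x hx
  exact key a Submodule.mem_top

/-- The inclusion of `Λ^p V` in the exterior algebra. -/
noncomputable def wedgeIncl (k V : Type*) [CommRing k] [AddCommGroup V] [Module k V] (p : ℕ) :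
    Wedge k V p →ₗ[k] ExteriorAlgebra k V := (⋀[k]^p V).subtype

theorem wedgeIncl_wedge (p : ℕ) (s : Fin p → V) :
    wedgeIncl k V p (wedge k V p s) = ExteriorAlgebra.ιMulti k p s := rfl

theorem wedgeIncl_injective (p : ℕ) : Function.Injective (wedgeIncl k V p) :=
  (⋀[k]^p V).subtype_injective

theorem exists_wedgeIncl {p : ℕ} {a : ExteriorAlgebra k V} (ha : a ∈ ⋀[k]^p V) :
    ∃ w, wedgeIncl k V p w = a := ⟨⟨a, ha⟩, rfl⟩

theorem altUnc_apply {p : ℕ} (f : V →ₗ[k] V [⋀^Fin p]→ₗ[k] N) (v : Fin (p + 1) → V) :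
    AlternatingMap.alternatizeUncurryFin f v =
      ∑ i : Fin (p + 1), (-1 : k) ^ (i : ℕ) • f (v i) (i.removeNth v) := by
  rw [AlternatingMap.alternatizeUncurryFin_apply]
  refine Finset.sum_congr rfl fun i _ => ?_
  rw [← Int.cast_smul_eq_zsmul k]
  push_cast
  rfl

/-- `Λ^p V ⊗ M`. -/
def WedgeTensor (k V M : Type*) [CommRing k] [AddCommGroup V] [Module k V] [AddCommGroup M]
    [Module k M] (p : ℕ) : Type _ := Wedge k V p ⊗[k] M

noncomputable instance (k V M : Type*) [CommRing k] [AddCommGroup V] [Module k V] [AddCommGroup M]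
    [Module k M] (p : ℕ) : AddCommGroup (WedgeTensor k V M p) :=
  TensorProduct.addCommGroup (R := k) (M := Wedge k V p) (N := M)

noncomputable instance (k V M : Type*) [CommRing k] [AddCommGroup V] [Module k V] [AddCommGroup M]
    [Module k M] (p : ℕ) : Module k (WedgeTensor k V M p) :=
  TensorProduct.leftModule (R := k) (M := Wedge k V p) (N := M)

/-- `(s_1, …, s_p) ↦ (s_1 ∧ … ∧ s_p) ⊗ x`. -/
noncomputable def wedgeTmul (k V : Type*) [CommRing k] [AddCommGroup V] [Module k V]
    {M : Type*} [AddCommGroup M] [Module k M] (p : ℕ) (x : M) :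
    V [⋀^Fin p]→ₗ[k] WedgeTensor k V M p where
  toFun s := wedge k V p s ⊗ₜ[k] x
  map_update_add' := by
    intro _ s i a b
    rw [AlternatingMap.map_update_add]
    exact TensorProduct.add_tmul _ _ _
  map_update_smul' := by
    intro _ s i c a
    rw [AlternatingMap.map_update_smul]
    exact (TensorProduct.smul_tmul' _ _ _).symm
  map_eq_zero_of_eq' := by
    intro s i j h hij
    rw [AlternatingMap.map_eq_zero_of_eq _ s h hij]
    exact TensorProduct.zero_tmul _ _

theorem wedgeTmul_apply (p : ℕ) (x : M) (s : Fin p → V) :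
    wedgeTmul k V p x s = wedge k V p s ⊗ₜ[k] x := rfl

/-- For a bilinear map `μ : V × M → M'` (written `s f`) and a fixed `f : M`, the map
`s ↦ ((s_1, …, s_p) ↦ (s_1 ∧ … ∧ s_p) ⊗ s f)`. -/
noncomputable def wedgeMul (μ : V →ₗ[k] M →ₗ[k] M') (p : ℕ) (f : M) :
    V →ₗ[k] V [⋀^Fin p]→ₗ[k] WedgeTensor k V M' p where
  toFun s := wedgeTmul k V p (μ s f)
  map_add' s s' := by
    ext v
    rw [AlternatingMap.add_apply, wedgeTmul_apply, wedgeTmul_apply, wedgeTmul_apply, map_add,
      LinearMap.add_apply]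
    exact TensorProduct.tmul_add _ _ _
  map_smul' c s := by
    ext v
    rw [AlternatingMap.smul_apply, wedgeTmul_apply, wedgeTmul_apply, map_smul,
      LinearMap.smul_apply]
    exact TensorProduct.tmul_smul _ _ _

/-- The alternating map `(s_0, …, s_p) ↦ ∑_i (-1)^i (s_0 ∧ … ŝ_i … ∧ s_p) ⊗ s_i f`. -/
noncomputable def koszulAlt (μ : V →ₗ[k] M →ₗ[k] M') (p : ℕ) (f : M) :
    V [⋀^Fin (p + 1)]→ₗ[k] WedgeTensor k V M' p :=
  AlternatingMap.alternatizeUncurryFin (wedgeMul μ p f)

/-- The linear map `Λ^(p+1) V → Λ^p V ⊗ M'`,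
`s_0 ∧ … ∧ s_p ↦ ∑_i (-1)^i (s_0 ∧ … ŝ_i … ∧ s_p) ⊗ s_i f`. -/
noncomputable def koszulAt (μ : V →ₗ[k] M →ₗ[k] M') (p : ℕ) (f : M) :
    Wedge k V (p + 1) →ₗ[k] WedgeTensor k V M' p :=
  wedgeEquiv k V (WedgeTensor k V M' p) (p + 1) (koszulAlt μ p f)

theorem koszulAt_apply (μ : V →ₗ[k] M →ₗ[k] M') (p : ℕ) (s : Fin (p + 1) → V) (f : M) :
    koszulAt μ p f (wedge k V (p + 1) s) =
      ∑ i : Fin (p + 1), (-1 : k) ^ (i : ℕ) • wedgeTmul k V p (μ (s i) f) (i.removeNth s) := by
  rw [koszulAt, wedgeEquiv_wedge, koszulAlt, altUnc_apply]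
  rfl

/-- `f ↦ koszulAt μ p f` as a linear map. -/
noncomputable def koszulMap (μ : V →ₗ[k] M →ₗ[k] M') (p : ℕ) :
    M →ₗ[k] Wedge k V (p + 1) →ₗ[k] WedgeTensor k V M' p where
  toFun := koszulAt μ p
  map_add' f f' := by
    apply wedge_ext
    intro s
    rw [LinearMap.add_apply, koszulAt_apply, koszulAt_apply, koszulAt_apply,
      ← Finset.sum_add_distrib]
    refine Finset.sum_congr rfl fun i _ => ?_
    rw [← smul_add, map_add]
    congr 1
    exact TensorProduct.tmul_add _ _ _
  map_smul' c f := by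
    apply wedge_ext
    intro s
    rw [LinearMap.smul_apply, koszulAt_apply, koszulAt_apply, Finset.smul_sum]
    refine Finset.sum_congr rfl fun i _ => ?_
    rw [smul_comm, map_smul]
    congr 1
    exact TensorProduct.tmul_smul _ _ _

/-- The Koszul differential attached to a bilinear map `μ : V × M → M'` (written `s f`):
`Λ^(p+1) V ⊗ M → Λ^p V ⊗ M'`,
`(s_0 ∧ … ∧ s_p) ⊗ f ↦ ∑_i (-1)^i (s_0 ∧ … ŝ_i … ∧ s_p) ⊗ s_i f`
(this formula is the lemma `koszulD_apply`). -/
noncomputable def koszulD (μ : V →ₗ[k] M →ₗ[k] M') (p : ℕ) :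
    WedgeTensor k V M (p + 1) →ₗ[k] WedgeTensor k V M' p :=
  TensorProduct.lift (koszulMap μ p).flip

/-- The defining formula of the Koszul differential. -/
theorem koszulD_apply (μ : V →ₗ[k] M →ₗ[k] M') (p : ℕ) (s : Fin (p + 1) → V) (f : M) :
    koszulD μ p (wedgeTmul k V (p + 1) f s) =
      ∑ i : Fin (p + 1), (-1 : k) ^ (i : ℕ) • wedgeTmul k V p (μ (s i) f) (i.removeNth s) := by
  rw [← koszulAt_apply]
  rfl

theorem wedgeTensor_induction {p : ℕ} {P : WedgeTensor k V M p → Prop} (h0 : P 0)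
    (hadd : ∀ x y, P x → P y → P (x + y)) (hsmul : ∀ (c : k) (x), P x → P (c • x))
    (hw : ∀ s f, P (wedgeTmul k V p f s)) (z : WedgeTensor k V M p) : P z := by
  induction z using TensorProduct.induction_on with
  | zero => exact h0
  | add x y hx hy => exact hadd x y hx hy
  | tmul a g =>
    induction a using wedge_induction with
    | hw s => exact hw s g
    | h0 => rw [TensorProduct.zero_tmul]; exact h0
    | hadd x y hx hy => rw [TensorProduct.add_tmul]; exact hadd _ _ hx hy
    | hsmul c x hx => rw [← TensorProduct.smul_tmul']; exact hsmul _ _ hx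

end Koszul

/-- `S^m U`: the forms of degree `m` in `n + 1` variables over `k`. -/
def Form (k : Type*) [Field k] (n m : ℕ) : Type _ :=
  homogeneousSubmodule (Fin (n + 1)) k m

noncomputable instance (k : Type*) [Field k] (n m : ℕ) : AddCommGroup (Form k n m) :=
  Submodule.addCommGroup (homogeneousSubmodule (Fin (n + 1)) k m)

noncomputable instance (k : Type*) [Field k] (n m : ℕ) : Module k (Form k n m) :=
  Submodule.module (homogeneousSubmodule (Fin (n + 1)) k m)

/-- The underlying polynomial of a form. -/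
noncomputable def Form.toPoly {k : Type*} [Field k] {n m : ℕ} (f : Form k n m) :
    MvPolynomial (Fin (n + 1)) k := Subtype.val f

/-- The product of forms `S^d U × S^m U → S^(m+d) U`. -/
noncomputable def Form.mul {k : Type*} [Field k] {n d m m' : ℕ} (h : m + d = m')
    (s : Form k n d) (f : Form k n m) : Form k n m' :=
  Subtype.mk (s.toPoly * f.toPoly) (by
      have h1 := (mem_homogeneousSubmodule d s.1).1 s.2
      have h2 := (mem_homogeneousSubmodule m f.1).1 f.2
      have h3 : d + m = m' := by omega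
      exact (mem_homogeneousSubmodule m' _).2 (h3 ▸ h1.mul h2))

/-- Multiplication of forms `S^d U × S^m U → S^(m+d) U` as a bilinear map. -/
noncomputable def mulForm (k : Type*) [Field k] (n : ℕ) {d m m' : ℕ} (h : m + d = m') :
    Form k n d →ₗ[k] Form k n m →ₗ[k] Form k n m' :=
  LinearMap.mk₂ k (Form.mul h)
    (fun s s' f => Subtype.ext (add_mul s.1 s'.1 f.1))
    (fun c s f => Subtype.ext (smul_mul_assoc c s.1 f.1))
    (fun s f f' => Subtype.ext (mul_add s.1 f.1 f'.1))
    (fun c s f => Subtype.ext (mul_smul_comm c s.1 f.1))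

/-- The group `Λ^p (S^d U) ⊗ S^m U`. -/
def Chain (k : Type*) [Field k] (n d p m : ℕ) : Type _ :=
  WedgeTensor k (Form k n d) (Form k n m) p

noncomputable instance (k : Type*) [Field k] (n d p m : ℕ) : AddCommGroup (Chain k n d p m) :=
  instAddCommGroupWedgeTensor k (Form k n d) (Form k n m) p

noncomputable instance (k : Type*) [Field k] (n d p m : ℕ) : Module k (Chain k n d p m) :=
  instModuleWedgeTensor k (Form k n d) (Form k n m) p

/-- The Koszul differential `Λ^(p+1) (S^d U) ⊗ S^m U → Λ^p (S^d U) ⊗ S^(m+d) U`,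
`(s_0 ∧ … ∧ s_p) ⊗ f ↦ ∑_i (-1)^i (s_0 ∧ … ŝ_i … ∧ s_p) ⊗ s_i f`. -/
noncomputable def differential (k : Type*) [Field k] (n d p m m' : ℕ) (h : m + d = m') :
    Chain k n d (p + 1) m →ₗ[k] Chain k n d p m' :=
  koszulD (mulForm k n h) p

/-- The cycles in `Λ^p (S^d U) ⊗ S^m U`: the kernel of the differential to
`Λ^(p-1) (S^d U) ⊗ S^(m+d) U` (everything, if `p = 0`). -/
noncomputable def cycles (k : Type*) [Field k] (n d m : ℕ) :
    (p : ℕ) → Submodule k (Chain k n d p m)
  | 0 => ⊤
  | p + 1 => LinearMap.ker (differential k n d p m (m + d) rfl)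

/-- The boundaries in `Λ^p (S^d U) ⊗ S^m U`: the image of the differential from
`Λ^(p+1) (S^d U) ⊗ S^(m-d) U` (zero, if `m < d`). -/
noncomputable def boundaries (k : Type*) [Field k] (n d m p : ℕ) :
    Submodule k (Chain k n d p m) :=
  ⨆ (m₀ : ℕ) (h : m₀ + d = m), LinearMap.range (differential k n d p m₀ m h)

/-- The boundaries as a subspace of the space of cycles. -/
noncomputable def boundariesInCycles (k : Type*) [Field k] (n d m p : ℕ) :
    Submodule k (cycles k n d m p) :=
  (boundaries k n d m p).submoduleOf (cycles k n d m p)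

/-- The Koszul cohomology group `K_{p,q}(P^n, b; d)`: cycles modulo boundaries in
`Λ^p (S^d U) ⊗ S^(qd+b) U`. -/
abbrev KoszulCohomology (k : Type*) [Field k] (n b d p q : ℕ) : Type _ :=
  cycles k n d (q * d + b) p ⧸ boundariesInCycles k n d (q * d + b) p

end Pool.Agent.Run7.h220.Vero
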