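import Pool.Agent.Run7.h220.VeroB
import Pool.Agent.Run7.h220.VeroDefs

/-!
The forms: monomials, coordinate functionals, the main cycle.
-/

namespace Pool.Agent.Run7.h220.Vero

open TensorProduct MvPolynomial Finset

section forms

variable {k : Type*} [Field k] {n d : ℕ}

/-- forms of degree `m` -/
abbrev Fm (k : Type*) [Field k] (n m : ℕ) : Submodule k (MvPolynomial (Fin (n + 1)) k) :=
  homogeneousSubmodule (Fin (n + 1)) k m

/-- exponents of degree `d` -/
abbrev Ex (n d : ℕ) : Finset (Fin (n + 1) →₀ ℕ) := finsuppAntidiag univ d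

theorem mem_Ex {t : Fin (n + 1) →₀ ℕ} : t ∈ Ex n d ↔ ∑ i, t i = d := by
  simp [Ex]

theorem mono_mem {t : Fin (n + 1) →₀ ℕ} {m : ℕ} (ht : ∑ i, t i = m) (r : k) :
    monomial t r ∈ Fm k n m := by
  rw [mem_homogeneousSubmodule]
  apply isHomogeneous_monomial
  rw [Finsupp.degree_eq_sum, ht]

open Classical in
/-- the monomial with exponent `t` as a form of degree `d` -/
noncomputable def wv (k : Type*) [Field k] (n d : ℕ) (t : Fin (n + 1) →₀ ℕ) : Form k n d :=
  if h : t ∈ Ex n d then ⟨monomial t 1, mono_mem (mem_Ex.1 h) 1⟩ else 0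

theorem wv_coe {t : Fin (n + 1) →₀ ℕ} (h : t ∈ Ex n d) :
    (wv k n d t).toPoly = monomial t 1 := by
  rw [wv, dif_pos h]
  rfl

/-- coefficient functional -/
noncomputable def cf (k : Type*) [Field k] (n d : ℕ) (t : Fin (n + 1) →₀ ℕ) :
    Module.Dual k (Form k n d) where
  toFun v := coeff t v.toPoly
  map_add' u v := coeff_add t u.toPoly v.toPoly
  map_smul' c v := coeff_smul t c v.toPoly

theorem cf_apply (t : Fin (n + 1) →₀ ℕ) (v : Form k n d) : cf k n d t v = coeff t v.toPoly := rfl

theorem cf_wv {s : Fin (n + 1) →₀ ℕ} (hs : s ∈ Ex n d) (t : Fin (n + 1) →₀ ℕ) :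
    cf k n d t (wv k n d s) = if s = t then 1 else 0 := by
  classical
  rw [cf_apply, wv_coe hs, coeff_monomial]

/-- every form of degree `d` is the sum of its monomials -/
theorem sum_cf (v : Form k n d) :
    ∑ t ∈ Ex n d, cf k n d t v • (monomial t (1 : k) : MvPolynomial (Fin (n + 1)) k)
      = v.toPoly := by
  classical
  have hv : v.toPoly.IsHomogeneous d := (mem_homogeneousSubmodule d v.1).1 v.2
  ext s
  rw [coeff_sum]
  simp only [coeff_smul, coeff_monomial, smul_eq_mul, mul_ite, mul_one, mul_zero]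
  rw [Finset.sum_ite_eq' (Ex n d) s]
  split_ifs with h
  · rfl
  · by_contra hne
    apply h
    rw [mem_Ex, ← Finsupp.degree_eq_sum]
    by_contra hdeg
    exact hne (hv.coeff_eq_zero hdeg).symm

/-- the Koszul differential on `Λ(S^d U) ⊗ S` -/
noncomputable abbrev DD (k : Type*) [Field k] (n d : ℕ) :=
  dOp (k := k) (V := Form k n d) (S := MvPolynomial (Fin (n + 1)) k) (Ex n d) (cf k n d)
    (fun t => monomial t (1 : k))

theorem DD_eOp (v : Form k n d)
    (z : ExteriorAlgebra k (Form k n d) ⊗[k] MvPolynomial (Fin (n + 1)) k) :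
    DD k n d (eOp _ v z) = mOp _ v.toPoly z - eOp _ v (DD k n d z) := by
  rw [dOp_eOp, sum_cf]

theorem mul_mem_Fm {a m m' : ℕ} (h : m + a = m') {g : MvPolynomial (Fin (n + 1)) k}
    (hg : g ∈ Fm k n a) : ∀ f ∈ Fm k n m, g * f ∈ Fm k n m' := by
  intro f hf
  rw [mem_homogeneousSubmodule] at hg hf ⊢
  have := hg.mul hf
  rwa [add_comm a m, h] at this

/-- the pure powers `x_j^d` -/
def PP (k : Type*) [Field k] (n d : ℕ) : Set (Form k n d) :=
  {v | ∃ j : Fin (n + 1), v = wv k n d (Finsupp.single j d)}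

theorem sum_single_eq (j : Fin (n + 1)) (c : ℕ) :
    ∑ i, (Finsupp.single j c : Fin (n + 1) →₀ ℕ) i = c := by
  rw [Finset.sum_eq_single j]
  · exact Finsupp.single_eq_same
  · intro b _ hb
    exact Finsupp.single_eq_of_ne hb
  · intro h
    exact absurd (Finset.mem_univ j) h

theorem single_mem_Ex (j : Fin (n + 1)) : Finsupp.single j d ∈ Ex n d := by
  rw [mem_Ex, sum_single_eq]

/-- The main cycle. -/
theorem main_cycle (a : Fin (n + 1) → ℕ) (ha : ∀ j, a j ≤ d) (J : Finset (Fin (n + 1))) :
    ∀ T : Finset (Fin (n + 1) →₀ ℕ), T ⊆ Ex n d → (∀ t ∈ T, ∃ j ∈ J, d ≤ t j + a j) →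
    ∃ z : ExteriorAlgebra k (Form k n d) ⊗[k] MvPolynomial (Fin (n + 1)) k,
      DD k n d z = 0 ∧ z ∈ G (Form k n d) (Fm k n) T.card (∑ j ∈ J, a j) ∧
      ∃ L : List (Fin (n + 1) →₀ ℕ), L.Nodup ∧ (∀ t, t ∈ L ↔ t ∈ T) ∧
        z - EL _ (wv k n d) L ((1 : ExteriorAlgebra k (Form k n d)) ⊗ₜ[k]
          (monomial (∑ j ∈ J, Finsupp.single j (a j)) (1 : k))) ∈ NN _ (PP k n d) := by
  classical
  induction J using Finset.induction_on with
  | empty =>
    intro T hT hTJ
    have hT0 : T = ∅ := by
      rw [Finset.eq_empty_iff_forall_notMem]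
      intro t ht
      obtain ⟨j, hj, _⟩ := hTJ t ht
      simp at hj
    subst hT0
    refine ⟨(1 : ExteriorAlgebra k (Form k n d)) ⊗ₜ[k] 1, dOp_one _ _ _ _, ?_, [], List.nodup_nil,
      by simp, ?_⟩
    · rw [Finset.card_empty, Finset.sum_empty]
      exact one_mem_G ((mem_homogeneousSubmodule 0 _).2 (isHomogeneous_one _ _))
    · change _ - ((1 : ExteriorAlgebra k (Form k n d)) ⊗ₜ[k] _) ∈ _
      rw [Finset.sum_empty, monomial_zero', C_1, sub_self]
      exact Submodule.zero_mem _
  | insert j J hj ih =>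
    intro T hT hTJ
    set T1 := T.filter (fun t => d ≤ t j + a j) with hT1
    set T2 := T.filter (fun t => ¬ d ≤ t j + a j) with hT2
    obtain ⟨z, hz0, hzG, L2, hL2, hL2T, hzN⟩ := ih T2 ((Finset.filter_subset _ _).trans hT) (by
      intro t ht
      rw [hT2, Finset.mem_filter] at ht
      obtain ⟨i, hi, hi2⟩ := hTJ t ht.1
      rcases Finset.mem_insert.1 hi with rfl | hi'
      · exact absurd hi2 ht.2
      · exact ⟨i, hi', hi2⟩)
    have hL1T : ∀ t, t ∈ T1.toList ↔ t ∈ T1 := fun t => Finset.mem_toList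
    obtain ⟨Z, hZ0, hZG, hZN⟩ := group_cycle' (k := k) (V := Form k n d)
      (S := MvPolynomial (Fin (n + 1)) k) (Fm k n) (Ex n d) (cf k n d)
      (fun t => monomial t (1 : k)) (wv k n d) (wv k n d (Finsupp.single j d))
      (monomial (Finsupp.single j (d - a j)) (1 : k)) (monomial (Finsupp.single j (a j)) (1 : k))
      (a j) T2.card (∑ i ∈ J, a i) (PP k n d) ⟨j, rfl⟩
      (by
        rw [sum_cf, wv_coe (single_mem_Ex j), monomial_mul, ← Finsupp.single_add,
          Nat.add_sub_cancel' (ha j), one_mul])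
      (mul_mem_Fm rfl (mono_mem (sum_single_eq j (a j)) 1))
      T1.toList
      (by
        intro s hs
        rw [hL1T, hT1, Finset.mem_filter] at hs
        have hsd := mem_Ex.1 (hT hs.1)
        have hle : Finsupp.single j (d - a j) ≤ s := by
          intro i
          by_cases hi : j = i
          · subst hi
            rw [Finsupp.single_eq_same]
            have := hs.2
            omega
          · rw [Finsupp.single_eq_of_ne' hi]
            exact Nat.zero_le _
        refine ⟨monomial (s - Finsupp.single j (d - a j)) (1 : k), ?_, ?_⟩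
        · rw [sum_cf, wv_coe (hT hs.1), monomial_mul, add_tsub_cancel_of_le hle, one_mul]
        · refine mul_mem_Fm rfl (mono_mem ?_ 1)
          have h1 : ∑ i, (s - Finsupp.single j (d - a j)) i + ∑ i, (Finsupp.single j (d - a j)) i
              = ∑ i, s i := by
            rw [← Finset.sum_add_distrib]
            refine Finset.sum_congr rfl fun i _ => ?_
            have := hle i
            rw [Finsupp.tsub_apply]
            omega
          have h2 : ∑ i, (Finsupp.single j (d - a j)) i = d - a j := sum_single_eq j _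
          have := ha j
          omega)
      z hz0 hzG
    refine ⟨Z, hZ0, ?_, T1.toList ++ L2, ?_, ?_, ?_⟩
    · rw [Finset.sum_insert hj, add_comm (a j)]
      have : T.card = T2.card + T1.toList.length := by
        have h3 : T1.card + T2.card = T.card := by
          rw [hT1, hT2]
          convert Finset.card_filter_add_card_filter_not (s := T) (fun t => d ≤ t j + a j)
        rw [Finset.length_toList]
        omega
      rw [this]
      exact hZG
    · rw [List.nodup_append]
      refine ⟨Finset.nodup_toList _, hL2, ?_⟩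
      intro s hs t ht hst
      subst hst
      rw [hL1T, hT1, Finset.mem_filter] at hs
      rw [hL2T, hT2, Finset.mem_filter] at ht
      exact ht.2 hs.2
    · intro t
      rw [List.mem_append, hL1T, hL2T, hT1, hT2, Finset.mem_filter, Finset.mem_filter]
      tauto
    · rw [EL_append]
      have h1 := EL_mem_NN (wv k n d) T1.toList
        (mOp_mem_NN (monomial (Finsupp.single j (a j)) (1 : k)) hzN)
      rw [map_sub, mOp_EL, mOp_tmul, monomial_mul, one_mul, map_sub, ← mOp_EL] at h1
      have h2 := Submodule.add_mem _ hZN h1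
      rw [sub_add_sub_cancel] at h2
      rw [Finset.sum_insert hj]
      exact h2

end forms

end Pool.Agent.Run7.h220.Vero
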