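import Pool.Agent.Run7.h220.VeroC

/-!
Counting monomials.
-/

namespace Pool.Agent.Run7.h220.Vero

open Finset

theorem count3 {n d c : ℕ} (s P : Finset (Fin (n + 1))) (q : Fin (n + 1)) (hq : q ∈ s) (hP : P ⊆ s)
    (hqP : q ∉ P) (hc : 1 ≤ c) (hcd : c ≤ d) (F : Finset (Fin (n + 1) →₀ ℕ))
    (hF : F ⊆ finsuppAntidiag s d) (hF1 : ∀ t ∈ F, t q < c) (hF2 : ∀ t ∈ F, ∀ j ∈ P, t j < d) :
    F.card + P.card + (finsuppAntidiag s (d - c)).card ≤ (finsuppAntidiag s d).card := by
  classical
  set A2 : Finset (Fin (n + 1) →₀ ℕ) := P.image (fun j => Finsupp.single j d) with hA2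
  set A3 : Finset (Fin (n + 1) →₀ ℕ) :=
    (finsuppAntidiag s (d - c)).image (fun t => t + Finsupp.single q c) with hA3
  have c2 : A2.card = P.card := by
    apply card_image_of_injective
    intro i j hij
    exact Finsupp.single_left_injective (by omega) hij
  have c3 : A3.card = (finsuppAntidiag s (d - c)).card := by
    apply card_image_of_injective
    intro i j hij
    exact add_right_cancel hij
  have s2 : A2 ⊆ finsuppAntidiag s d := by
    intro t ht
    rw [hA2, mem_image] at ht
    obtain ⟨j, hj, rfl⟩ := ht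
    rw [mem_finsuppAntidiag]
    refine ⟨?_, ?_⟩
    · rw [Finset.sum_eq_single j]
      · exact Finsupp.single_eq_same
      · intro b _ hb
        exact Finsupp.single_eq_of_ne hb
      · intro h
        exact absurd (hP hj) h
    · exact Finsupp.support_single_subset.trans (by simpa using hP hj)
  have s3 : A3 ⊆ finsuppAntidiag s d := by
    intro t ht
    rw [hA3, mem_image] at ht
    obtain ⟨u, hu, rfl⟩ := ht
    rw [mem_finsuppAntidiag] at hu ⊢
    refine ⟨?_, ?_⟩
    · have h1 : ∑ i ∈ s, (Finsupp.single q c : Fin (n + 1) →₀ ℕ) i = c := by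
        rw [Finset.sum_eq_single q]
        · exact Finsupp.single_eq_same
        · intro b _ hb
          exact Finsupp.single_eq_of_ne hb
        · intro h
          exact absurd hq h
      have h2 : ∑ i ∈ s, (u + Finsupp.single q c) i
          = ∑ i ∈ s, u i + ∑ i ∈ s, (Finsupp.single q c : Fin (n + 1) →₀ ℕ) i := by
        rw [← Finset.sum_add_distrib]
        rfl
      rw [h2, h1, hu.1]
      omega
    · refine Finsupp.support_add.trans (union_subset hu.2 ?_)
      exact Finsupp.support_single_subset.trans (by simpa using hq)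
  have d12 : Disjoint F A2 := by
    rw [Finset.disjoint_left]
    intro t ht ht2
    rw [hA2, mem_image] at ht2
    obtain ⟨j, hj, rfl⟩ := ht2
    have := hF2 _ ht j hj
    rw [Finsupp.single_eq_same] at this
    omega
  have d13 : Disjoint (F ∪ A2) A3 := by
    rw [Finset.disjoint_left]
    intro t ht ht3
    rw [hA3, mem_image] at ht3
    obtain ⟨u, hu, rfl⟩ := ht3
    rw [mem_union] at ht
    rcases ht with ht | ht
    · have := hF1 _ ht
      rw [Finsupp.add_apply, Finsupp.single_eq_same] at this
      omega
    · rw [hA2, mem_image] at ht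
      obtain ⟨j, hj, hju⟩ := ht
      have h1 := congrArg (fun f : Fin (n + 1) →₀ ℕ => f q) hju
      simp only [Finsupp.add_apply, Finsupp.single_eq_same] at h1
      rw [Finsupp.single_eq_of_ne (by rintro rfl; exact hqP hj)] at h1
      omega
  have h := card_le_card (union_subset (union_subset hF s2) s3)
  rw [card_union_of_disjoint d13, card_union_of_disjoint d12, c2, c3] at h
  exact h

/-- the exponents of the monomial `f = (x_0 … x_{q-1})^{d-1} x_q^{q+b}` -/
def av (n q b d : ℕ) (j : Fin (n + 1)) : ℕ :=
  if (j : ℕ) < q then d - 1 else if (j : ℕ) = q then q + b else 0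

theorem sum_av {n q b d : ℕ} (hqn : q ≤ n) (hd : 1 ≤ d) :
    ∑ j, av n q b d j = q * d + b := by
  unfold av
  have h1 : ∑ j : Fin (n + 1), (if (j : ℕ) < q then d - 1 else if (j : ℕ) = q then q + b else 0)
      = ∑ j ∈ range (n + 1), (if j < q then d - 1 else if j = q then q + b else 0) :=
    Fin.sum_univ_eq_sum_range (fun j => if j < q then d - 1 else if j = q then q + b else 0) (n + 1)
  rw [h1]
  obtain ⟨r, rfl⟩ : ∃ r, n = q + r := ⟨n - q, by omega⟩
  rw [show q + r + 1 = q + (1 + r) by ring, Finset.sum_range_add, Finset.sum_range_add]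
  have h2 : ∑ j ∈ range q, (if j < q then d - 1 else if j = q then q + b else 0) = q * (d - 1) := by
    rw [Finset.sum_congr rfl (g := fun _ => d - 1)]
    · simp
    · intro j hj
      rw [if_pos (mem_range.1 hj)]
  have h3 : ∑ x ∈ range r, (if q + (1 + x) < q then d - 1 else if q + (1 + x) = q then q + b else 0)
      = 0 := by
    refine Finset.sum_eq_zero fun x _ => ?_
    rw [if_neg (by omega), if_neg (by omega)]
  rw [h2, h3]
  simp
  obtain ⟨e, rfl⟩ : ∃ e, d = e + 1 := ⟨d - 1, by omega⟩
  simp
  ring

section
variable {n q b d : ℕ}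

/-- the degree-`d` monomials dividing `f` -/
def Dset (n q b d : ℕ) : Finset (Fin (n + 1) →₀ ℕ) :=
  (Ex n d).filter (fun t => ∀ j, t j ≤ av n q b d j)

open Classical in
/-- the degree-`d` monomials, other than the powers `x_j^d`, annihilating `f` modulo the `x_j^d` -/
noncomputable def Zset (n q b d : ℕ) : Finset (Fin (n + 1) →₀ ℕ) :=
  (Ex n d).filter (fun t => (∃ j, d ≤ t j + av n q b d j) ∧ ∀ j, t ≠ Finsupp.single j d)

theorem av_le (hd : b + q + 1 ≤ d) (j : Fin (n + 1)) : av n q b d j ≤ d - 1 := by
  unfold av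
  split_ifs <;> omega

theorem Dset_subset_Zset (hqn : q ≤ n) (hd : b + q + 1 ≤ d) : Dset n q b d ⊆ Zset n q b d := by
  classical
  intro t ht
  rw [Dset, mem_filter] at ht
  rw [Zset, mem_filter]
  refine ⟨ht.1, ?_, ?_⟩
  · by_contra hcon
    push Not at hcon
    have hlt : ∀ j : Fin (n + 1), (j : ℕ) < q → t j = 0 := by
      intro j hj
      have h1 := hcon j
      unfold av at h1
      rw [if_pos hj] at h1
      omega
    have hgt : ∀ j : Fin (n + 1), q < (j : ℕ) → t j = 0 := by
      intro j hj
      have h1 := ht.2 j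
      unfold av at h1
      rw [if_neg (by omega), if_neg (by omega)] at h1
      omega
    have hsum := mem_Ex.1 ht.1
    rw [Finset.sum_eq_single (⟨q, by omega⟩ : Fin (n + 1))] at hsum
    · have h1 := ht.2 ⟨q, by omega⟩
      unfold av at h1
      rw [if_neg (by simp), if_pos rfl] at h1
      omega
    · intro j _ hj
      rcases lt_trichotomy (j : ℕ) q with h | h | h
      · exact hlt j h
      · exact absurd (Fin.ext h) hj
      · exact hgt j h
    · intro h
      exact absurd (Finset.mem_univ _) h
  · rintro j rfl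
    have h1 := ht.2 j
    have h2 := av_le hd j
    rw [Finsupp.single_eq_same] at h1
    omega

theorem card_le_filter (n q : ℕ) (hqn : q ≤ n) :
    (univ.filter (fun j : Fin (n + 1) => (j : ℕ) ≤ q)).card = q + 1 := by
  have h : (univ.filter (fun j : Fin (n + 1) => (j : ℕ) ≤ q))
      = (univ.filter (fun j : Fin (n + 1) => (j : ℕ) < q + 1)) := by
    ext j
    simp only [mem_filter, mem_univ, true_and]
    omega
  rw [h, Fin.card_filter_val_lt]
  omega

theorem card_Dset (hqn : q ≤ n) (hd : b + q + 1 ≤ d) :
    (Dset n q b d).card + q + (d - b - 1).choose q ≤ (d + q).choose q := by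
  classical
  have hs : (univ.filter (fun j : Fin (n + 1) => (j : ℕ) ≤ q)).card = q + 1 :=
    card_le_filter n q hqn
  have hP : (univ.filter (fun j : Fin (n + 1) => (j : ℕ) < q)).card = q := by
    rw [Fin.card_filter_val_lt]
    omega
  have h := count3 (d := d) (c := q + b + 1) (univ.filter (fun j : Fin (n + 1) => (j : ℕ) ≤ q))
    (univ.filter (fun j : Fin (n + 1) => (j : ℕ) < q)) ⟨q, by omega⟩ (by simp)
    (by
      intro j hj
      rw [mem_filter] at hj ⊢
      exact ⟨hj.1, hj.2.le⟩)
    (by simp) (by omega) (by omega) (Dset n q b d)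
    (by
      intro t ht
      rw [Dset, mem_filter] at ht
      have hsum := mem_Ex.1 ht.1
      have hgt : ∀ j : Fin (n + 1), q < (j : ℕ) → t j = 0 := by
        intro j hj
        have h1 := ht.2 j
        unfold av at h1
        rw [if_neg (by omega), if_neg (by omega)] at h1
        omega
      rw [mem_finsuppAntidiag]
      refine ⟨?_, ?_⟩
      · rw [← hsum]
        refine Finset.sum_subset (Finset.subset_univ _) fun j _ hj => ?_
        rw [mem_filter, not_and] at hj
        exact hgt j (not_le.1 (hj (Finset.mem_univ j)))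
      · intro j hj
        rw [mem_filter]
        refine ⟨Finset.mem_univ j, ?_⟩
        by_contra hcon
        exact (Finsupp.mem_support_iff.1 hj) (hgt j (not_le.1 hcon)))
    (by
      intro t ht
      rw [Dset, mem_filter] at ht
      have h1 := ht.2 ⟨q, by omega⟩
      unfold av at h1
      rw [if_neg (by simp), if_pos rfl] at h1
      omega)
    (by
      intro t ht j hj
      rw [Dset, mem_filter] at ht
      have h1 := ht.2 j
      have h2 := av_le hd j
      omega)
  rw [card_finsuppAntidiag_nat_eq_choose, card_finsuppAntidiag_nat_eq_choose, hs, hP] at h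
  have e1 : (q + 1 + (d - (q + b + 1)) - 1).choose (d - (q + b + 1)) = (d - b - 1).choose q := by
    rw [show q + 1 + (d - (q + b + 1)) - 1 = d - b - 1 by omega]
    exact Nat.choose_symm_of_eq_add (by omega)
  have e2 : (q + 1 + d - 1).choose d = (d + q).choose q := by
    rw [show q + 1 + d - 1 = d + q by omega]
    exact Nat.choose_symm_of_eq_add (by omega)
  rw [e1, e2] at h
  exact h

theorem card_Zset (hqn : q ≤ n) (hd : b + q + 1 ≤ d) :
    (d + n).choose n + (n + b).choose (n - q) ≤
      (Zset n q b d).card + (q + 1) + (d + n - q).choose (n - q) := by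
  classical
  set W : Finset (Fin (n + 1) →₀ ℕ) := (Ex n d).filter (fun t => ∀ j, t j + av n q b d j < d)
    with hW
  have hs : (univ.filter (fun j : Fin (n + 1) => q ≤ (j : ℕ))).card = n + 1 - q := by
    have h1 := Finset.card_filter_add_card_filter_not (s := (univ : Finset (Fin (n + 1))))
      (fun j : Fin (n + 1) => (j : ℕ) < q)
    have h2 : (univ.filter (fun j : Fin (n + 1) => (j : ℕ) < q)).card = q := by
      rw [Fin.card_filter_val_lt]
      omega
    simp only [not_lt, Finset.card_univ, Fintype.card_fin] at h1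
    omega
  have hP : (univ.filter (fun j : Fin (n + 1) => q < (j : ℕ))).card = n - q := by
    have h1 := Finset.card_filter_add_card_filter_not (s := (univ : Finset (Fin (n + 1))))
      (fun j : Fin (n + 1) => (j : ℕ) ≤ q)
    have h2 : (univ.filter (fun j : Fin (n + 1) => (j : ℕ) ≤ q)).card = q + 1 :=
      card_le_filter n q hqn
    simp only [not_le, Finset.card_univ, Fintype.card_fin] at h1
    omega
  have h := count3 (d := d) (c := d - q - b) (univ.filter (fun j : Fin (n + 1) => q ≤ (j : ℕ)))
    (univ.filter (fun j : Fin (n + 1) => q < (j : ℕ))) ⟨q, by omega⟩ (by simp)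
    (by
      intro j hj
      rw [mem_filter] at hj ⊢
      exact ⟨hj.1, hj.2.le⟩)
    (by simp) (by omega) (by omega) W
    (by
      intro t ht
      rw [hW, mem_filter] at ht
      have hsum := mem_Ex.1 ht.1
      have hlt : ∀ j : Fin (n + 1), (j : ℕ) < q → t j = 0 := by
        intro j hj
        have h1 := ht.2 j
        unfold av at h1
        rw [if_pos hj] at h1
        omega
      rw [mem_finsuppAntidiag]
      refine ⟨?_, ?_⟩
      · rw [← hsum]
        refine Finset.sum_subset (Finset.subset_univ _) fun j _ hj => ?_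
        rw [mem_filter, not_and] at hj
        exact hlt j (not_le.1 (hj (Finset.mem_univ j)))
      · intro j hj
        rw [mem_filter]
        refine ⟨Finset.mem_univ j, ?_⟩
        by_contra hcon
        exact (Finsupp.mem_support_iff.1 hj) (hlt j (not_le.1 hcon)))
    (by
      intro t ht
      rw [hW, mem_filter] at ht
      have h1 := ht.2 ⟨q, by omega⟩
      unfold av at h1
      rw [if_neg (by simp), if_pos rfl] at h1
      omega)
    (by
      intro t ht j hj
      rw [hW, mem_filter] at ht
      have h1 := ht.2 j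
      omega)
  rw [card_finsuppAntidiag_nat_eq_choose, card_finsuppAntidiag_nat_eq_choose, hs, hP] at h
  have e1 : (n + 1 - q + (d - (d - q - b)) - 1).choose (d - (d - q - b))
      = (n + b).choose (n - q) := by
    rw [show n + 1 - q + (d - (d - q - b)) - 1 = n + b by omega]
    exact Nat.choose_symm_of_eq_add (by omega)
  have e2 : (n + 1 - q + d - 1).choose d = (d + n - q).choose (n - q) := by
    rw [show n + 1 - q + d - 1 = d + n - q by omega]
    exact Nat.choose_symm_of_eq_add (by omega)
  rw [e1, e2] at h
  have hcov : Ex n d ⊆ Zset n q b d ∪ (univ.image (fun j : Fin (n + 1) => Finsupp.single j d)) ∪ W := by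
    intro t ht
    rw [mem_union, mem_union, Zset, mem_filter, mem_image, hW, mem_filter]
    by_cases h1 : ∃ j, t = Finsupp.single j d
    · obtain ⟨j, rfl⟩ := h1
      exact Or.inl (Or.inr ⟨j, Finset.mem_univ j, rfl⟩)
    · push Not at h1
      by_cases h2 : ∃ j, d ≤ t j + av n q b d j
      · exact Or.inl (Or.inl ⟨ht, h2, h1⟩)
      · push Not at h2
        exact Or.inr ⟨ht, h2⟩
  have h3 := card_le_card hcov
  have h4 := card_union_le (Zset n q b d ∪ (univ.image (fun j : Fin (n + 1) => Finsupp.single j d))) W
  have h5 := card_union_le (Zset n q b d) (univ.image (fun j : Fin (n + 1) => Finsupp.single j d))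
  have h6 : (univ.image (fun j : Fin (n + 1) => (Finsupp.single j d : Fin (n + 1) →₀ ℕ))).card
      ≤ n + 1 := by
    refine card_image_le.trans ?_
    rw [Finset.card_univ, Fintype.card_fin]
  have h7 : (Ex n d).card = (d + n).choose n := by
    rw [Ex, card_finsuppAntidiag_nat_eq_choose, Finset.card_univ, Fintype.card_fin,
      show n + 1 + d - 1 = d + n by omega]
    exact Nat.choose_symm_of_eq_add (by omega)
  omega

/-- choice of the set of monomials -/
theorem exists_T (hqn : q ≤ n) (hd : b + q + 1 ≤ d) (p : ℕ)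
    (hp : ((d + q).choose q : ℤ) - (d - b - 1).choose q - q ≤ p)
    (hp' : (p : ℤ) ≤ (d + n).choose n - (d + n - q).choose (n - q) + (n + b).choose (n - q) - q - 1) :
    ∃ T : Finset (Fin (n + 1) →₀ ℕ), T ⊆ Ex n d ∧ T.card = p ∧
      (∀ t ∈ T, ∃ j, d ≤ t j + av n q b d j) ∧ (∀ t ∈ T, ∀ j, t ≠ Finsupp.single j d) ∧
      (∀ t ∈ Ex n d, (∀ j, t j ≤ av n q b d j) → t ∈ T) := by
  classical
  have h1 := card_Dset (n := n) hqn hd
  have h2 := card_Zset (n := n) hqn hd
  obtain ⟨T, hT1, hT2, hT3⟩ := Finset.exists_subsuperset_card_eq (Dset_subset_Zset hqn hd)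
    (n := p) (by omega) (by omega)
  refine ⟨T, ?_, hT3, ?_, ?_, ?_⟩
  · exact hT2.trans (filter_subset _ _)
  · intro t ht
    have := hT2 ht
    rw [Zset, mem_filter] at this
    exact this.2.1
  · intro t ht
    have := hT2 ht
    rw [Zset, mem_filter] at this
    exact this.2.2
  · intro t ht ht2
    apply hT1
    rw [Dset, mem_filter]
    exact ⟨ht, ht2⟩

end

end Pool.Agent.Run7.h220.Vero
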