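import Pool.Agent.Run7.h220.VeroC

/-!
The functional detecting the main cycle.
-/

namespace Pool.Agent.Run7.h220.Vero

open TensorProduct MvPolynomial Finset

section functional

variable {k : Type*} [Field k] {n d : ℕ}

/-- the functional `z ↦` coefficient of `x^f` in `ε (contraction of z along L)`. -/
noncomputable def PhiL (k : Type*) [Field k] (n d : ℕ) (L : List (Fin (n + 1) →₀ ℕ))
    (f : Fin (n + 1) →₀ ℕ) :
    (ExteriorAlgebra k (Form k n d) ⊗[k] MvPolynomial (Fin (n + 1)) k) →ₗ[k] k :=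
  (lcoeff k f) ∘ₗ (eps (Form k n d) (MvPolynomial (Fin (n + 1)) k)) ∘ₗ
    (IL (MvPolynomial (Fin (n + 1)) k) (cf k n d) L)

theorem PhiL_apply (L : List (Fin (n + 1) →₀ ℕ)) (f : Fin (n + 1) →₀ ℕ)
    (z : ExteriorAlgebra k (Form k n d) ⊗[k] MvPolynomial (Fin (n + 1)) k) :
    PhiL k n d L f z = coeff f (eps _ _ (IL _ (cf k n d) L z)) := rfl

theorem PhiL_DD (L : List (Fin (n + 1) →₀ ℕ)) (f : Fin (n + 1) →₀ ℕ)
    (hL : ∀ t ∈ Ex n d, t ≤ f → t ∈ L)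
    (z : ExteriorAlgebra k (Form k n d) ⊗[k] MvPolynomial (Fin (n + 1)) k) :
    PhiL k n d L f (DD k n d z) = 0 := by
  classical
  rw [PhiL_apply, IL_dOp, map_smul, coeff_smul, dOp_apply, map_sum, coeff_sum,
    Finset.sum_eq_zero, smul_zero]
  intro t ht
  rw [← mOp_iOp, eps_mOp]
  by_cases htf : t ≤ f
  · rw [iOp_IL_self _ _ (hL t ht htf), map_zero, mul_zero, coeff_zero]
  · rw [coeff_monomial_mul', if_neg htf]

theorem PhiL_NN (L : List (Fin (n + 1) →₀ ℕ)) (f : Fin (n + 1) →₀ ℕ)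
    (hL : ∀ t ∈ L, ∀ j, t ≠ Finsupp.single j d)
    {z : ExteriorAlgebra k (Form k n d) ⊗[k] MvPolynomial (Fin (n + 1)) k}
    (hz : z ∈ NN _ (PP k n d)) : PhiL k n d L f z = 0 := by
  rw [PhiL_apply]
  have h : IL _ (cf k n d) L z ∈ NN (MvPolynomial (Fin (n + 1)) k) (PP k n d) := by
    refine IL_mem_NN (cf k n d) L (fun t ht X hX => ?_) hz
    obtain ⟨j, rfl⟩ := hX
    rw [cf_wv (single_mem_Ex j), if_neg (Ne.symm (hL t ht j))]
  rw [eps_NN h, coeff_zero]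

theorem PhiL_EL (L : List (Fin (n + 1) →₀ ℕ)) (hLn : L.Nodup) (f : Fin (n + 1) →₀ ℕ)
    (hL : ∀ t ∈ L, t ∈ Ex n d) :
    PhiL k n d L f (EL _ (wv k n d) L ((1 : ExteriorAlgebra k (Form k n d)) ⊗ₜ[k]
      (monomial f (1 : k)))) = 1 := by
  rw [PhiL_apply, IL_EL _ _ _ hLn, eps_tmul, map_one, one_smul, coeff_monomial, if_pos rfl]
  · intro t ht
    rw [cf_wv (hL t ht), if_pos rfl]
  · intro t ht s hs hts
    rw [cf_wv (hL s hs), if_neg (Ne.symm hts)]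

/-- The class. -/
theorem exists_class (a : Fin (n + 1) → ℕ) (ha : ∀ j, a j ≤ d)
    (T : Finset (Fin (n + 1) →₀ ℕ)) (hT : T ⊆ Ex n d)
    (hZ : ∀ t ∈ T, ∃ j, d ≤ t j + a j) (hP : ∀ t ∈ T, ∀ j, t ≠ Finsupp.single j d)
    (hD : ∀ t ∈ Ex n d, (∀ j, t j ≤ a j) → t ∈ T) :
    ∃ z : ExteriorAlgebra k (Form k n d) ⊗[k] MvPolynomial (Fin (n + 1)) k,
      DD k n d z = 0 ∧ z ∈ G (Form k n d) (Fm k n) T.card (∑ j, a j) ∧
      ∃ Φ : (ExteriorAlgebra k (Form k n d) ⊗[k] MvPolynomial (Fin (n + 1)) k) →ₗ[k] k,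
        Φ z = 1 ∧ ∀ c, Φ (DD k n d c) = 0 := by
  classical
  obtain ⟨z, hz0, hzG, L, hLn, hLT, hzN⟩ := main_cycle (k := k) a ha Finset.univ T hT
    (fun t ht => by
      obtain ⟨j, hj⟩ := hZ t ht
      exact ⟨j, Finset.mem_univ j, hj⟩)
  refine ⟨z, hz0, hzG, PhiL k n d L (∑ j, Finsupp.single j (a j)), ?_, ?_⟩
  · have h1 := PhiL_NN L (∑ j, Finsupp.single j (a j))
      (fun t ht j => hP t ((hLT t).1 ht) j) hzN
    rw [map_sub, PhiL_EL L hLn _ (fun t ht => hT ((hLT t).1 ht)), sub_eq_zero] at h1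
    exact h1
  · intro c
    refine PhiL_DD L _ (fun t ht htf => (hLT t).2 (hD t ht fun j => ?_)) c
    have := htf j
    rw [Finsupp.finsetSum_apply] at this
    refine this.trans_eq ?_
    rw [Finset.sum_eq_single j]
    · exact Finsupp.single_eq_same
    · intro b _ hb
      exact Finsupp.single_eq_of_ne' hb
    · intro h
      exact absurd (Finset.mem_univ j) h

end functional

end Pool.Agent.Run7.h220.Vero
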