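import Pool.Agent.Run7.h220.VeroD

/-!
Comparison of the Koszul complex with the total complex `Λ V ⊗ S`.
-/

namespace Pool.Agent.Run7.h220.Vero

open TensorProduct MvPolynomial

set_option maxHeartbeats 400000

section link

variable {k : Type*} [Field k] {n d : ℕ}

/-- inclusion of forms in polynomials -/
noncomputable def formIncl (k : Type*) [Field k] (n m : ℕ) :
    Form k n m →ₗ[k] MvPolynomial (Fin (n + 1)) k :=
  (homogeneousSubmodule (Fin (n + 1)) k m).subtype

theorem formIncl_apply {m : ℕ} (f : Form k n m) : formIncl k n m f = f.toPoly := rfl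

theorem formIncl_injective (m : ℕ) : Function.Injective (formIncl k n m) :=
  (homogeneousSubmodule (Fin (n + 1)) k m).subtype_injective

theorem exists_formIncl {m : ℕ} {g : MvPolynomial (Fin (n + 1)) k} (hg : g ∈ Fm k n m) :
    ∃ f, formIncl k n m f = g := ⟨⟨g, hg⟩, rfl⟩

/-- the inclusion `Λ^p V ⊗ S^m U → Λ V ⊗ S` -/
noncomputable def JJ (k : Type*) [Field k] (n d p m : ℕ) :
    WedgeTensor k (Form k n d) (Form k n m) p →ₗ[k]
      (ExteriorAlgebra k (Form k n d) ⊗[k] MvPolynomial (Fin (n + 1)) k) :=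
  TensorProduct.map (wedgeIncl k (Form k n d) p) (formIncl k n m)

theorem DD_ιMulti (p : ℕ) (s : Fin (p + 1) → Form k n d) (g : MvPolynomial (Fin (n + 1)) k) :
    DD k n d (ExteriorAlgebra.ιMulti k (p + 1) s ⊗ₜ[k] g) =
      ∑ i : Fin (p + 1), (-1 : k) ^ (i : ℕ) •
        ((ExteriorAlgebra.ιMulti k p (i.removeNth s)) ⊗ₜ[k] ((s i).toPoly * g)) := by
  induction p with
  | zero =>
    rw [ExteriorAlgebra.ιMulti_succ_apply, ← eOp_tmul, DD_eOp, mOp_tmul,
      ExteriorAlgebra.ιMulti_zero_apply, dOp_one, map_zero, sub_zero]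
    simp
  | succ p ih =>
    conv_rhs => rw [Fin.sum_univ_succ, Fin.val_zero, pow_zero, one_smul]
    rw [ExteriorAlgebra.ιMulti_succ_apply, ← eOp_tmul, DD_eOp, mOp_tmul, ih,
      sub_eq_add_neg, map_sum, ← Finset.sum_neg_distrib]
    congr 1
    refine Finset.sum_congr rfl fun i _ => ?_
    have hneg : ∀ (c : k) (x : ExteriorAlgebra k (Form k n d) ⊗[k] MvPolynomial (Fin (n + 1)) k),
        (-c) • x = -(c • x) := fun c x => neg_smul c x
    rw [map_smul, eOp_tmul, Fin.val_succ, pow_succ, mul_neg_one, hneg,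
      ExteriorAlgebra.ιMulti_succ_apply (M := Form k n d) (n := p) (i.succ.removeNth s)]
    have e1 : (i.succ.removeNth s) 0 = s 0 := by
      rw [Fin.removeNth_apply, Fin.succ_succAbove_zero]
    have e2 : Matrix.vecTail (i.succ.removeNth s) = i.removeNth (Matrix.vecTail s) := by
      funext j
      change s (i.succ.succAbove j.succ) = s (Fin.succ (i.succAbove j))
      rw [Fin.succ_succAbove_succ]
    rw [e1, e2]
    rfl

theorem JJ_wedge (p m : ℕ) (s : Fin p → Form k n d) (g : Form k n m) :
    JJ k n d p m (wedgeTmul k (Form k n d) p g s)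
      = ExteriorAlgebra.ιMulti k p s ⊗ₜ[k] g.toPoly := by
  rw [JJ, wedgeTmul_apply]
  exact TensorProduct.map_tmul _ _ _ _

theorem toPoly_mulForm {m m' : ℕ} (h : m + d = m') (s : Form k n d) (f : Form k n m) :
    (mulForm k n h s f).toPoly = s.toPoly * f.toPoly := rfl

theorem JJ_koszulD (p m m' : ℕ) (h : m + d = m')
    (z : WedgeTensor k (Form k n d) (Form k n m) (p + 1)) :
    JJ k n d p m' (koszulD (mulForm k n h) p z) = DD k n d (JJ k n d (p + 1) m z) := by
  induction z using wedgeTensor_induction with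
  | h0 => simp
  | hadd x y hx hy => rw [map_add, map_add, hx, hy, map_add, map_add]
  | hw s g =>
    rw [koszulD_apply, map_sum, JJ_wedge, DD_ιMulti]
    refine Finset.sum_congr rfl fun i _ => ?_
    rw [map_smul, JJ_wedge, toPoly_mulForm]
  | hsmul c x hx =>
    rw [map_smul, map_smul, hx, map_smul, map_smul]

theorem DD_DD (z : ExteriorAlgebra k (Form k n d) ⊗[k] MvPolynomial (Fin (n + 1)) k) :
    DD k n d (DD k n d z) = 0 := by
  induction z using TensorProduct.induction_on with
  | zero => simp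
  | add x y hx hy => rw [map_add, map_add, hx, hy, add_zero]
  | tmul a g =>
    induction a using CliffordAlgebra.left_induction with
    | algebraMap r =>
      have h1 : (algebraMap k (ExteriorAlgebra k (Form k n d)) r) ⊗ₜ[k] g
          = (1 : ExteriorAlgebra k (Form k n d)) ⊗ₜ[k] (r • g) := by
        rw [Algebra.algebraMap_eq_smul_one, TensorProduct.smul_tmul]
      have h2 : DD k n d ((algebraMap k (ExteriorAlgebra k (Form k n d)) r) ⊗ₜ[k] g) = 0 := by
        rw [h1, dOp_one]
      exact (congrArg _ h2).trans (map_zero _)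
    | add x y hx hy => rw [TensorProduct.add_tmul, map_add, map_add, hx, hy, add_zero]
    | ι_mul x v hx =>
      have h1 : DD k n d (DD k n d (eOp _ v (x ⊗ₜ[k] g))) = 0 := by
        rw [DD_eOp, map_sub, dOp_mOp, DD_eOp, hx, map_zero, sub_zero, sub_self]
      rw [eOp_tmul] at h1
      exact h1

theorem JJ_injective (p m : ℕ) : Function.Injective (JJ k n d p m) :=
  TensorProduct.map_injective_of_flat_flat _ _ (wedgeIncl_injective p) (formIncl_injective m)

/-- `JJ` as a map on chains -/
noncomputable def JC (k : Type*) [Field k] (n d p m : ℕ) :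
    Chain k n d p m →ₗ[k] (ExteriorAlgebra k (Form k n d) ⊗[k] MvPolynomial (Fin (n + 1)) k) :=
  JJ k n d p m

theorem JC_injective (p m : ℕ) : Function.Injective (JC k n d p m) := JJ_injective p m

theorem JC_differential (p m m' : ℕ) (h : m + d = m') (z : Chain k n d (p + 1) m) :
    JC k n d p m' (differential k n d p m m' h z) = DD k n d (JC k n d (p + 1) m z) :=
  JJ_koszulD p m m' h z

theorem exists_JC {p m : ℕ} {z : ExteriorAlgebra k (Form k n d) ⊗[k] MvPolynomial (Fin (n + 1)) k}
    (hz : z ∈ G (Form k n d) (Fm k n) p m) : ∃ y : Chain k n d p m, JC k n d p m y = z := by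
  unfold G at hz
  induction hz using Submodule.span_induction with
  | mem x hx =>
    obtain ⟨a, ha, g, hg, rfl⟩ := hx
    obtain ⟨w, rfl⟩ := exists_wedgeIncl ha
    obtain ⟨f, rfl⟩ := exists_formIncl hg
    exact ⟨w ⊗ₜ[k] f, TensorProduct.map_tmul _ _ _ _⟩
  | zero => exact ⟨0, map_zero _⟩
  | add x y _ _ hx hy =>
    obtain ⟨x, rfl⟩ := hx
    obtain ⟨y, rfl⟩ := hy
    exact ⟨x + y, map_add _ _ _⟩
  | smul c x _ hx =>
    obtain ⟨x, rfl⟩ := hx
    exact ⟨c • x, map_smul _ _ _⟩

/-- `∂ ∘ ∂ = 0`: the boundaries are cycles, so `KoszulCohomology` is the cohomology of a complex. -/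
theorem boundaries_le_cycles (m p : ℕ) : boundaries k n d m p ≤ cycles k n d m p := by
  cases p with
  | zero => exact le_top
  | succ p =>
    refine iSup_le fun m₀ => iSup_le fun h => ?_
    rintro _ ⟨u, rfl⟩
    rw [cycles, LinearMap.mem_ker]
    apply JC_injective
    rw [JC_differential, JC_differential, DD_DD, map_zero]

end link

end Pool.Agent.Run7.h220.Vero
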