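import Pool.Agent.Run7.h220.VeroE
import Pool.Agent.Run7.h220.VeroCount

/-!
# Nonvanishing of the Koszul cohomology of Veronese embeddings for `d ≥ b + q + 1`

A theorem of Ein, Erman and Lazarsfeld; not a hand-in (MP_deb8da_ag and MP_fb19ec_ag record it as known).

Let `k` be a field, `S = k[x_0, …, x_n]`, `S^m U` the forms of degree `m`. For
`1 ≤ q ≤ n`, `b ≥ 0` and every `d ≥ b + q + 1`, the Koszul cohomology group `K_{p,q}(P^n, b; d)`,
i.e. the cohomology of
`Λ^{p+1}(S^d U) ⊗ S^{(q-1)d+b} U → Λ^p (S^d U) ⊗ S^{qd+b} U → Λ^{p-1}(S^d U) ⊗ S^{(q+1)d+b} U`,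
is nonzero for every `p` with
`C(d+q, q) - C(d-b-1, q) - q ≤ p ≤ C(d+n, n) - C(d+n-q, n-q) + C(n+b, n-q) - q - 1`.

Proof. Let `f = (x_0 … x_{q-1})^{d-1} x_q^{q+b}` (a monomial of degree `qd + b`, as `q + b ≤ d - 1`),
and let `a_j` be its exponents. Choose `p` monomials `m_1, …, m_p` of degree `d`, none of them a power
`x_j^d`, each with `m_i f` divisible by some `x_j^d`, and containing all the monomials of degree `d`
that divide `f`; the counts (`VeroCount`) show that this is possible exactly in the stated range. For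
each `j` let `w` be the wedge of the `m_i` in group `j` (those with `m_i = x_j^{d - a_j} h_i`); then
`∂ w = x_j^{d - a_j} θ` with `∂ θ = 0`, and `x_j^{a_j} w - x_j^d ∧ θ` is a cycle; the product of these
cycles over `j` is a cycle `z` in `Λ^p (S^d U) ⊗ S^{qd+b} U` with leading term
`m_1 ∧ … ∧ m_p ⊗ f` (`VeroB`, `VeroC`). The coefficient of `m_1 ∧ … ∧ m_p ⊗ f` vanishes on
boundaries and equals `1` on `z` (`VeroD`).
-/

open Pool.Agent.Run7.h220.Vero

/-- For `0 ≤ q ≤ n`, `b ≥ 0` and every `d ≥ b + q + 1`,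
`K_{p,q}(P^n, b; d) ≠ 0` for all `p` with `λ_q ≤ p ≤ μ_q`. -/
theorem Pool.Agent.Run7.h220.Vero.veronese_nonvanishing {k : Type*} [Field k]
    (n b d p q : ℕ) (hqn : q ≤ n) (hd : b + q + 1 ≤ d)
    (hp : ((d + q).choose q : ℤ) - (d - b - 1).choose q - q ≤ p)
    (hp' : (p : ℤ) ≤
      (d + n).choose n - (d + n - q).choose (n - q) + (n + b).choose (n - q) - q - 1) :
    Nontrivial (KoszulCohomology k n b d p q) := by
  obtain ⟨T, hTE, hTp, hTZ, hTP, hTD⟩ := exists_T hqn hd p hp hp'
  obtain ⟨z, hz0, hzG, Φ, hΦ1, hΦ0⟩ := exists_class (k := k) (av n q b d)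
    (fun j => (av_le hd j).trans (Nat.sub_le _ _)) T hTE hTZ hTP hTD
  rw [hTp, sum_av hqn (by omega)] at hzG
  obtain ⟨y, hy⟩ := exists_JC hzG
  have hcyc : y ∈ cycles k n d (q * d + b) p := by
    cases p with
    | zero => exact Submodule.mem_top
    | succ p =>
      rw [cycles, LinearMap.mem_ker]
      apply JC_injective
      rw [JC_differential, hy, hz0, map_zero]
  have hnb : y ∉ boundaries k n d (q * d + b) p := by
    intro hmem
    have hle : boundaries k n d (q * d + b) p ≤
        LinearMap.ker (Φ ∘ₗ JC k n d p (q * d + b)) := by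
      refine iSup_le fun m₀ => iSup_le fun h => ?_
      rintro _ ⟨u, rfl⟩
      rw [LinearMap.mem_ker, LinearMap.comp_apply, JC_differential]
      exact hΦ0 _
    have h1 := hle hmem
    rw [LinearMap.mem_ker, LinearMap.comp_apply, hy, hΦ1] at h1
    exact one_ne_zero h1
  rw [Submodule.Quotient.nontrivial_iff]
  intro htop
  apply hnb
  have h3 : (⟨y, hcyc⟩ : cycles k n d (q * d + b) p) ∈
      boundariesInCycles k n d (q * d + b) p := by
    rw [htop]
    exact Submodule.mem_top
  exact h3
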