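import Pool.Agent.Run7.h220.ZCDefs
import Pool.Agent.Run7.h220.Comb

/-!
# Zero-cycles on schemes over an algebraically closed field
-/

set_option autoImplicit false

open CategoryTheory CategoryTheory.Limits AlgebraicGeometry

universe u

namespace Run7.h220.ZC

open Run7.h220.Comb

variable {k : Type u} [Field k]

@[simp] lemma push_single {X Y : Over (Spec (.of k))} (f : X ⟶ Y) (x : Pt X) (r : ℚ) :
    push f (Finsupp.single x r) = Finsupp.single (x ≫ f) r := by
  simp [push]

lemma push_comp {X Y Z : Over (Spec (.of k))} (f : X ⟶ Y) (g : Y ⟶ Z) (z : ZeroCycle X) :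
    push (f ≫ g) z = push g (push f z) := by
  unfold push
  rw [Finsupp.lmapDomain_apply, Finsupp.lmapDomain_apply, Finsupp.lmapDomain_apply,
    ← Finsupp.mapDomain_comp]
  congr 1

lemma push_id {X : Over (Spec (.of k))} (z : ZeroCycle X) : push (𝟙 X) z = z := by
  unfold push
  rw [Finsupp.lmapDomain_apply]
  simp only [Category.comp_id]
  exact Finsupp.mapDomain_id

lemma push_mem {X Y : Over (Spec (.of k))} (f : X ⟶ Y) {z : ZeroCycle X} (hz : z ∈ ratZero X) :
    push f z ∈ ratZero Y := by
  have h : ratZero X ≤ (ratZero Y).comap (push f) := by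
    refine Submodule.span_le.2 ?_
    rintro _ ⟨Γ, hΓ, g, D, hD, rfl⟩
    rw [SetLike.mem_coe, Submodule.mem_comap, ← push_comp]
    exact Submodule.subset_span ⟨Γ, hΓ, g ≫ f, D, hD, rfl⟩
  exact h hz

/-- The class of a zero-cycle modulo rational equivalence. -/
noncomputable def cls (X : Over (Spec (.of k))) : ZeroCycle X →ₗ[ℚ] (ZeroCycle X ⧸ ratZero X) :=
  (ratZero X).mkQ

lemma cls_eq_zero {X : Over (Spec (.of k))} {z : ZeroCycle X} : cls X z = 0 ↔ z ∈ ratZero X := by
  unfold cls
  rw [Submodule.mkQ_apply, Submodule.Quotient.mk_eq_zero]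

/-- Functions given by morphisms from a curve kill the principal divisors. -/
lemma lin_cls {C X : Over (Spec (.of k))} (Φ : C ⟶ X) {D : ZeroCycle C} (hD : D ∈ ratZero C) :
    lin (fun x : Pt C => cls X (Finsupp.single (x ≫ Φ) 1)) D = 0 := by
  have h1 : lin (fun x : Pt C => cls X (Finsupp.single (x ≫ Φ) 1)) = (cls X).comp (push Φ) := by
    refine Finsupp.lhom_ext fun x r => ?_
    rw [LinearMap.comp_apply, push_single]
    unfold lin
    rw [Finsupp.linearCombination_single, ← map_smul]
    simp
  rw [h1, LinearMap.comp_apply, cls_eq_zero]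
  exact push_mem Φ hD

/-- The constant morphism with value `p`. -/
noncomputable def cst (C : Over (Spec (.of k))) {X : Over (Spec (.of k))} (p : Pt X) : C ⟶ X :=
  Over.homMk C.hom (by simp) ≫ p

@[simp] lemma comp_cst {C X : Over (Spec (.of k))} (p : Pt X) (x : Pt C) : x ≫ cst C p = p := by
  unfold cst
  rw [← Category.assoc]
  have h : x ≫ (Over.homMk C.hom (by simp) : C ⟶ Over.mk (𝟙 (Spec (.of k)))) = 𝟙 _ := by
    ext1
    simp
  rw [h, Category.id_comp]

@[simp] lemma comp_cst' {C C' X : Over (Spec (.of k))} (p : Pt X) (f : C' ⟶ C) :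
    f ≫ cst C p = cst C' p := by
  unfold cst
  rw [← Category.assoc]
  congr 1
  ext1
  simp

section support

open Order

/-- The points of codimension one in a closed set which does not contain the generic point. -/
lemma finite_coheight_one (X : Scheme.{u}) [IsIntegral X] [IsNoetherian X] (V : X.Opens)
    (hV : (V : Set X).Nonempty) : {x : X | x ∉ V ∧ coheight x = 1}.Finite := by
  obtain ⟨S, hS, hSi, hSc, hSU⟩ :=
    TopologicalSpace.NoetherianSpace.exists_finite_set_isClosed_irreducible
      (s := (V : Set X)ᶜ) V.isOpen.isClosed_compl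
  have hgen : ∀ x : X, genericPoint X ⤳ x := fun x => genericPoint_specializes x
  have hη : genericPoint X ∈ V := (genericPoint_spec X).mem_open_set_iff V.isOpen |>.2 (by simpa using hV)
  classical
  refine Set.Finite.subset (hS.biUnion (t := fun t => {x : X | ∃ h : IsIrreducible t, x = h.genericPoint}) ?_) ?_
  · intro t ht
    refine Set.Finite.subset (Set.finite_singleton ((hSc t ht).genericPoint)) ?_
    rintro x ⟨h, rfl⟩
    rfl
  · rintro x ⟨hx, hx1⟩
    have hx' : x ∈ ⋃₀ S := by
      rw [← hSU]
      exact hx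
    obtain ⟨t, ht, hxt⟩ := hx'
    rw [Set.mem_iUnion₂]
    refine ⟨t, ht, hSc t ht, ?_⟩
    have hcl : closure t = t := (hSi t ht).closure_eq
    set w := (hSc t ht).genericPoint with hw
    have hwx : w ⤳ x := (hSc t ht).isGenericPoint_genericPoint_closure.specializes (by rw [hcl]; exact hxt)
    by_contra hne
    have hlt : x < w := lt_of_le_not_ge hwx fun h => hne (Specializes.antisymm h hwx).eq
    have hwV : w ∉ V := by
      have : w ∈ (V : Set X)ᶜ := by
        rw [hSU]
        refine ⟨t, ht, ?_⟩
        have := (hSc t ht).isGenericPoint_genericPoint_closure.mem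
        rwa [hcl] at this
      exact this
    have hlt' : w < genericPoint X := lt_of_le_not_ge (hgen w) fun h => hwV (by
      have h2 : w = genericPoint X := (Specializes.antisymm h (hgen w)).eq
      rw [h2]
      exact hη)
    have h3 : (2 : ℕ∞) ≤ coheight x := by
      have h4 := Order.coheight_add_one_le hlt
      have h5 := Order.coheight_add_one_le hlt'
      calc (2 : ℕ∞) = 0 + 1 + 1 := by norm_num
        _ ≤ coheight w + 1 := by
          gcongr
          exact le_trans (by gcongr; exact zero_le) h5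
        _ ≤ coheight x := h4
    rw [hx1] at h3
    exact absurd h3 (by norm_num)

lemma pt_injective [IsAlgClosed k] (X : Over (Spec (.of k))) [LocallyOfFiniteType X.hom] :
    Function.Injective fun x : Pt X => x.left (IsLocalRing.closedPoint k) := by
  intro x y h
  have hx : x.left ≫ X.hom = 𝟙 _ := Over.w x
  have hy : y.left ≫ X.hom = 𝟙 _ := Over.w y
  have h1 : (⟨x.left, hx⟩ : {p : Spec (.of k) ⟶ X.left // p ≫ X.hom = 𝟙 _}) = ⟨y.left, hy⟩ := by
    apply (pointEquivClosedPoint X.hom).injective
    exact Subtype.ext h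
  ext1
  exact congrArg Subtype.val h1

instance (Γ : Over (Spec (.of k))) [h : Curve Γ] : IsNoetherian Γ.left where
  toCompactSpace := by
    have : QuasiCompact Γ.hom := inferInstance
    exact QuasiCompact.compactSpace_of_compactSpace Γ.hom

/-- A rational function is a unit on some nonempty open set. -/
lemma exists_unit (X : Scheme.{u}) [IsIntegral X] [IsLocallyNoetherian X] (φ : X.functionField)
    (hφ : φ ≠ 0) : ∃ V : X.Opens, (V : Set X).Nonempty ∧ ∀ x ∈ V, Scheme.ord φ x = 0 := by
  obtain ⟨U, hU, s, hs⟩ := X.presheaf.exists_germ_eq (x := genericPoint X) φ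
  have hmem : genericPoint X ∈ X.basicOpen s := by
    rw [Scheme.mem_basicOpen _ _ _ hU, hs]
    exact isUnit_iff_ne_zero.2 hφ
  refine ⟨X.basicOpen s, ⟨_, hmem⟩, fun x hx => ?_⟩
  have : Nonempty (X.basicOpen s) := ⟨⟨_, hmem⟩⟩
  have h1 := Scheme.ord_of_isUnit (X := X) (U := X.basicOpen s) (X.toRingedSpace.isUnit_res_basicOpen s) hx
  rw [← hs]
  convert h1 using 2
  unfold Scheme.germToFunctionField
  exact (X.presheaf.germ_res_apply _ _ hmem s).symm

lemma finite_ord [IsAlgClosed k] (Γ : Over (Spec (.of k))) [Curve Γ] {φ : Γ.left.functionField}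
    (hφ : φ ≠ 0) : {x : Pt Γ | ordAt Γ φ x ≠ 0}.Finite := by
  obtain ⟨V, hV, h⟩ := exists_unit Γ.left φ hφ
  refine Set.Finite.subset (Set.Finite.preimage (pt_injective Γ).injOn
    (finite_coheight_one Γ.left V hV)) ?_
  intro x hx
  refine ⟨fun h1 => hx (h _ h1), ?_⟩
  by_contra h2
  exact hx (Scheme.ord_eq_zero_of_coheight_neq_one h2 φ)

end support

end Run7.h220.ZC
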