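import Pool.Agent.Run7.h220.ZCBasic

/-!
# Symmetrized products of zero-cycles of degree zero on a curve
-/

set_option autoImplicit false

open CategoryTheory CategoryTheory.Limits AlgebraicGeometry

universe u

namespace Run7.h220.ZC

open Run7.h220.Comb

variable {k : Type u} [Field k] [IsAlgClosed k]

/-- A divisor with integral coefficients as a zero-cycle with rational coefficients. -/
noncomputable def toQ {P : Type*} : (P →₀ ℤ) →+ (P →₀ ℚ) :=
  Finsupp.mapRange.addMonoidHom (Int.castAddHom ℚ)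

lemma toQ_apply {P : Type*} (D : P →₀ ℤ) (x : P) : toQ D x = (D x : ℚ) := by
  simp [toQ]

@[simp] lemma toQ_single {P : Type*} (x : P) (n : ℤ) :
    toQ (Finsupp.single x n) = Finsupp.single x (n : ℚ) := by
  simp [toQ]

/-- A divisor of degree at least `g` is equivalent to an effective divisor. -/
lemma exists_effective {C : Over (Spec (.of k))} [Curve C] {g : ℕ} (hg : Riemann C g)
    (D : Pt C →₀ ℤ) (hD : (g : ℤ) ≤ D.sum fun _ n => n) :
    ∃ E : Pt C →₀ ℤ, (∀ x, 0 ≤ E x) ∧ toQ E - toQ D ∈ ratZero C := by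
  obtain ⟨φ, h1, h2⟩ := hg D 1 (by push_cast; linarith)
  have h0 : φ 0 ≠ 0 := by
    intro h
    have h3 := h2 (fun _ => 1) (by simp [h])
    exact one_ne_zero (congrFun h3 0)
  have h3 : ∀ x : Pt C, 0 ≤ ordAt C (φ 0) x + D x := (h1 0).resolve_left h0
  let Q : Pt C →₀ ℤ := Finsupp.ofSupportFinite (fun x => ordAt C (φ 0) x) (by
    exact finite_ord C h0)
  refine ⟨Q + D, fun x => h3 x, ?_⟩
  rw [map_add, add_sub_cancel_right]
  refine Submodule.subset_span ⟨C, inferInstance, 𝟙 C, toQ Q, ⟨φ 0, h0, fun x => ?_⟩, ?_⟩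
  · rw [toQ_apply]
    rfl
  · rw [push_id]

/-- An effective divisor is a sum of points. -/
lemma exists_points {P : Type*} (E : P →₀ ℤ) (hE : ∀ x, 0 ≤ E x) :
    ∃ (N : ℕ) (e : Fin N → P), E = ∑ j, Finsupp.single (e j) 1 := by
  classical
  induction E using Finsupp.induction with
  | zero => exact ⟨0, fun j => j.elim0, by simp⟩
  | single_add x b f hx hb ih =>
    have hfx : f x = 0 := by simpa using hx
    have hb0 : 0 ≤ b := by
      have := hE x
      simpa [hfx] using this
    have hf : ∀ y, 0 ≤ f y := by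
      intro y
      by_cases hy : y = x
      · rw [hy, hfx]
      · have := hE y
        simpa [Finsupp.single_apply, Ne.symm hy] using this
    obtain ⟨N, e, he⟩ := ih hf
    obtain ⟨n, rfl⟩ := Int.eq_ofNat_of_zero_le hb0
    refine ⟨n + N, Fin.append (fun _ => x) e, ?_⟩
    rw [Fin.sum_univ_add]
    simp only [Fin.append_left, Fin.append_right]
    rw [← he]
    congr 1
    simp

lemma sum_single_deg {P : Type*} {N : ℕ} (e : Fin N → P) :
    ((∑ j, Finsupp.single (e j) 1 : P →₀ ℤ).sum fun _ n => n) = N := by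
  have h := map_sum (Finsupp.liftAddHom (fun _ : P => AddMonoidHom.id ℤ))
    (fun j => (Finsupp.single (e j) 1 : P →₀ ℤ)) Finset.univ
  simp only [Finsupp.liftAddHom_apply_single, AddMonoidHom.id_apply] at h
  rw [Finsupp.liftAddHom_apply] at h
  refine Eq.trans h ?_
  simp

/-- The symmetrized product of more than `g` zero-cycles `[s_j] - [o]` on a curve of genus at
most `g` is zero. -/
theorem symm_curve {C : Over (Spec (.of k))} [Curve C] {g : ℕ} (hg : Riemann C g)
    {V : Type*} [AddCommGroup V] [Module ℚ V] {m : ℕ} (hm : g < m)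
    {F : MultilinearMap ℚ (fun _ : Fin m => Pt C →₀ ℚ) V} (hF : Compat (ratZero C) F)
    (o : Pt C) (s : Fin m → Pt C) :
    ∑ σ : Equiv.Perm (Fin m), F (fun j => u o (s (σ j))) = 0 := by
  obtain ⟨m, rfl⟩ : ∃ m', m = m' + 1 := ⟨m - 1, by omega⟩
  let D : Pt C →₀ ℤ := ∑ j, Finsupp.single (s j) 1 - Finsupp.single o 1
  have hdeg : (D.sum fun _ n => n) = m := by
    have h1 := map_sub (Finsupp.liftAddHom (fun _ : Pt C => AddMonoidHom.id ℤ))
      (∑ j, Finsupp.single (s j) 1) (Finsupp.single o 1)
    simp only [AddMonoidHom.id_apply, Finsupp.liftAddHom_apply_single] at h1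
    rw [Finsupp.liftAddHom_apply, Finsupp.liftAddHom_apply] at h1
    have h2 := sum_single_deg s
    change (D.sum fun _ n => n) = (∑ j, Finsupp.single (s j) 1 : Pt C →₀ ℤ).sum (fun _ n => n) - 1 at h1
    rw [h1, h2]
    push_cast
    ring
  obtain ⟨E, hE, hED⟩ := exists_effective hg D (by rw [hdeg]; exact_mod_cast Nat.lt_succ_iff.1 hm)
  obtain ⟨N, e, rfl⟩ := exists_points E hE
  have hL : ∑ j, (Finsupp.single (s j) 1 : Pt C →₀ ℚ) -
      (Finsupp.single o 1 + ∑ j, (Finsupp.single (e j) 1 : Pt C →₀ ℚ)) ∈ ratZero C := by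
    have h2 := Submodule.neg_mem _ hED
    convert h2 using 1
    simp only [D, map_sub, map_sum, toQ_single]
    push_cast
    abel
  by_cases hN : N = m
  · subst hN
    refine symm_zero hF s (Fin.cons o e) ?_ 0 (by simp)
    rw [Fin.sum_univ_succ (fun j => (Finsupp.single ((Fin.cons o e : Fin (N + 1) → Pt C) j) 1 :
      Pt C →₀ ℚ))]
    simpa using hL
  · -- all points are rationally equivalent to zero
    have hpt : ∀ p : Pt C, (Finsupp.single p 1 : Pt C →₀ ℚ) ∈ ratZero C := by
      intro p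
      have h3 := push_mem (cst C p) hL
      rw [map_sub, map_add, map_sum, map_sum] at h3
      simp only [push_single, comp_cst, Finset.sum_const, Finset.card_univ, Fintype.card_fin] at h3
      have h4 : (m + 1) • (Finsupp.single p 1 : Pt C →₀ ℚ) -
          (Finsupp.single p 1 + N • (Finsupp.single p 1 : Pt C →₀ ℚ)) =
          ((m : ℚ) - N) • (Finsupp.single p 1 : Pt C →₀ ℚ) := by
        rw [← Nat.cast_smul_eq_nsmul ℚ, ← Nat.cast_smul_eq_nsmul ℚ]
        push_cast
        module
      rw [h4] at h3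
      refine (Submodule.smul_mem_iff _ ?_).1 h3
      intro h5
      apply hN
      have : (m : ℚ) = N := sub_eq_zero.1 h5
      exact_mod_cast this.symm
    refine Finset.sum_eq_zero fun σ _ => ?_
    have h6 : (fun j => u o (s (σ j))) = (Fin.cons (u o (s (σ 0))) fun j : Fin m =>
        u o (s (σ j.succ)) : Fin (m + 1) → (Pt C →₀ ℚ)) := by
      funext j
      refine Fin.cases ?_ (fun j => ?_) j <;> simp
    rw [h6]
    exact cons_zero hF (Submodule.sub_mem _ (hpt _) (hpt _)) _

end Run7.h220.ZC
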