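import Mathlib

/-!
# Zero-cycles on schemes over an algebraically closed field: definitions
-/

set_option autoImplicit false

open CategoryTheory CategoryTheory.Limits AlgebraicGeometry

universe u

namespace Run7.h220.ZC

variable {k : Type u} [Field k]

/-- The `k`-points of a scheme `X` over `k`. -/
abbrev Pt (X : Over (Spec (.of k))) : Type u := Over.mk (𝟙 (Spec (.of k))) ⟶ X

/-- The group of zero-cycles with rational coefficients on a scheme `X` over the algebraically
closed field `k`. -/
abbrev ZeroCycle (X : Over (Spec (.of k))) : Type u := Pt X →₀ ℚ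

/-- `Γ` is a smooth projective connected curve over the algebraically closed field `k`: an
integral scheme which is smooth of relative dimension one and proper over `k`. -/
class Curve (Γ : Over (Spec (.of k))) : Prop where
  isIntegral : IsIntegral Γ.left
  isProper : IsProper Γ.hom
  smooth : SmoothOfRelativeDimension 1 Γ.hom

instance (Γ : Over (Spec (.of k))) [h : Curve Γ] : IsIntegral Γ.left := h.isIntegral

instance (Γ : Over (Spec (.of k))) [h : Curve Γ] : IsProper Γ.hom := h.isProper

instance (Γ : Over (Spec (.of k))) [h : Curve Γ] : IsLocallyNoetherian Γ.left :=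
  LocallyOfFiniteType.isLocallyNoetherian Γ.hom

/-- The order of vanishing of the rational function `φ` at the point `x` of the curve `Γ`. -/
noncomputable def ordAt (Γ : Over (Spec (.of k))) [Curve Γ] (φ : Γ.left.functionField)
    (x : Pt Γ) : ℤ :=
  Scheme.ord φ (x.left (IsLocalRing.closedPoint k))

/-- The zero-cycle `D` is the divisor of a rational function on the curve `Γ`. -/
def IsPrincipal (Γ : Over (Spec (.of k))) [Curve Γ] (D : ZeroCycle Γ) : Prop :=
  ∃ φ : Γ.left.functionField, φ ≠ 0 ∧ ∀ x : Pt Γ, D x = (ordAt Γ φ x : ℚ)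

/-- The push-forward of zero-cycles, `[x] ↦ [f(x)]`. -/
noncomputable def push {X Y : Over (Spec (.of k))} (f : X ⟶ Y) : ZeroCycle X →ₗ[ℚ] ZeroCycle Y :=
  Finsupp.lmapDomain ℚ ℚ fun x : Pt X => x ≫ f

/-- The zero-cycles with rational coefficients on `X` which are rationally equivalent to zero: they
are generated by the push-forwards of the divisors of rational functions on smooth projective curves
mapping to `X`. -/
noncomputable def ratZero (X : Over (Spec (.of k))) : Submodule ℚ (ZeroCycle X) :=
  Submodule.span ℚ {z | ∃ (Γ : Over (Spec (.of k))) (_ : Curve Γ) (f : Γ ⟶ X) (D : ZeroCycle Γ),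
    IsPrincipal Γ D ∧ z = push f D}

/-- The constant functions. -/
noncomputable def const (Γ : Over (Spec (.of k))) [Curve Γ] : k →+* Γ.left.functionField :=
  (Γ.left.presheaf.germ ⊤ (genericPoint Γ.left) trivial).hom.comp
    (Γ.hom.appTop.hom.comp (Scheme.ΓSpecIso (.of k)).inv.hom)

/-- The function `φ` belongs to the Riemann-Roch space `L(D)`: it is zero or `div φ + D ≥ 0`. -/
def InRR (Γ : Over (Spec (.of k))) [Curve Γ] (D : Pt Γ →₀ ℤ) (φ : Γ.left.functionField) : Prop :=
  φ = 0 ∨ ∀ x : Pt Γ, 0 ≤ ordAt Γ φ x + D x

/-- The dimension of `L(D)` is at least `m`. -/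
def DimGE (Γ : Over (Spec (.of k))) [Curve Γ] (D : Pt Γ →₀ ℤ) (m : ℕ) : Prop :=
  ∃ φ : Fin m → Γ.left.functionField, (∀ i, InRR Γ D (φ i)) ∧
    ∀ c : Fin m → k, ∑ i, const Γ (c i) * φ i = 0 → c = 0

/-- The inequality of Riemann holds with the constant `g`: `dim L(D) ≥ deg D + 1 - g` for all
divisors `D`. -/
def Riemann (Γ : Over (Spec (.of k))) [Curve Γ] (g : ℕ) : Prop :=
  ∀ (D : Pt Γ →₀ ℤ) (m : ℕ), (m : ℤ) ≤ (D.sum fun _ n => n) + 1 - g → DimGE Γ D m

/-- The curve `Γ` has genus `g`, in the sense of the theorem of Riemann: `g` is the least number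
such that `dim L(D) ≥ deg D + 1 - g` for all divisors `D`. -/
def HasGenus (Γ : Over (Spec (.of k))) [Curve Γ] (g : ℕ) : Prop :=
  IsLeast {g | Riemann Γ g} g

/-- The external product `a_1 × ⋯ × a_n` of zero-cycles on `S`, a zero-cycle on `S^n`: it is the sum
of the points `(s_1, ..., s_n)` with the coefficients `∏ a_i(s_i)`. -/
noncomputable def ext {S : Over (Spec (.of k))} {n : ℕ} (a : Fin n → ZeroCycle S) :
    ZeroCycle (∏ᶜ fun _ : Fin n => S) :=
  open Classical in
  ∑ s ∈ Fintype.piFinset (fun i => (a i).support), Finsupp.single (Pi.lift s) (∏ i, a i (s i))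

/-- The push-forwards of the zero-cycle `a` on `X × Y` to `X` and to `Y` are rationally equivalent to
zero. For smooth projective curves `X` and `Y` this says that `a` is Albanese-trivial (of degree
zero and with trivial image in the Albanese variety), because the Albanese variety of `X × Y` is the
product of the Jacobian varieties of `X` and `Y`, and by the theorem of Abel. -/
def AlbTrivial {X Y : Over (Spec (.of k))} (a : ZeroCycle (X ⨯ Y)) : Prop :=
  push prod.fst a ∈ ratZero X ∧ push prod.snd a ∈ ratZero Y

end Run7.h220.ZC
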