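import Pool.Agent.Run7.h220.ZCCurve
import Pool.Agent.Run7.h220.Subset
import Pool.Agent.R904.Voi.Alt

/-!
# Voisin's conjecture for products of two curves
-/

set_option autoImplicit false

open CategoryTheory CategoryTheory.Limits AlgebraicGeometry

universe u

namespace Run7.h220.ZC

open Run7.h220.Comb

variable {k : Type u} [Field k]

/-- The class of the external product as a multilinear function. -/
noncomputable def E (S : Over (Spec (.of k))) (n : ℕ) : MultilinearMap ℚ
    (fun _ : Fin n => ZeroCycle S)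
    (ZeroCycle (∏ᶜ fun _ : Fin n => S) ⧸ ratZero (∏ᶜ fun _ : Fin n => S)) :=
  mext fun s : Fin n → Pt S => cls _ (Finsupp.single (Pi.lift s) 1)

lemma E_eq {S : Over (Spec (.of k))} {n : ℕ} (a : Fin n → ZeroCycle S) :
    E S n a = cls _ (ext a) := by
  classical
  unfold E
  rw [mext_apply, ext, map_sum]
  refine Finset.sum_congr ?_ fun s _ => ?_
  · congr!
  · rw [← map_smul]
    simp

lemma compat_E (S : Over (Spec (.of k))) (n : ℕ) : Compat (ratZero S) (E S n) := by
  intro h D hD
  have h1 := lin_cls (Pi.lift fun i => match h i with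
    | none => 𝟙 S
    | some p => cst S p : S ⟶ ∏ᶜ fun _ : Fin n => S) hD
  rw [← h1]
  congr 2
  funext x
  unfold E
  rw [mext_single]
  congr 2
  refine Pi.hom_ext _ _ fun i => ?_
  rw [Category.assoc, Pi.lift_π, Pi.lift_π]
  rcases h i with _ | p
  · simp
  · simp

/-- The external product of two zero-cycles. -/
noncomputable def B (X Y : Over (Spec (.of k))) :
    ZeroCycle X →ₗ[ℚ] ZeroCycle Y →ₗ[ℚ] ZeroCycle (X ⨯ Y) :=
  lin fun x : Pt X => lin fun y : Pt Y => Finsupp.single (prod.lift x y) 1

lemma B_single {X Y : Over (Spec (.of k))} (x : Pt X) (y : Pt Y) :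
    B X Y (Finsupp.single x 1) (Finsupp.single y 1) = Finsupp.single (prod.lift x y) 1 := by
  unfold B
  rw [lin_single, lin_single]

/-- The cycle `([x] - [o]) × ([y] - [o'])` for the point `s = (x, y)`. -/
noncomputable def w {X Y : Over (Spec (.of k))} (o : Pt X) (o' : Pt Y) (s : Pt (X ⨯ Y)) :
    ZeroCycle (X ⨯ Y) :=
  B X Y (u o (s ≫ prod.fst)) (u o' (s ≫ prod.snd))

lemma w_eq {X Y : Over (Spec (.of k))} (o : Pt X) (o' : Pt Y) (s : Pt (X ⨯ Y)) :
    w o o' s = Finsupp.single s 1 - Finsupp.single (s ≫ prod.lift prod.fst (cst _ o')) 1 -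
      Finsupp.single (s ≫ prod.lift (cst _ o) prod.snd) 1 +
      Finsupp.single (s ≫ cst _ (prod.lift o o')) 1 := by
  unfold w u
  rw [map_sub (B X Y), LinearMap.sub_apply, map_sub, map_sub, B_single, B_single, B_single, B_single]
  have e1 : prod.lift (s ≫ prod.fst) (s ≫ prod.snd) = s := by
    rw [← prod.comp_lift, prod.lift_fst_snd, Category.comp_id]
  have e2 : s ≫ prod.lift prod.fst (cst _ o') = prod.lift (s ≫ prod.fst) o' := by
    apply Limits.prod.hom_ext <;> simp
  have e3 : s ≫ prod.lift (cst _ o) prod.snd = prod.lift o (s ≫ prod.snd) := by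
    apply Limits.prod.hom_ext <;> simp
  rw [e1, e2, e3, comp_cst]
  abel

lemma lin_push {X Y : Over (Spec (.of k))} (f : X ⟶ Y) (a : ZeroCycle X) :
    lin (fun s : Pt X => (Finsupp.single (s ≫ f) 1 : ZeroCycle Y)) a = push f a := by
  have h : lin (fun s : Pt X => (Finsupp.single (s ≫ f) 1 : ZeroCycle Y)) = push f := by
    refine Finsupp.lhom_ext fun x r => ?_
    unfold lin
    rw [Finsupp.linearCombination_single, push_single]
    simp
  rw [h]

/-- An Albanese-trivial zero-cycle on a product is rationally equivalent to a combination of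
products of zero-cycles of degree zero. -/
lemma sub_lin_w {X Y : Over (Spec (.of k))} (o : Pt X) (o' : Pt Y) {a : ZeroCycle (X ⨯ Y)}
    (ha : AlbTrivial a) : a - lin (w o o') a ∈ ratZero (X ⨯ Y) := by
  have h1 : lin (w o o') a = a - push (prod.lift prod.fst (cst _ o')) a -
      push (prod.lift (cst _ o) prod.snd) a + push (cst _ (prod.lift o o')) a := by
    have h2 : (w o o' : Pt (X ⨯ Y) → ZeroCycle (X ⨯ Y)) = fun s => Finsupp.single s 1 -
      Finsupp.single (s ≫ prod.lift prod.fst (cst _ o')) 1 -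
      Finsupp.single (s ≫ prod.lift (cst _ o) prod.snd) 1 +
      Finsupp.single (s ≫ cst _ (prod.lift o o')) 1 := funext fun s => w_eq o o' s
    rw [h2, lin_add, lin_sub, lin_sub, lin_push, lin_push, lin_push]
    congr 3
    have h3 := lin_push (𝟙 (X ⨯ Y)) a
    simp only [Category.comp_id] at h3
    rw [h3, push_id]
  have h4 : push (prod.lift prod.fst (cst _ o')) a ∈ ratZero (X ⨯ Y) := by
    have e : (prod.lift prod.fst (cst _ o') : X ⨯ Y ⟶ X ⨯ Y) =
        prod.fst ≫ prod.lift (𝟙 X) (cst _ o') := by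
      apply Limits.prod.hom_ext <;> simp
    rw [e, push_comp]
    exact push_mem _ ha.1
  have h5 : push (prod.lift (cst _ o) prod.snd) a ∈ ratZero (X ⨯ Y) := by
    have e : (prod.lift (cst _ o) prod.snd : X ⨯ Y ⟶ X ⨯ Y) =
        prod.snd ≫ prod.lift (cst _ o) (𝟙 Y) := by
      apply Limits.prod.hom_ext <;> simp
    rw [e, push_comp]
    exact push_mem _ ha.2
  have h6 : push (cst _ (prod.lift o o')) a ∈ ratZero (X ⨯ Y) := by
    have e : (cst _ (prod.lift o o') : X ⨯ Y ⟶ X ⨯ Y) =
        prod.fst ≫ cst X (prod.lift o o') := by simp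
    rw [e, push_comp]
    exact push_mem _ ha.1
  rw [h1]
  have e : a - (a - push (prod.lift prod.fst (cst _ o')) a -
      push (prod.lift (cst _ o) prod.snd) a + push (cst _ (prod.lift o o')) a) =
      push (prod.lift prod.fst (cst _ o')) a + push (prod.lift (cst _ o) prod.snd) a -
      push (cst _ (prod.lift o o')) a := by abel
  rw [e]
  exact Submodule.sub_mem _ (Submodule.add_mem _ h4 h5) h6

/-- The first variables of the class of the external product of the `b_i × c_i`. -/
lemma compat_left {X Y : Over (Spec (.of k))} {n : ℕ} (c : Fin n → ZeroCycle Y) :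
    Compat (ratZero X) ((E (X ⨯ Y) n).compLinearMap fun i => (B X Y).flip (c i)) := by
  intro h D hD
  have hT : ∑ x ∈ D.support, D x • ((E (X ⨯ Y) n).compLinearMap fun i =>
      B X Y (Finsupp.single ((h i).getD x) 1)) = 0 := by
    refine mext_unique fun t => ?_
    rw [_root_.sum_apply, _root_.zero_apply]
    have h1 := lin_cls (Pi.lift fun i => prod.lift (match h i with
      | none => 𝟙 X
      | some p => cst X p) (cst X (t i)) : X ⟶ ∏ᶜ fun _ : Fin n => X ⨯ Y) hD
    rw [lin, Finsupp.linearCombination_apply, Finsupp.sum] at h1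
    rw [← h1]
    refine Finset.sum_congr rfl fun x _ => ?_
    rw [_root_.smul_apply, MultilinearMap.compLinearMap_apply]
    congr 1
    simp only [B_single]
    unfold E
    rw [mext_single]
    congr 2
    refine Pi.hom_ext _ _ fun i => ?_
    rw [Category.assoc, Pi.lift_π, Pi.lift_π]
    rcases h i with _ | p <;> (apply Limits.prod.hom_ext <;> simp)
  have h2 : (∑ x ∈ D.support, D x • ((E (X ⨯ Y) n).compLinearMap fun i =>
      B X Y (Finsupp.single ((h i).getD x) 1))) c = 0 := by rw [hT, _root_.zero_apply]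
  rw [_root_.sum_apply] at h2
  rw [lin, Finsupp.linearCombination_apply, Finsupp.sum, ← h2]
  rfl

/-- The second variables of the class of the external product of the `b_i × c_i`. -/
lemma compat_right {X Y : Over (Spec (.of k))} {n : ℕ} (b : Fin n → ZeroCycle X) :
    Compat (ratZero Y) ((E (X ⨯ Y) n).compLinearMap fun i => (B X Y) (b i)) := by
  intro h D hD
  have hT : ∑ y ∈ D.support, D y • ((E (X ⨯ Y) n).compLinearMap fun i =>
      (B X Y).flip (Finsupp.single ((h i).getD y) 1)) = 0 := by
    refine mext_unique fun t => ?_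
    rw [_root_.sum_apply, _root_.zero_apply]
    have h1 := lin_cls (Pi.lift fun i => prod.lift (cst Y (t i)) (match h i with
      | none => 𝟙 Y
      | some p => cst Y p) : Y ⟶ ∏ᶜ fun _ : Fin n => X ⨯ Y) hD
    rw [lin, Finsupp.linearCombination_apply, Finsupp.sum] at h1
    rw [← h1]
    refine Finset.sum_congr rfl fun x _ => ?_
    rw [_root_.smul_apply, MultilinearMap.compLinearMap_apply]
    congr 1
    simp only [LinearMap.flip_apply, B_single]
    unfold E
    rw [mext_single]
    congr 2
    refine Pi.hom_ext _ _ fun i => ?_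
    rw [Category.assoc, Pi.lift_π, Pi.lift_π]
    rcases h i with _ | p <;> (apply Limits.prod.hom_ext <;> simp)
  have h2 : (∑ x ∈ D.support, D x • ((E (X ⨯ Y) n).compLinearMap fun i =>
      (B X Y).flip (Finsupp.single ((h i).getD x) 1))) b = 0 := by rw [hT, _root_.zero_apply]
  rw [_root_.sum_apply] at h2
  rw [lin, Finsupp.linearCombination_apply, Finsupp.sum, ← h2]
  rfl

/-- **Voisin's conjecture for products of two curves.** -/
theorem voisin_prod [IsAlgClosed k] {C₁ C₂ : Over (Spec (.of k))} [Curve C₁] [Curve C₂]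
    {g₁ g₂ : ℕ} (h₁ : Riemann C₁ g₁) (h₂ : Riemann C₂ g₂) {n : ℕ} (hn : g₁ * g₂ < n)
    (a : Fin n → ZeroCycle (C₁ ⨯ C₂)) (ha : ∀ i, AlbTrivial (a i)) :
    ∑ σ : Equiv.Perm (Fin n), ((Equiv.Perm.sign σ : ℤ) : ℚ) • ext (fun i => a (σ i)) ∈
      ratZero (∏ᶜ fun _ : Fin n => C₁ ⨯ C₂) := by
  classical
  rw [← cls_eq_zero, map_sum]
  simp only [map_smul, ← E_eq]
  by_cases hne : Nonempty (Pt (C₁ ⨯ C₂))
  · obtain ⟨p⟩ := hne
    set o := p ≫ prod.fst with ho
    set o' := p ≫ prod.snd with ho'
    have e1 : ∀ σ : Equiv.Perm (Fin n), E (C₁ ⨯ C₂) n (fun i => a (σ i)) =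
        E (C₁ ⨯ C₂) n (fun i => lin (w o o') (a (σ i))) := fun σ =>
      (compat_E _ n).congr fun i => sub_lin_w o o' (ha _)
    simp only [e1]
    have hT : ∑ σ : Equiv.Perm (Fin n), ((Equiv.Perm.sign σ : ℤ) : ℚ) •
        ((E (C₁ ⨯ C₂) n).compLinearMap fun _ => lin (w o o')).domDomCongr σ = 0 := by
      refine mext_unique fun s => ?_
      rw [_root_.sum_apply, _root_.zero_apply]
      have key := Pool.Agent.R904.Voi.alt_two hn
        (fun σ τ => E (C₁ ⨯ C₂) n fun i => B C₁ C₂ (u o (s (σ i) ≫ prod.fst))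
          (u o' (s (τ i) ≫ prod.snd))) ?_ ?_
      · rw [← key]
        refine Finset.sum_congr rfl fun σ _ => ?_
        rw [_root_.smul_apply, MultilinearMap.domDomCongr_apply,
          MultilinearMap.compLinearMap_apply]
        simp only [lin_single]
        rfl
      · intro A hA σ τ
        have h3 := symm_subset (o := o) (compat_left (X := C₁) (fun i => u o' (s (τ i) ≫ prod.snd)))
          (fun F hF t => symm_curve h₁ (Nat.lt_succ_self _) hF o t) A hA
          (fun i => s (σ i) ≫ prod.fst) (fun i => u o (s (σ i) ≫ prod.fst))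
        rw [← h3]
        refine Finset.sum_congr rfl fun ρ _ => ?_
        rw [MultilinearMap.compLinearMap_apply]
        congr 1
        funext i
        rw [LinearMap.flip_apply]
        by_cases hi : i ∈ A
        · rw [if_pos hi]; rfl
        · rw [if_neg hi, Equiv.Perm.mul_apply, Equiv.Perm.ofSubtype_apply_of_not_mem _ hi]
      · intro A hA σ τ
        have h3 := symm_subset (o := o') (compat_right (Y := C₂) (fun i => u o (s (σ i) ≫ prod.fst)))
          (fun F hF t => symm_curve h₂ (Nat.lt_succ_self _) hF o' t) A hA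
          (fun i => s (τ i) ≫ prod.snd) (fun i => u o' (s (τ i) ≫ prod.snd))
        rw [← h3]
        refine Finset.sum_congr rfl fun ρ _ => ?_
        rw [MultilinearMap.compLinearMap_apply]
        congr 1
        funext i
        by_cases hi : i ∈ A
        · rw [if_pos hi]; rfl
        · rw [if_neg hi, Equiv.Perm.mul_apply, Equiv.Perm.ofSubtype_apply_of_not_mem _ hi]
    have h4 : (∑ σ : Equiv.Perm (Fin n), ((Equiv.Perm.sign σ : ℤ) : ℚ) •
        ((E (C₁ ⨯ C₂) n).compLinearMap fun _ => lin (w o o')).domDomCongr σ) a = 0 := by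
      rw [hT, _root_.zero_apply]
    rw [_root_.sum_apply] at h4
    rw [← h4]
    rfl
  · refine Finset.sum_eq_zero fun σ _ => ?_
    have h5 : a (σ ⟨0, by omega⟩) = 0 := by
      ext x
      exact absurd ⟨x⟩ hne
    rw [(E (C₁ ⨯ C₂) n).map_coord_zero ⟨0, by omega⟩ h5, smul_zero]

end Run7.h220.ZC
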