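import Pool.Agent.Run7.h220.ZCProd
import Pool.Agent.Run7.h220.AltSym

/-!
# Voisin's conjecture for symmetric squares of curves
-/

set_option autoImplicit false

open CategoryTheory CategoryTheory.Limits AlgebraicGeometry

universe u

namespace Run7.h220.Comb

variable {M M' V : Type*} [AddCommGroup M] [Module ℚ M] [AddCommGroup M'] [Module ℚ M']
  [AddCommGroup V] [Module ℚ V] {n : ℕ}

lemma pair_update (β : M →ₗ[ℚ] M →ₗ[ℚ] M') (b : Fin n × Bool → M) (j : Fin n) (c : Bool) (v : M) :
    (fun i => β (Function.update b (j, c) v (i, false)) (Function.update b (j, c) v (i, true))) =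
      Function.update (fun i => β (b (i, false)) (b (i, true))) j
        (if c then β (b (j, false)) v else β v (b (j, true))) := by
  funext i
  by_cases hi : i = j
  · subst hi
    cases c <;> simp
  · have h1 : ∀ c', ((i, c') : Fin n × Bool) ≠ (j, c) := fun c' h => hi (congrArg Prod.fst h)
    rw [Function.update_of_ne (h1 false), Function.update_of_ne (h1 true),
      Function.update_of_ne hi]

/-- The multilinear function `b ↦ G(i ↦ β(b_{i0}, b_{i1}))`. -/
def pairMap (G : MultilinearMap ℚ (fun _ : Fin n => M') V) (β : M →ₗ[ℚ] M →ₗ[ℚ] M') :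
    MultilinearMap ℚ (fun _ : Fin n × Bool => M) V where
  toFun b := G fun i => β (b (i, false)) (b (i, true))
  map_update_add' := by
    intro inst b ⟨j, c⟩ x y
    obtain rfl : inst = instDecidableEqProd := Subsingleton.elim _ _
    rw [pair_update, pair_update, pair_update]
    cases c
    · simp only [Bool.false_eq_true, if_false, map_add, LinearMap.add_apply, G.map_update_add]
    · simp only [if_true, map_add, G.map_update_add]
  map_update_smul' := by
    intro inst b ⟨j, c⟩ r x
    obtain rfl : inst = instDecidableEqProd := Subsingleton.elim _ _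
    rw [pair_update, pair_update]
    cases c
    · simp only [Bool.false_eq_true, if_false, map_smul, LinearMap.smul_apply, G.map_update_smul]
    · simp only [if_true, map_smul, G.map_update_smul]

lemma pairMap_apply (G : MultilinearMap ℚ (fun _ : Fin n => M') V) (β : M →ₗ[ℚ] M →ₗ[ℚ] M')
    (b : Fin n × Bool → M) : pairMap G β b = G fun i => β (b (i, false)) (b (i, true)) := rfl

end Run7.h220.Comb

namespace Run7.h220.ZC

open Run7.h220.Comb

variable {k : Type u} [Field k]

section

variable {C S : Over (Spec (.of k))} (q : C ⨯ C ⟶ S)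

/-- The class of the image of the external product of two cycles. -/
noncomputable def Bq : ZeroCycle C →ₗ[ℚ] ZeroCycle C →ₗ[ℚ] ZeroCycle S :=
  (B C C).compr₂ (push q)

lemma Bq_apply (b c : ZeroCycle C) : Bq q b c = push q (B C C b c) := rfl

lemma Bq_single (x y : Pt C) : Bq q (Finsupp.single x 1) (Finsupp.single y 1) =
    Finsupp.single (prod.lift x y ≫ q) 1 := by
  rw [Bq_apply, B_single, push_single]

variable {q}

lemma Bq_symm (hq : prod.lift prod.snd prod.fst ≫ q = q) (b c : ZeroCycle C) :
    Bq q b c = Bq q c b := by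
  have h : Bq q = (Bq q).flip := by
    refine Finsupp.lhom_ext fun x r => ?_
    refine Finsupp.lhom_ext fun y r' => ?_
    have hx : (Finsupp.single x r : ZeroCycle C) = r • Finsupp.single x 1 := by simp
    have hy : (Finsupp.single y r' : ZeroCycle C) = r' • Finsupp.single y 1 := by simp
    rw [LinearMap.flip_apply, hx, hy]
    simp only [map_smul, LinearMap.smul_apply]
    rw [Bq_single, Bq_single, smul_comm]
    congr 3
    conv_lhs => rw [← hq, ← Category.assoc, prod.comp_lift, prod.lift_snd, prod.lift_fst]
  conv_lhs => rw [h]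
  rfl

/-- The class of the external product of the images of the `b_{i0} × b_{i1}`. -/
noncomputable def E2 (q : C ⨯ C ⟶ S) (n : ℕ) : MultilinearMap ℚ
    (fun _ : Fin n × Bool => ZeroCycle C)
    (ZeroCycle (∏ᶜ fun _ : Fin n => S) ⧸ ratZero (∏ᶜ fun _ : Fin n => S)) :=
  pairMap (E S n) (Bq q)

lemma compat_E2 (q : C ⨯ C ⟶ S) (n : ℕ) : Compat (ratZero C) (E2 q n) := by
  intro h D hD
  have h1 := lin_cls (Pi.lift fun i => prod.lift (match h (i, false) with
    | none => 𝟙 C
    | some p => cst C p) (match h (i, true) with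
    | none => 𝟙 C
    | some p => cst C p) ≫ q : C ⟶ ∏ᶜ fun _ : Fin n => S) hD
  rw [← h1]
  congr 2
  funext x
  unfold E2
  rw [pairMap_apply]
  simp only [Bq_single]
  unfold E
  rw [mext_single]
  congr 2
  refine Pi.hom_ext _ _ fun i => ?_
  rw [Category.assoc, Pi.lift_π, Pi.lift_π, ← Category.assoc]
  congr 1
  rcases h (i, false) with _ | p <;> rcases h (i, true) with _ | p' <;>
    (apply Limits.prod.hom_ext <;> simp)

/-- The alternating sum of the images of the `([x_i] - [o]) × ([y_i] - [o])` is zero. -/
lemma alt_pairs [IsAlgClosed k] [Curve C] {g : ℕ} (hg : Riemann C g)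
    (hq : prod.lift prod.snd prod.fst ≫ q = q) {n : ℕ} (hn : g.choose 2 < n) (o : Pt C)
    (x : Fin n × Bool → Pt C) :
    ∑ σ : Equiv.Perm (Fin n), ((Equiv.Perm.sign σ : ℤ) : ℚ) •
      E S n (fun i => Bq q (u o (x (σ i, false))) (u o (x (σ i, true)))) = 0 := by
  classical
  refine Eq.trans ?_ (alt_sym hn (fun π => E2 q n fun k => u o (x (π k))) ?_ ?_)
  · rfl
  · intro A hA π
    have h3 := symm_subset (o := o) (compat_E2 q n)
      (fun F hF t => symm_curve hg (Nat.lt_succ_self _) hF o t) A hA
      (fun k => x (π k)) (fun k => u o (x (π k)))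
    rw [← h3]
    refine Finset.sum_congr rfl fun ρ _ => ?_
    congr 1
    funext i
    by_cases hi : i ∈ A
    · rw [if_pos hi]; rfl
    · rw [if_neg hi, Equiv.Perm.mul_apply, Equiv.Perm.ofSubtype_apply_of_not_mem _ hi]
  · intro σ ε
    simp only [E2, pairMap_apply, pr_apply]
    congr 1
    funext i
    have h4 : ∀ τ : Equiv.Perm Bool, Bq q (u o (x (σ i, τ false))) (u o (x (σ i, τ true))) =
        Bq q (u o (x (σ i, false))) (u o (x (σ i, true))) := by
      intro τ
      have h5 : τ = 1 ∨ τ = Equiv.swap false true := by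
        revert τ
        decide
      rcases h5 with rfl | rfl
      · rfl
      · rw [Equiv.swap_apply_left, Equiv.swap_apply_right]
        exact Bq_symm hq _ _
    exact h4 (ε i)

/-- A zero-cycle on the symmetric square with trivial image in the Jacobian variety. -/
lemma sub_lin_wq (hq : prod.lift prod.snd prod.fst ≫ q = q) (o : Pt C) {a : ZeroCycle (C ⨯ C)}
    (ha : push prod.fst a + push prod.snd a ∈ ratZero C) :
    push q a - push q (lin (w o o) a) ∈ ratZero S := by
  have h1 : lin (w o o) a = a - push (prod.lift prod.fst (cst _ o)) a -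
      push (prod.lift (cst _ o) prod.snd) a + push (cst _ (prod.lift o o)) a := by
    have h2 : (w o o : Pt (C ⨯ C) → ZeroCycle (C ⨯ C)) = fun s => Finsupp.single s 1 -
      Finsupp.single (s ≫ prod.lift prod.fst (cst _ o)) 1 -
      Finsupp.single (s ≫ prod.lift (cst _ o) prod.snd) 1 +
      Finsupp.single (s ≫ cst _ (prod.lift o o)) 1 := funext fun s => w_eq o o s
    rw [h2, lin_add, lin_sub, lin_sub, lin_push, lin_push, lin_push]
    congr 3
    have h3 := lin_push (𝟙 (C ⨯ C)) a
    simp only [Category.comp_id] at h3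
    rw [h3, push_id]
  have h4 : push q (push (prod.lift prod.fst (cst _ o)) a) +
      push q (push (prod.lift (cst _ o) prod.snd) a) ∈ ratZero S := by
    have e1 : (prod.lift prod.fst (cst _ o) : C ⨯ C ⟶ C ⨯ C) ≫ q =
        prod.fst ≫ (prod.lift (𝟙 C) (cst _ o) ≫ q) := by
      rw [← Category.assoc]
      congr 1
      apply Limits.prod.hom_ext <;> simp
    have e2 : (prod.lift (cst _ o) prod.snd : C ⨯ C ⟶ C ⨯ C) ≫ q =
        prod.snd ≫ (prod.lift (𝟙 C) (cst _ o) ≫ q) := by
      conv_lhs => rw [← hq, ← Category.assoc, prod.comp_lift, prod.lift_snd, prod.lift_fst]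
      rw [← Category.assoc]
      congr 1
      apply Limits.prod.hom_ext <;> simp
    rw [← push_comp, ← push_comp, e1, e2, push_comp, push_comp (f := prod.snd), ← map_add]
    exact push_mem _ ha
  have h5 : push q (push (cst _ (prod.lift o o)) a) ∈ ratZero S := by
    have h6 := push_mem (cst C (prod.lift o o ≫ q)) ha
    rw [map_add, ← push_comp, ← push_comp, comp_cst', comp_cst', ← two_smul ℚ] at h6
    have h7 := (Submodule.smul_mem_iff _ (two_ne_zero)).1 h6
    rw [← push_comp]
    convert h7 using 3
    unfold cst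
    rw [Category.assoc]
  rw [h1]
  simp only [map_add, map_sub]
  have e : push q a - (push q a - push q (push (prod.lift prod.fst (cst _ o)) a) -
      push q (push (prod.lift (cst _ o) prod.snd) a) + push q (push (cst _ (prod.lift o o)) a)) =
      (push q (push (prod.lift prod.fst (cst _ o)) a) +
        push q (push (prod.lift (cst _ o) prod.snd) a)) -
      push q (push (cst _ (prod.lift o o)) a) := by abel
  rw [e]
  exact Submodule.sub_mem _ h4 h5

/-- **Voisin's conjecture for symmetric squares of curves.** -/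
theorem voisin_sym [IsAlgClosed k] [Curve C] {g : ℕ} (hg : Riemann C g)
    (hq : prod.lift prod.snd prod.fst ≫ q = q) {n : ℕ} (hn : g.choose 2 < n)
    (a : Fin n → ZeroCycle (C ⨯ C))
    (ha : ∀ i, push prod.fst (a i) + push prod.snd (a i) ∈ ratZero C) :
    ∑ σ : Equiv.Perm (Fin n), ((Equiv.Perm.sign σ : ℤ) : ℚ) • ext (fun i => push q (a (σ i))) ∈
      ratZero (∏ᶜ fun _ : Fin n => S) := by
  classical
  rw [← cls_eq_zero, map_sum]
  simp only [map_smul, ← E_eq]
  by_cases hne : Nonempty (Pt (C ⨯ C))
  · obtain ⟨p⟩ := hne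
    set o := p ≫ prod.fst with ho
    have e1 : ∀ σ : Equiv.Perm (Fin n), E S n (fun i => push q (a (σ i))) =
        E S n (fun i => push q (lin (w o o) (a (σ i)))) := fun σ =>
      (compat_E _ n).congr fun i => sub_lin_wq hq o (ha _)
    simp only [e1]
    have hT : ∑ σ : Equiv.Perm (Fin n), ((Equiv.Perm.sign σ : ℤ) : ℚ) •
        ((E S n).compLinearMap fun _ => (push q).comp (lin (w o o))).domDomCongr σ = 0 := by
      refine mext_unique fun s => ?_
      rw [_root_.sum_apply, _root_.zero_apply]
      have key := alt_pairs (S := S) hg hq hn o (fun k => if k.2 then s k.1 ≫ prod.snd else s k.1 ≫ prod.fst)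
      rw [← key]
      refine Finset.sum_congr rfl fun σ _ => ?_
      rw [_root_.smul_apply, MultilinearMap.domDomCongr_apply,
        MultilinearMap.compLinearMap_apply]
      simp only [LinearMap.comp_apply, lin_single]
      rfl
    have h4 : (∑ σ : Equiv.Perm (Fin n), ((Equiv.Perm.sign σ : ℤ) : ℚ) •
        ((E S n).compLinearMap fun _ => (push q).comp (lin (w o o))).domDomCongr σ) a = 0 := by
      rw [hT, _root_.zero_apply]
    rw [_root_.sum_apply] at h4
    rw [← h4]
    rfl
  · refine Finset.sum_eq_zero fun σ _ => ?_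
    have h5 : a (σ ⟨0, by omega⟩) = 0 := by
      ext x
      exact absurd ⟨x⟩ hne
    rw [(E S n).map_coord_zero ⟨0, by omega⟩ (by rw [h5, map_zero]), smul_zero]

end

end Run7.h220.ZC
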